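import Mathlib
import Pool.Agent.Lib.MP_938ce2_ag_h67.Char

/-!
Definitions for the rows `k_tasks`: CM types orthogonal to a copy of an absolutely simple module of
small dimension `n` (mission: MP_938ce2_ag, version 3 of the criterion).
-/

set_option autoImplicit false
set_option linter.unusedSectionVars false

namespace Pool.Agent.Lib.MP_938ce2_ag_K

open Finset
open Pool.Agent.Lib.MP_938ce2_ag_h67 (sg)

/-- the share of the subsets of `Fin f` whose sum of signs is `v` (`sg s x = 1` if `x ∈ s`, else `-1`) -/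
noncomputable def pf (f : ℕ) (v : ℤ) : ℝ :=
  ((Finset.univ.filter fun s : Finset (Fin f) => ∑ x, sg s x = v).card : ℝ) / 2 ^ f

/-- the maximum of the absolute values -/
def nrm {n : ℕ} (ψ : Fin n → ℤ) : ℕ := Finset.univ.sup fun i => (ψ i).natAbs

/-- the integral vectors with entries bounded by `T` and orthogonal to `ψ` -/
def ker {n : ℕ} (ψ : Fin n → ℤ) (T : ℕ) : Set (Fin n → ℤ) :=
  {r | (∀ i, |r i| ≤ T) ∧ ∑ i, ψ i * r i = 0}

lemma pf_nonneg (f : ℕ) (v : ℤ) : 0 ≤ pf f v := by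
  unfold pf
  positivity

lemma natAbs_le_nrm {n : ℕ} (ψ : Fin n → ℤ) (i : Fin n) : (ψ i).natAbs ≤ nrm ψ :=
  Finset.le_sup (f := fun i => (ψ i).natAbs) (Finset.mem_univ i)

lemma abs_le_nrm {n : ℕ} (ψ : Fin n → ℤ) (i : Fin n) : |ψ i| ≤ (nrm ψ : ℤ) := by
  have h := natAbs_le_nrm ψ i
  have h2 : |ψ i| = ((ψ i).natAbs : ℤ) := (Int.natCast_natAbs (ψ i)).symm
  rw [h2]
  exact_mod_cast h

lemma exists_nrm {n : ℕ} (hn : 1 ≤ n) (ψ : Fin n → ℤ) : ∃ i, (ψ i).natAbs = nrm ψ := by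
  have hne : (Finset.univ : Finset (Fin n)).Nonempty := ⟨⟨0, hn⟩, Finset.mem_univ _⟩
  obtain ⟨i, -, hi⟩ := Finset.exists_mem_eq_sup _ hne (fun i => (ψ i).natAbs)
  exact ⟨i, hi.symm⟩

end Pool.Agent.Lib.MP_938ce2_ag_K
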