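import Mathlib
import Pool.Agent.Lib.MP_938ce2_ag_K.KD
import Pool.Agent.Lib.MP_938ce2_ag_h65u.Binom

/-!
Row K1 (100 lines): the local bound for the sum of `f` signs, with a Gaussian factor.

RECIPE. If `s : Finset (Fin f)` has `k` elements then `∑ x, sg s x = 2 k - f`, so `pf f v = 0` unless
`v = 2 k - f` with `0 ≤ k ≤ f`, and then `pf f v = choose f k / 2 ^ f`. By symmetry (`k ↔ f - k`) let
`2 k ≥ f`. For `f ≤ 2 i`, `i < f`: `choose f (i+1) / choose f i = (f - i) / (i + 1)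
= 1 - (2 i + 1 - f) / (i + 1) ≤ exp (-(2 i + 1 - f) / f)` (`i + 1 ≤ f`, `1 - x ≤ exp (-x)`). Induction from
`i₀ = (f + 1) / 2` gives `choose f k ≤ choose f i₀ * exp (-((k - i₀) ^ 2) / f)` (the sum of the odd numbers
`2 i + 1 - f` is at least `(k - i₀) ^ 2`), and `(k - i₀) ^ 2 ≥ v ^ 2 / 8 - 1`; finally
`choose f i₀ ≤ C 2 ^ f / √f`: `h65u/Binom.lean` `choose_le_real (r k) (hr : 1 ≤ r) :
(r.choose k : ℝ) ≤ 2 ^ r * (r : ℝ) ^ (-(1 / 2 : ℝ))` (you may import it).
-/

set_option autoImplicit false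
set_option linter.unusedSectionVars false

namespace Pool.Agent.Lib.MP_938ce2_ag_K

open Finset
open Pool.Agent.Lib.MP_938ce2_ag_h67 (sg)

private lemma k1_sum (f : ℕ) (s : Finset (Fin f)) : ∑ x, sg s x = 2 * (s.card : ℤ) - f := by
  have h : ∀ x : Fin f, sg s x = 2 * (if x ∈ s then 1 else 0) - 1 := by
    intro x
    unfold sg
    split_ifs <;> norm_num
  rw [Finset.sum_congr rfl fun x _ => h x, Finset.sum_sub_distrib, ← Finset.mul_sum,
    Finset.sum_ite_mem, Finset.univ_inter, Finset.sum_const, Finset.sum_const, Finset.card_univ,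
    Fintype.card_fin]
  simp

/-- the step of the induction -/
private lemma k1_step {f k i : ℕ} (hi : f ≤ 2 * i) (hik : i ≤ k) (hk : k + 1 ≤ f) :
    (f.choose (k + 1) : ℝ) ≤ f.choose k * Real.exp (-((2 * ((k : ℝ) - i) + 1) / f)) := by
  have hf : (0 : ℝ) < f := by
    have : 0 < f := by omega
    exact_mod_cast this
  have hk0 : (0 : ℝ) < (k : ℝ) + 1 := by positivity
  have hkf : (k : ℝ) + 1 ≤ f := by exact_mod_cast hk
  have hi' : (f : ℝ) ≤ 2 * i := by exact_mod_cast hi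
  have hik' : (i : ℝ) ≤ k := by exact_mod_cast hik
  have h1 : (f.choose (k + 1) : ℝ) * ((k : ℝ) + 1) = f.choose k * ((f : ℝ) - k) := by
    have h := Nat.choose_succ_right_eq f k
    have h' : ((f.choose (k + 1) * (k + 1) : ℕ) : ℝ) = ((f.choose k * (f - k) : ℕ) : ℝ) := by
      exact_mod_cast h
    rw [Nat.cast_mul, Nat.cast_mul, Nat.cast_sub (by omega : k ≤ f)] at h'
    push_cast at h'
    exact h'
  have h2 : ((f : ℝ) - k) / ((k : ℝ) + 1) ≤ Real.exp (-((2 * ((k : ℝ) - i) + 1) / f)) := by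
    have h3 : ((f : ℝ) - k) / ((k : ℝ) + 1) = -((2 * (k : ℝ) + 1 - f) / ((k : ℝ) + 1)) + 1 := by
      field_simp
      ring
    have h4 : (2 * ((k : ℝ) - i) + 1) / f ≤ (2 * (k : ℝ) + 1 - f) / ((k : ℝ) + 1) := by
      calc (2 * ((k : ℝ) - i) + 1) / f ≤ (2 * (k : ℝ) + 1 - f) / f := by
            gcongr
            linarith
        _ ≤ (2 * (k : ℝ) + 1 - f) / ((k : ℝ) + 1) := by
            apply div_le_div_of_nonneg_left _ hk0 hkf
            linarith
    rw [h3]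
    calc -((2 * (k : ℝ) + 1 - f) / ((k : ℝ) + 1)) + 1
        ≤ Real.exp (-((2 * (k : ℝ) + 1 - f) / ((k : ℝ) + 1))) := Real.add_one_le_exp _
      _ ≤ Real.exp (-((2 * ((k : ℝ) - i) + 1) / f)) := by
          apply Real.exp_le_exp.2
          linarith
  have h5 : (f.choose (k + 1) : ℝ) = f.choose k * (((f : ℝ) - k) / ((k : ℝ) + 1)) := by
    rw [← mul_div_assoc, eq_div_iff hk0.ne', h1]
  rw [h5]
  exact mul_le_mul_of_nonneg_left h2 (Nat.cast_nonneg _)

private lemma k1_ind {f i : ℕ} (hi : f ≤ 2 * i) (j : ℕ) (hj : i + j ≤ f) :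
    (f.choose (i + j) : ℝ) ≤ f.choose i * Real.exp (-((j : ℝ) ^ 2 / f)) := by
  induction j with
  | zero => simp
  | succ j ih =>
    have h1 := ih (by omega)
    have h2 := k1_step hi (Nat.le_add_right i j) (by omega : i + j + 1 ≤ f)
    calc (f.choose (i + (j + 1)) : ℝ)
        ≤ f.choose (i + j) * Real.exp (-((2 * (((i + j : ℕ) : ℝ) - i) + 1) / f)) := h2
      _ ≤ f.choose i * Real.exp (-((j : ℝ) ^ 2 / f))
            * Real.exp (-((2 * (((i + j : ℕ) : ℝ) - i) + 1) / f)) := by gcongr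
      _ = f.choose i * Real.exp (-(((j + 1 : ℕ) : ℝ) ^ 2 / f)) := by
          rw [mul_assoc, ← Real.exp_add]
          congr 2
          push_cast
          ring

private lemma k1_choose {f k : ℕ} (hf : 1 ≤ f) (hkf : k ≤ f) (hk : f ≤ 2 * k) :
    (f.choose k : ℝ) / 2 ^ f
      ≤ Real.exp 1 / √f * Real.exp (-((2 * (k : ℝ) - f) ^ 2 / (16 * f))) := by
  obtain ⟨i, hi1, hi2⟩ : ∃ i, f ≤ 2 * i ∧ 2 * i ≤ f + 1 := ⟨(f + 1) / 2, by omega, by omega⟩
  obtain ⟨j, rfl⟩ : ∃ j, k = i + j := ⟨k - i, by omega⟩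
  have hf0 : (0 : ℝ) < f := by exact_mod_cast hf
  have hf1 : (1 : ℝ) ≤ f := by exact_mod_cast hf
  have h1 := k1_ind hi1 j hkf
  have h2 := Pool.Agent.Lib.MP_938ce2_ag_h65u.choose_le_real f i hf
  have h3 : (f : ℝ) ^ (-(1 / 2 : ℝ)) = 1 / √f := by
    rw [Real.rpow_neg hf0.le, ← Real.sqrt_eq_rpow, inv_eq_one_div]
  rw [h3] at h2
  have h4 : -((j : ℝ) ^ 2 / f) ≤ 1 + -((2 * ((i + j : ℕ) : ℝ) - f) ^ 2 / (16 * f)) := by
    have h5 : (2 * ((i + j : ℕ) : ℝ) - f) ^ 2 / (16 * f) ≤ 1 + (j : ℝ) ^ 2 / f := by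
      rw [div_le_iff₀ (by positivity)]
      have h6 : (1 + (j : ℝ) ^ 2 / f) * (16 * f) = 16 * f + 16 * (j : ℝ) ^ 2 := by
        field_simp
      rw [h6]
      have h7 : (0 : ℝ) ≤ 2 * i - f := by
        have : (f : ℝ) ≤ 2 * i := by exact_mod_cast hi1
        linarith
      have h8 : (2 * (i : ℝ) - f) ≤ 1 := by
        have : (2 * (i : ℝ)) ≤ f + 1 := by exact_mod_cast hi2
        linarith
      push_cast
      nlinarith [sq_nonneg ((j : ℝ) - 1), sq_nonneg ((2 * (i : ℝ) - f) - 2 * j)]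
    linarith
  calc (f.choose (i + j) : ℝ) / 2 ^ f
      ≤ (f.choose i * Real.exp (-((j : ℝ) ^ 2 / f))) / 2 ^ f := by gcongr
    _ ≤ (2 ^ f * (1 / √f) * Real.exp (1 + -((2 * ((i + j : ℕ) : ℝ) - f) ^ 2 / (16 * f))))
          / 2 ^ f := by gcongr
    _ = Real.exp 1 / √f * Real.exp (-((2 * ((i + j : ℕ) : ℝ) - f) ^ 2 / (16 * f))) := by
        rw [Real.exp_add]
        have : (2 : ℝ) ^ f ≠ 0 := by positivity
        field_simp

theorem pf_le : ∃ C : ℝ, 0 < C ∧ ∀ f : ℕ, 1 ≤ f → ∀ v : ℤ,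
    pf f v ≤ C / √f * Real.exp (-((v : ℝ) ^ 2 / (16 * f))) := by
  refine ⟨Real.exp 1, Real.exp_pos 1, fun f hf v => ?_⟩
  have hpos : 0 ≤ Real.exp 1 / √(f : ℝ) * Real.exp (-((v : ℝ) ^ 2 / (16 * f))) := by positivity
  by_cases hex : ∃ k : ℕ, k ≤ f ∧ 2 * (k : ℤ) - f = v
  · obtain ⟨k, hkf, rfl⟩ := hex
    have hcard : (Finset.univ.filter fun s : Finset (Fin f) => ∑ x, sg s x = 2 * (k : ℤ) - f).card
        = f.choose k := by
      have h1 : (Finset.univ.filter fun s : Finset (Fin f) => ∑ x, sg s x = 2 * (k : ℤ) - f)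
          = Finset.powersetCard k Finset.univ := by
        ext s
        rw [Finset.mem_filter, Finset.mem_powersetCard, k1_sum]
        constructor
        · rintro ⟨_, h⟩
          exact ⟨Finset.subset_univ _, by omega⟩
        · rintro ⟨_, h⟩
          exact ⟨Finset.mem_univ _, by rw [h]⟩
      rw [h1, Finset.card_powersetCard, Finset.card_univ, Fintype.card_fin]
    unfold pf
    rw [hcard]
    rcases le_total f (2 * k) with h | h
    · have h2 := k1_choose hf hkf h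
      push_cast
      exact h2
    · have h2 := k1_choose (k := f - k) hf (Nat.sub_le _ _) (by omega)
      rw [Nat.choose_symm hkf, Nat.cast_sub hkf] at h2
      push_cast
      have h3 : (2 * ((f : ℝ) - k) - f) ^ 2 = (2 * (k : ℝ) - f) ^ 2 := by ring
      rw [h3] at h2
      exact h2
  · have h0 : pf f v = 0 := by
      unfold pf
      rw [Finset.card_eq_zero.2, Nat.cast_zero, zero_div]
      rw [Finset.filter_eq_empty_iff]
      intro s _ hs
      rw [k1_sum] at hs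
      refine hex ⟨s.card, ?_, hs⟩
      have := Finset.card_le_univ s
      rwa [Fintype.card_fin] at this
    rw [h0]
    exact hpos

end Pool.Agent.Lib.MP_938ce2_ag_K
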