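import Mathlib
import Pool.Agent.Lib.MP_938ce2_ag_K.KD

/-!
Row K3a (120 lines): the number of points of a lattice in a box which contains `m` independent vectors of the
lattice.
-/

set_option autoImplicit false
set_option linter.unusedSectionVars false

namespace Pool.Agent.Lib.MP_938ce2_ag_K

open Finset

/-- each class has a small representative -/
private theorem exists_rep (m T : ℕ) (L : AddSubgroup (Fin m → ℤ)) (v : Fin m → Fin m → ℤ)
    (hv : ∀ i, v i ∈ L) (hT : ∀ i k, |v i k| ≤ T)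
    (hli : LinearIndependent ℚ (fun (i : Fin m) (k : Fin m) => (v i k : ℚ))) (z : Fin m → ℤ) :
    ∃ p : Fin m → ℤ, z - p ∈ L ∧ ∀ k, |p k| ≤ m * T := by
  have hspan : Submodule.span ℚ (Set.range fun (i : Fin m) (k : Fin m) => (v i k : ℚ)) = ⊤ :=
    hli.span_eq_top_of_card_eq_finrank' (by simp)
  have hz : (fun k => (z k : ℚ)) ∈
      Submodule.span ℚ (Set.range fun (i : Fin m) (k : Fin m) => (v i k : ℚ)) := by
    rw [hspan]
    trivial
  obtain ⟨a, ha⟩ := (Submodule.mem_span_range_iff_exists_fun ℚ).1 hz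
  refine ⟨z - ∑ i, ⌊a i⌋ • v i, ?_, fun k => ?_⟩
  · rw [sub_sub_cancel]
    exact L.sum_mem fun i _ => L.zsmul_mem (hv i) _
  · have h1 : (z k : ℚ) = ∑ i, a i * v i k := by
      have := congrFun ha k
      simpa [Finset.sum_apply] using this.symm
    have h2 : (((z - ∑ i, ⌊a i⌋ • v i) k : ℤ) : ℚ) = ∑ i, Int.fract (a i) * v i k := by
      have e : (((z - ∑ i, ⌊a i⌋ • v i) k : ℤ) : ℚ) = z k - ∑ i, (⌊a i⌋ : ℚ) * v i k := by
        simp [Finset.sum_apply]
      rw [e, h1, ← Finset.sum_sub_distrib]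
      refine Finset.sum_congr rfl fun i _ => ?_
      rw [← sub_mul]
      rfl
    have h3 : |(((z - ∑ i, ⌊a i⌋ • v i) k : ℤ) : ℚ)| ≤ m * T := by
      rw [h2]
      refine (Finset.abs_sum_le_sum_abs _ _).trans ?_
      have h4 : ∀ i ∈ (Finset.univ : Finset (Fin m)), |Int.fract (a i) * v i k| ≤ (T : ℚ) := by
        intro i _
        rw [abs_mul]
        have h5 : |Int.fract (a i)| ≤ 1 := by
          rw [abs_of_nonneg (Int.fract_nonneg _)]
          exact (Int.fract_lt_one _).le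
        have h6 : |(v i k : ℚ)| ≤ T := by exact_mod_cast hT i k
        calc |Int.fract (a i)| * |(v i k : ℚ)| ≤ 1 * T :=
              mul_le_mul h5 h6 (abs_nonneg _) zero_le_one
          _ = T := one_mul _
      refine (Finset.sum_le_sum h4).trans ?_
      rw [Finset.sum_const, Finset.card_univ, Fintype.card_fin, nsmul_eq_mul]
    exact_mod_cast h3

theorem latt_count (m T : ℕ) (L : AddSubgroup (Fin m → ℤ)) (v : Fin m → Fin m → ℤ)
    (hv : ∀ i, v i ∈ L) (hT : ∀ i k, |v i k| ≤ T)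
    (hli : LinearIndependent ℚ (fun (i : Fin m) (k : Fin m) => (v i k : ℚ))) :
    L.index * ({x : Fin m → ℤ | x ∈ L ∧ ∀ k, |x k| ≤ T}).ncard ≤ (2 * ((m + 1) * T) + 1) ^ m := by
  classical
  obtain ⟨M, hM⟩ : ∃ M : ℕ, M = (m + 1) * T := ⟨_, rfl⟩
  have hrep : ∀ κ : (Fin m → ℤ) ⧸ L, ∃ p : Fin m → ℤ,
      (QuotientAddGroup.mk p : (Fin m → ℤ) ⧸ L) = κ ∧ ∀ k, |p k| ≤ m * T := by
    intro κ
    obtain ⟨z, rfl⟩ := QuotientAddGroup.mk_surjective κ
    obtain ⟨p, hp, hp'⟩ := exists_rep m T L v hv hT hli z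
    refine ⟨p, ?_, hp'⟩
    rw [QuotientAddGroup.eq]
    rwa [neg_add_eq_sub]
  choose p hp hp' using hrep
  let S : Set (Fin m → ℤ) := {x : Fin m → ℤ | x ∈ L ∧ ∀ k, |x k| ≤ T}
  let f : ((Fin m → ℤ) ⧸ L) × S → (Fin m → Finset.Icc (-(M : ℤ)) M) := fun y k =>
    ⟨p y.1 k + y.2.1 k, by
      have h1 := abs_le.1 (hp' y.1 k)
      have h2 := abs_le.1 (y.2.2.2 k)
      have h3 : (M : ℤ) = m * T + T := by
        rw [hM]
        push_cast
        ring
      rw [Finset.mem_Icc]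
      constructor <;> linarith [h1.1, h1.2, h2.1, h2.2]⟩
  have hf : Function.Injective f := by
    rintro ⟨κ, x⟩ ⟨κ', x'⟩ h
    have h1 : ∀ k, p κ k + x.1 k = p κ' k + x'.1 k := fun k =>
      congrArg Subtype.val (congrFun h k)
    have h2 : p κ + x.1 = p κ' + x'.1 := funext h1
    have h3 : κ = κ' := by
      rw [← hp κ, ← hp κ', QuotientAddGroup.eq]
      have h4 : -p κ + p κ' = x.1 - x'.1 := by
        rw [neg_add_eq_sub, sub_eq_sub_iff_add_eq_add, ← h2, add_comm]
      rw [h4]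
      exact L.sub_mem x.2.1 x'.2.1
    subst h3
    have h5 : x.1 = x'.1 := add_left_cancel h2
    rw [Subtype.ext h5]
  have h1 := Nat.card_le_card_of_injective f hf
  rw [Nat.card_prod] at h1
  have h2 : Nat.card (Fin m → Finset.Icc (-(M : ℤ)) M) = (2 * M + 1) ^ m := by
    rw [Nat.card_eq_fintype_card, Fintype.card_fun, Fintype.card_fin, Fintype.card_coe,
      Int.card_Icc]
    congr 1
    omega
  rw [h2, hM] at h1
  exact h1

end Pool.Agent.Lib.MP_938ce2_ag_K
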