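import Mathlib
import Pool.Agent.Lib.MP_938ce2_ag_K.KD
import Pool.Agent.Lib.MP_938ce2_ag_K.K3a

/-!
Row K3b (120 lines): the number of integral points of a box orthogonal to a primitive vector. Uses row K3a (`latt_count`).

RECIPE. Write `n = m + 1`. Choose `k` with `|ψ k| = nrm ψ =: N` (`exists_nrm`); `N ≥ 1` since `ψ` is primitive.
The projection `π` that forgets the coordinate `k` (`fun j => r (k.succAbove j)`) is injective on the
vectors orthogonal to `ψ`, and maps them onto `L = {x : Fin m → ℤ | ψ k ∣ ∑ j, ψ (k.succAbove j) * x j}`, which is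
the kernel of the surjective homomorphism `x ↦ ∑ ψ (k.succAbove j) x j` to `ZMod N` (surjective because
`gcd` of all `ψ i` is `1`), so `L.index = N`. The `m` independent vectors `v i` project to independent vectors
(`π` is injective on the orthogonal space over ℚ). Apply `latt_count m T L`.
-/

set_option autoImplicit false
set_option linter.unusedSectionVars false

namespace Pool.Agent.Lib.MP_938ce2_ag_K

open Finset

/-- the homomorphism to `ZMod N` whose kernel is the lattice -/
private def k3b_phi (N m : ℕ) (a : Fin m → ℤ) : (Fin m → ℤ) →+ ZMod N where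
  toFun x := ((∑ j, a j * x j : ℤ) : ZMod N)
  map_zero' := by simp
  map_add' x y := by
    simp only [Pi.add_apply, mul_add, Finset.sum_add_distrib, Int.cast_add]

private lemma k3b_apply (N m : ℕ) (a x : Fin m → ℤ) :
    k3b_phi N m a x = ((∑ j, a j * x j : ℤ) : ZMod N) := rfl

private lemma k3b_surj (N m : ℕ) (a b : Fin m → ℤ) (h : ((∑ j, a j * b j : ℤ) : ZMod N) = 1) :
    Function.Surjective (k3b_phi N m a) := by
  intro c
  obtain ⟨d, rfl⟩ := ZMod.intCast_surjective c
  refine ⟨d • b, ?_⟩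
  rw [map_zsmul, k3b_apply, h, zsmul_eq_mul, mul_one]

theorem ker_card (m T : ℕ) (ψ : Fin (m + 1) → ℤ) (hprim : Finset.univ.gcd ψ = 1)
    (v : Fin m → Fin (m + 1) → ℤ) (hv : ∀ i, v i ∈ ker ψ T)
    (hli : LinearIndependent ℚ (fun (i : Fin m) (k : Fin (m + 1)) => (v i k : ℚ))) :
    nrm ψ * (ker ψ T).ncard ≤ (2 * ((m + 1) * T) + 1) ^ m := by
  classical
  obtain ⟨k, hk⟩ := exists_nrm (Nat.le_add_left 1 m) ψ
  have hψk : ψ k ≠ 0 := by
    intro h0
    have h1 : nrm ψ = 0 := by rw [← hk, h0]; rfl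
    have h2 : ∀ i, ψ i = 0 := fun i => by
      have := natAbs_le_nrm ψ i
      rw [h1] at this
      exact Int.natAbs_eq_zero.1 (Nat.le_zero.1 this)
    have h3 : Finset.univ.gcd ψ = 0 := Finset.gcd_eq_zero_iff.2 fun i _ => h2 i
    rw [hprim] at h3
    exact one_ne_zero h3
  set a : Fin m → ℤ := fun j => ψ (k.succAbove j) with ha
  have hcast : ((ψ k : ℤ) : ZMod (nrm ψ)) = 0 := by
    rw [ZMod.intCast_zmod_eq_zero_iff_dvd, ← hk]
    exact Int.natAbs_dvd.2 dvd_rfl
  have hsum : ∀ r : Fin (m + 1) → ℤ, ∑ i, ψ i * r i = ψ k * r k +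
      ∑ j, a j * r (k.succAbove j) := fun r => Fin.sum_univ_succAbove _ k
  -- surjectivity
  obtain ⟨b, hb⟩ := Finset.gcd_eq_sum_mul (Finset.univ : Finset (Fin (m + 1))) ψ
  rw [hprim] at hb
  have hb' : ((∑ j, a j * b (k.succAbove j) : ℤ) : ZMod (nrm ψ)) = 1 := by
    have h1 : (∑ i, ψ i * b i : ℤ) = 1 := by
      rw [hb]
    rw [hsum] at h1
    have h2 := congrArg (fun t : ℤ => (t : ZMod (nrm ψ))) h1
    simpa [hcast] using h2
  have hs := k3b_surj (nrm ψ) m a _ hb'
  have hidx : (k3b_phi (nrm ψ) m a).ker.index = nrm ψ := by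
    rw [AddSubgroup.index_ker, AddMonoidHom.range_eq_top.2 hs, AddSubgroup.card_top, Nat.card_zmod]
  -- the projection
  have hmem : ∀ r ∈ ker ψ T, (fun j => r (k.succAbove j)) ∈ (k3b_phi (nrm ψ) m a).ker := by
    rintro r ⟨-, hr⟩
    rw [hsum] at hr
    rw [AddMonoidHom.mem_ker, k3b_apply]
    have h2 := congrArg (fun t : ℤ => (t : ZMod (nrm ψ))) hr
    simpa [hcast] using h2
  have hle : (ker ψ T).ncard ≤
      ({x : Fin m → ℤ | x ∈ (k3b_phi (nrm ψ) m a).ker ∧ ∀ k, |x k| ≤ T}).ncard := by
    refine Set.ncard_le_ncard_of_injOn (fun r j => r (k.succAbove j)) ?_ ?_ ?_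
    · exact fun r hr => ⟨hmem r hr, fun j => hr.1 _⟩
    · intro r hr s hs' hrs
      have h1 := hr.2
      have h2 := hs'.2
      rw [hsum] at h1 h2
      have h3 : ∀ j, r (k.succAbove j) = s (k.succAbove j) := fun j => congrFun hrs j
      simp only [h3] at h1
      have h4 : ψ k * r k = ψ k * s k := by linarith
      funext i
      rcases Fin.eq_self_or_eq_succAbove k i with rfl | ⟨j, rfl⟩
      · exact mul_left_cancel₀ hψk h4
      · exact h3 j
    · refine Set.Finite.subset (Set.finite_Icc (fun _ => -(T : ℤ)) (fun _ => (T : ℤ))) ?_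
      rintro x ⟨-, hx⟩
      exact ⟨fun j => (abs_le.1 (hx j)).1, fun j => (abs_le.1 (hx j)).2⟩
  -- independence
  have hli' : LinearIndependent ℚ
      (fun (i : Fin m) (j : Fin m) => ((v i (k.succAbove j) : ℤ) : ℚ)) := by
    rw [Fintype.linearIndependent_iff] at hli ⊢
    intro g hg
    refine hli g ?_
    have h1 : ∀ j, ∑ i, g i * (v i (k.succAbove j) : ℚ) = 0 := fun j => by
      have := congrFun hg j
      simpa using this
    have h2 : (ψ k : ℚ) * ∑ i, g i * (v i k : ℚ) = 0 := by
      have h3 : ∀ i, (ψ k : ℚ) * (v i k : ℚ) = -∑ j, (a j : ℚ) * (v i (k.succAbove j) : ℚ) := by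
        intro i
        have h4 := (hv i).2
        rw [hsum] at h4
        have h5 := congrArg (fun t : ℤ => (t : ℚ)) h4
        push_cast at h5
        linarith
      calc (ψ k : ℚ) * ∑ i, g i * (v i k : ℚ) = ∑ i, g i * ((ψ k : ℚ) * (v i k : ℚ)) := by
            rw [Finset.mul_sum]
            exact Finset.sum_congr rfl fun i _ => by ring
        _ = ∑ i, g i * (-∑ j, (a j : ℚ) * (v i (k.succAbove j) : ℚ)) := by simp only [h3]
        _ = -∑ i, ∑ j, (a j : ℚ) * (g i * (v i (k.succAbove j) : ℚ)) := by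
            rw [← Finset.sum_neg_distrib]
            refine Finset.sum_congr rfl fun i _ => ?_
            rw [mul_neg, Finset.mul_sum]
            congr 1
            exact Finset.sum_congr rfl fun j _ => by ring
        _ = -∑ j, (a j : ℚ) * ∑ i, g i * (v i (k.succAbove j) : ℚ) := by
            rw [Finset.sum_comm]
            congr 1
            exact Finset.sum_congr rfl fun j _ => by rw [Finset.mul_sum]
        _ = 0 := by simp only [h1, mul_zero, Finset.sum_const_zero, neg_zero]
    have h3 : ∑ i, g i * (v i k : ℚ) = 0 :=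
      (mul_eq_zero.1 h2).resolve_left (by exact_mod_cast hψk)
    funext i
    simp only [Finset.sum_apply, Pi.smul_apply, smul_eq_mul, Pi.zero_apply]
    rcases Fin.eq_self_or_eq_succAbove k i with rfl | ⟨j, rfl⟩
    · exact h3
    · exact h1 j
  have h := latt_count m T (k3b_phi (nrm ψ) m a).ker (fun i j => v i (k.succAbove j))
    (fun i => hmem _ (hv i)) (fun i j => (hv i).1 _) hli'
  rw [hidx] at h
  exact (Nat.mul_le_mul_left _ hle).trans h

end Pool.Agent.Lib.MP_938ce2_ag_K
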