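import Mathlib
import Pool.Agent.Lib.MP_938ce2_ag_K.KD

/-!
Row K3c (100 lines): the sum of `|ψ| ^ (-n)` over the integral vectors of a box.

RECIPE. Group by `N = nrm ψ ∈ [1, P]`: the number of `ψ` with `nrm ψ = N` is at most
`n * 2 * (2 N + 1) ^ (n - 1)` (choose the coordinate with `|ψ i| = N`, its sign, the others arbitrary in
`[-N, N]`), which is `≤ 2 n 3 ^ (n-1) N ^ (n-1)`. So the sum is at most `2 n 3 ^ n ∑_{N ≤ P} 1 / N
≤ C (1 + log P)` (`harmonic_le_one_add_log`).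
-/

set_option autoImplicit false
set_option linter.unusedSectionVars false

namespace Pool.Agent.Lib.MP_938ce2_ag_K

open Finset

private lemma k3c_bern (m N : ℕ) :
    (2 * (N : ℝ) + 1) ^ (m + 1) - (2 * (N : ℝ) - 1) ^ (m + 1)
      ≤ 2 * (m + 1) * (2 * (N : ℝ) + 1) ^ m := by
  have hN : (0 : ℝ) ≤ N := Nat.cast_nonneg N
  have hx : (0 : ℝ) < 2 * (N : ℝ) + 1 := by positivity
  have h0 : (-2 : ℝ) ≤ -2 / (2 * (N : ℝ) + 1) := by
    rw [le_div_iff₀ hx]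
    nlinarith
  have h1 := one_add_mul_le_pow h0 (m + 1)
  have h2 : 1 + -2 / (2 * (N : ℝ) + 1) = (2 * (N : ℝ) - 1) / (2 * (N : ℝ) + 1) := by
    field_simp
    ring
  rw [h2, div_pow, le_div_iff₀ (by positivity)] at h1
  have h3 : (1 + ((m + 1 : ℕ) : ℝ) * (-2 / (2 * (N : ℝ) + 1))) * (2 * (N : ℝ) + 1) ^ (m + 1)
      = (2 * (N : ℝ) + 1) ^ (m + 1) - 2 * (m + 1) * (2 * (N : ℝ) + 1) ^ m := by
    rw [pow_succ]
    push_cast
    field_simp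
    ring
  rw [h3] at h1
  linarith

private lemma k3c_card (m N : ℕ) (hN : 1 ≤ N) (S : Finset (Fin (m + 1) → ℤ))
    (hS : ∀ ψ ∈ S, nrm ψ = N) :
    (S.card : ℝ) ≤ 2 * (m + 1) * 3 ^ m * (N : ℝ) ^ m := by
  classical
  have hss : Fintype.piFinset (fun _ : Fin (m + 1) => Finset.Icc (-(N : ℤ) + 1) ((N : ℤ) - 1))
      ⊆ Fintype.piFinset (fun _ : Fin (m + 1) => Finset.Icc (-(N : ℤ)) (N : ℤ)) := by
    refine Fintype.piFinset_subset _ _ fun _ => Finset.Icc_subset_Icc ?_ ?_ <;> omega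
  have hsub : S ⊆ Fintype.piFinset (fun _ : Fin (m + 1) => Finset.Icc (-(N : ℤ)) (N : ℤ)) \
      Fintype.piFinset (fun _ : Fin (m + 1) => Finset.Icc (-(N : ℤ) + 1) ((N : ℤ) - 1)) := by
    intro ψ hψ
    rw [Finset.mem_sdiff, Fintype.mem_piFinset, Fintype.mem_piFinset]
    constructor
    · intro i
      have h := abs_le_nrm ψ i
      rw [hS ψ hψ, abs_le] at h
      exact Finset.mem_Icc.2 h
    · intro h
      obtain ⟨i, hi⟩ := exists_nrm (by omega : 1 ≤ m + 1) ψ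
      have h2 := Finset.mem_Icc.1 (h i)
      rw [hS ψ hψ] at hi
      omega
  have h1 := Finset.card_le_card hsub
  rw [Finset.card_sdiff_of_subset hss, Fintype.card_piFinset_const, Fintype.card_piFinset_const,
    Int.card_Icc, Int.card_Icc] at h1
  have h2 : ((N : ℤ) + 1 - -(N : ℤ)).toNat = 2 * N + 1 := by omega
  have h3 : ((N : ℤ) - 1 + 1 - (-(N : ℤ) + 1)).toNat = 2 * N - 1 := by omega
  rw [h2, h3] at h1
  have h4 : (2 * N - 1) ^ (m + 1) ≤ (2 * N + 1) ^ (m + 1) := Nat.pow_le_pow_left (by omega) _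
  have h5 : (S.card : ℝ) ≤ (2 * (N : ℝ) + 1) ^ (m + 1) - (2 * (N : ℝ) - 1) ^ (m + 1) := by
    have h6 : S.card + (2 * N - 1) ^ (m + 1) ≤ (2 * N + 1) ^ (m + 1) := by omega
    have h7 : ((S.card + (2 * N - 1) ^ (m + 1) : ℕ) : ℝ) ≤ (((2 * N + 1) ^ (m + 1) : ℕ) : ℝ) := by
      exact_mod_cast h6
    push_cast at h7
    rw [Nat.cast_sub (by omega : 1 ≤ 2 * N)] at h7
    push_cast at h7
    linarith
  have hN1 : (1 : ℝ) ≤ N := by exact_mod_cast hN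
  calc (S.card : ℝ) ≤ 2 * (m + 1) * (2 * (N : ℝ) + 1) ^ m := h5.trans (k3c_bern m N)
    _ ≤ 2 * (m + 1) * (3 * (N : ℝ)) ^ m := by
        gcongr
        linarith
    _ = 2 * (m + 1) * 3 ^ m * (N : ℝ) ^ m := by rw [mul_pow]; ring

theorem sum_nrm (n : ℕ) (hn : 1 ≤ n) : ∃ C : ℝ, 0 < C ∧ ∀ P : ℕ, 1 ≤ P →
    ∀ S : Finset (Fin n → ℤ), (∀ ψ ∈ S, 1 ≤ nrm ψ ∧ nrm ψ ≤ P) →
      ∑ ψ ∈ S, (1 / (nrm ψ : ℝ)) ^ n ≤ C * (1 + Real.log P) := by
  obtain ⟨m, rfl⟩ : ∃ m, n = m + 1 := ⟨n - 1, by omega⟩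
  refine ⟨2 * (m + 1) * 3 ^ m, by positivity, fun P _ S hS => ?_⟩
  have hmap : ∀ ψ ∈ S, nrm ψ ∈ Finset.Icc 1 P := fun ψ hψ => Finset.mem_Icc.2 (hS ψ hψ)
  rw [← Finset.sum_fiberwise_of_maps_to hmap]
  have h1 : ∀ N ∈ Finset.Icc 1 P, ∑ ψ ∈ S.filter (fun ψ => nrm ψ = N),
      (1 / (nrm ψ : ℝ)) ^ (m + 1) ≤ 2 * (m + 1) * 3 ^ m * ((N : ℝ))⁻¹ := by
    intro N hN
    have hN1 := (Finset.mem_Icc.1 hN).1
    have hN0 : (0 : ℝ) < N := by exact_mod_cast hN1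
    have h2 : ∑ ψ ∈ S.filter (fun ψ => nrm ψ = N), (1 / (nrm ψ : ℝ)) ^ (m + 1)
        = ((S.filter fun ψ => nrm ψ = N).card : ℝ) * (1 / (N : ℝ)) ^ (m + 1) := by
      rw [Finset.sum_congr rfl (g := fun _ => (1 / (N : ℝ)) ^ (m + 1)), Finset.sum_const,
        nsmul_eq_mul]
      intro ψ hψ
      rw [(Finset.mem_filter.1 hψ).2]
    rw [h2]
    have h3 := k3c_card m N hN1 (S.filter fun ψ => nrm ψ = N)
      fun ψ hψ => (Finset.mem_filter.1 hψ).2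
    calc ((S.filter fun ψ => nrm ψ = N).card : ℝ) * (1 / (N : ℝ)) ^ (m + 1)
        ≤ 2 * (m + 1) * 3 ^ m * (N : ℝ) ^ m * (1 / (N : ℝ)) ^ (m + 1) := by gcongr
      _ = 2 * (m + 1) * 3 ^ m * ((N : ℝ))⁻¹ := by
          rw [pow_succ, one_div, inv_pow]
          field_simp
  refine (Finset.sum_le_sum h1).trans ?_
  rw [← Finset.mul_sum]
  have h4 : ∑ N ∈ Finset.Icc 1 P, ((N : ℝ))⁻¹ ≤ 1 + Real.log P := by
    have h5 := harmonic_le_one_add_log P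
    rw [harmonic_eq_sum_Icc] at h5
    push_cast at h5
    exact h5
  gcongr

end Pool.Agent.Lib.MP_938ce2_ag_K
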