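import Mathlib
import Pool.Agent.Lib.MP_938ce2_ag_K.KD

/-!
Row K3d: a small primitive vector killed by a singular matrix.
-/

set_option autoImplicit false
set_option linter.unusedSectionVars false

namespace Pool.Agent.Lib.MP_938ce2_ag_K

open Finset

/-- `m` independent rows of a matrix of rank `m` -/
private lemma exists_rows {m : ℕ} (A : Matrix (Fin (m + 1)) (Fin (m + 1)) ℚ) (hr : A.rank = m) :
    ∃ e : Fin m → Fin (m + 1), LinearIndependent ℚ (fun (i : Fin m) => A (e i)) := by
  obtain ⟨κ, a, ha, hspan, hli⟩ := exists_linearIndependent' ℚ (fun i => A i)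
  have hfin : Finite κ := Finite.of_injective a ha
  have : Fintype κ := Fintype.ofFinite κ
  have hcard : Fintype.card κ = m := by
    rw [Matrix.rank_eq_finrank_span_row] at hr
    have h1 : Module.finrank ℚ (Submodule.span ℚ (Set.range ((fun i => A i) ∘ a))) = Fintype.card κ :=
      finrank_span_eq_card hli
    rw [hspan] at h1
    rw [← h1]
    exact hr
  have eq : Fin m ≃ κ := (Fintype.equivFinOfCardEq hcard).symm
  refine ⟨a ∘ eq, ?_⟩
  exact hli.comp eq eq.injective

private lemma exists_row_det {m : ℕ} (A : Matrix (Fin (m + 1)) (Fin (m + 1)) ℚ)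
    (e : Fin m → Fin (m + 1)) (he : LinearIndependent ℚ (fun (i : Fin m) => A (e i))) :
    ∃ j k, A.adjugate k j ≠ 0 := by
  have hinj : Function.Injective e := by
    intro a b hab
    apply he.injective
    simp [hab]
  have hns : ¬ Function.Surjective e := by
    intro hs
    have := Fintype.card_le_of_surjective e hs
    simp at this
  obtain ⟨j, hj⟩ := not_forall.mp hns
  have hne : Submodule.span ℚ (Set.range (fun (i : Fin m) => A (e i))) ≠ ⊤ := by
    intro htop
    have h1 := finrank_span_eq_card he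
    rw [htop, finrank_top, Module.finrank_fintype_fun_eq_card] at h1
    simp at h1
  obtain ⟨v, hv⟩ : ∃ v, v ∉ Submodule.span ℚ (Set.range (fun (i : Fin m) => A (e i))) := by
    by_contra hcon
    push Not at hcon
    exact hne (Submodule.eq_top_iff'.mpr hcon)
  have hcons : LinearIndependent ℚ (Fin.cons v (fun (i : Fin m) => A (e i)) : Fin (m + 1) → _) :=
    LinearIndependent.finCons he hv
  set U := A.updateRow j v with hU
  have hσ : Function.Injective (Fin.cons j e : Fin (m + 1) → Fin (m + 1)) := by
    rw [Fin.cons_injective_iff]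
    refine ⟨?_, hinj⟩
    rintro ⟨x, hx⟩
    exact hj ⟨x, hx⟩
  have hbij := Finite.injective_iff_bijective.mp hσ
  let σ := Equiv.ofBijective _ hbij
  have hrows : (fun i => U (σ i)) = (Fin.cons v (fun (i : Fin m) => A (e i)) : Fin (m + 1) → _) := by
    funext i
    refine Fin.cases ?_ (fun i => ?_) i
    · simp [σ, hU]
    · have : e i ≠ j := fun h => hj ⟨i, h⟩
      simp [σ, hU, Matrix.updateRow_ne this]
  have hli : LinearIndependent ℚ U.row := by
    rw [← linearIndependent_equiv σ]
    have : U.row ∘ σ = fun i => U (σ i) := rfl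
    rw [this, hrows]
    exact hcons
  have hunit : IsUnit U := (Matrix.linearIndependent_rows_iff_isUnit).mp hli
  have hdet : U.det ≠ 0 := by
    have := (Matrix.isUnit_iff_isUnit_det U).mp hunit
    exact this.ne_zero
  refine ⟨j, ?_⟩
  by_contra hcon
  push Not at hcon
  apply hdet
  rw [Matrix.det_eq_sum_mul_adjugate_row U j]
  apply Finset.sum_eq_zero
  intro k _
  have h1 : U.adjugate k j = A.adjugate k j := by
    rw [Matrix.adjugate_apply, Matrix.adjugate_apply, hU]
    rw [Matrix.updateRow_idem]
  rw [h1, hcon k, mul_zero]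

theorem exists_psi (m T : ℕ) (hT : 1 ≤ T) (W : Matrix (Fin (m + 1)) (Fin (m + 1)) ℤ)
    (hW : ∀ i j, |W i j| ≤ T) (hr : (W.map (Int.cast : ℤ → ℚ)).rank = m) :
    ∃ ψ : Fin (m + 1) → ℤ, Finset.univ.gcd ψ = 1 ∧ nrm ψ ≤ (m + 1).factorial * T ^ (m + 1) ∧
      (∀ i, W i ∈ ker ψ T) ∧
      ∃ e : Fin m → Fin (m + 1), LinearIndependent ℚ (fun (i : Fin m) (k : Fin (m + 1)) => (W (e i) k : ℚ)) := by
  obtain ⟨e, he⟩ := exists_rows (W.map (Int.cast : ℤ → ℚ)) hr
  obtain ⟨j, k0, hk0⟩ := exists_row_det _ e he
  have hmap : (W.map (Int.cast : ℤ → ℚ)).adjugate = (W.adjugate).map (Int.cast : ℤ → ℚ) := by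
    have := RingHom.map_adjugate (Int.castRingHom ℚ) W
    simpa using this.symm
  have hφ0 : W.adjugate k0 j ≠ 0 := by
    intro h
    apply hk0
    rw [hmap, Matrix.map_apply, h]
    simp
  have hdet : W.det = 0 := by
    by_contra hne
    have h1 : (W.map (Int.cast : ℤ → ℚ)).det ≠ 0 := by
      have h2 : (W.map (Int.cast : ℤ → ℚ)).det = ((W.det : ℤ) : ℚ) := by
        have := RingHom.map_det (Int.castRingHom ℚ) W
        simpa using this.symm
      rw [h2]
      exact_mod_cast hne
    have h3 : IsUnit (W.map (Int.cast : ℤ → ℚ)) :=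
      (Matrix.isUnit_iff_isUnit_det _).mpr (isUnit_iff_ne_zero.mpr h1)
    have h4 := Matrix.rank_of_isUnit _ h3
    rw [hr] at h4
    simp at h4
  have horth : ∀ i, ∑ k, W.adjugate k j * W i k = 0 := by
    intro i
    have h1 := Matrix.mul_adjugate W
    rw [hdet, zero_smul] at h1
    have h2 := congrFun (congrFun h1 i) j
    rw [Matrix.mul_apply] at h2
    simp only [Matrix.zero_apply] at h2
    rw [← h2]
    exact Finset.sum_congr rfl fun k _ => mul_comm _ _
  have hbound : ∀ k, |W.adjugate k j| ≤ ((m + 1).factorial * T ^ (m + 1) : ℕ) := by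
    intro k
    rw [Matrix.adjugate_apply]
    have h1 : ∀ a b, (AbsoluteValue.abs : AbsoluteValue ℤ ℤ) ((W.updateRow j (Pi.single k 1)) a b) ≤ (T : ℤ) := by
      intro a b
      rw [AbsoluteValue.abs_apply]
      by_cases ha : a = j
      · subst ha
        rw [Matrix.updateRow_self]
        by_cases hb : b = k
        · subst hb
          simp
          exact_mod_cast hT
        · rw [Pi.single_eq_of_ne hb]
          simp
      · rw [Matrix.updateRow_ne ha]
        exact hW a b
    have h2 := Matrix.det_le h1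
    rw [AbsoluteValue.abs_apply] at h2
    simp only [Fintype.card_fin, nsmul_eq_mul] at h2
    push_cast
    exact h2
  obtain ⟨ψ, hψ, hg⟩ := Finset.extract_gcd (s := (Finset.univ : Finset (Fin (m + 1))))
    (fun k => W.adjugate k j) ⟨0, Finset.mem_univ _⟩
  set g := Finset.univ.gcd (fun k => W.adjugate k j) with hgdef
  have hg0 : g ≠ 0 := by
    intro h
    apply hφ0
    have := hψ k0 (Finset.mem_univ _)
    simp only [h, zero_mul] at this
    exact this
  refine ⟨ψ, hg, ?_, ?_, e, ?_⟩
  · unfold nrm
    apply Finset.sup_le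
    intro k _
    have h1 : W.adjugate k j = g * ψ k := hψ k (Finset.mem_univ _)
    have h2 : |ψ k| ≤ |W.adjugate k j| := by
      rw [h1, abs_mul]
      have : 1 ≤ |g| := Int.one_le_abs hg0
      have h3 := abs_nonneg (ψ k)
      nlinarith
    have h3 := h2.trans (hbound k)
    have h4 : ((ψ k).natAbs : ℤ) ≤ ((m + 1).factorial * T ^ (m + 1) : ℕ) := by
      rw [Int.natCast_natAbs]
      exact h3
    exact_mod_cast h4
  · intro i
    refine ⟨fun b => hW i b, ?_⟩
    have h1 := horth i
    have h2 : g * ∑ k, ψ k * W i k = 0 := by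
      rw [Finset.mul_sum, ← h1]
      apply Finset.sum_congr rfl
      intro k hk
      have h3 : W.adjugate k j = g * ψ k := hψ k hk
      rw [h3]
      ring
    rcases mul_eq_zero.mp h2 with h | h
    · exact absurd h hg0
    · exact h
  · exact he

end Pool.Agent.Lib.MP_938ce2_ag_K
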