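import Mathlib
import Pool.Agent.Lib.MP_938ce2_ag_K.KD

/-!
Row K3e (150 lines): the number of integral matrices of rank at most `r`.

RECIPE. If the rank over ℚ is at most `r ≤ n` then there is `I : Finset (Fin n)` with `I.card = r` such that all rows
are in the span of the rows in `I` (take a maximal independent set of rows and enlarge it arbitrarily).
There are at most `2 ^ n` sets `I` and, for given `I`, `(2 T + 1) ^ (n r)` choices of the rows in `I`. Given
these rows, every other row is in a fixed subspace `U` of `ℚ ^ n` of dimension at most `r`; there is a set `J` of at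
most `r` coordinates such that the restriction `U → ℚ ^ J` is injective (h67/Code.lean `exists_info`), so `U` has
at most `(2 T + 1) ^ r` integral points with entries bounded by `T`. Total
`2 ^ n (2 T + 1) ^ (n r + (n - r) r) ≤ 2 ^ n * 3 ^ (...) * T ^ (...)`.
-/

set_option autoImplicit false
set_option linter.unusedSectionVars false

namespace Pool.Agent.Lib.MP_938ce2_ag_K

open Finset

/-- a subspace of `ℚ ^ n` of dimension at most `r` is determined by `r` coordinates -/
lemma exists_coords {n r : ℕ} (hr : r ≤ n) (C : Submodule ℚ (Fin n → ℚ))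
    (hC : Module.finrank ℚ C ≤ r) : ∃ J : Finset (Fin n), J.card = r ∧
      ∀ u ∈ C, (∀ j ∈ J, u j = 0) → u = 0 := by
  classical
  let v : Fin n → Module.Dual ℚ C := fun x => (LinearMap.proj x).comp C.subtype
  obtain ⟨κ, a, ha, hsp, hli⟩ := exists_linearIndependent' ℚ v
  have hfin : Finite κ := Finite.of_injective a ha
  let _ : Fintype κ := Fintype.ofFinite κ
  have hge : Fintype.card κ ≤ Module.finrank ℚ C := by
    have := hli.fintype_card_le_finrank
    rwa [Subspace.dual_finrank_eq] at this
  have hcard : (univ.map ⟨a, ha⟩ : Finset (Fin n)).card ≤ r := by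
    rw [Finset.card_map, Finset.card_univ]
    exact hge.trans hC
  obtain ⟨J, hJs, hJ⟩ := Finset.exists_superset_card_eq hcard (by rw [Fintype.card_fin]; exact hr)
  refine ⟨J, hJ, fun u hu hz => ?_⟩
  have h1 : ∀ φ ∈ Submodule.span ℚ (Set.range (v ∘ a)), φ ⟨u, hu⟩ = 0 := by
    intro φ hφ
    induction hφ using Submodule.span_induction with
    | mem φ hφ =>
      obtain ⟨i, rfl⟩ := hφ
      exact hz (a i) (hJs (Finset.mem_map.2 ⟨i, Finset.mem_univ _, rfl⟩))
    | zero => rfl
    | add φ ψ _ _ h1 h2 => rw [LinearMap.add_apply, h1, h2, add_zero]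
    | smul c φ _ h => rw [LinearMap.smul_apply, h, smul_zero]
  funext x
  have h2 : v x ∈ Submodule.span ℚ (Set.range (v ∘ a)) := by
    rw [hsp]
    exact Submodule.subset_span ⟨x, rfl⟩
  exact h1 _ h2

/-- `r` rows spanning all rows, and `r` coordinates determining the vectors of this span -/
lemma exists_rows_coords {n r : ℕ} (hr : r ≤ n) (v : Fin n → Fin n → ℚ)
    (hv : Module.finrank ℚ (Submodule.span ℚ (Set.range v)) ≤ r) :
    ∃ p : Finset (Fin n) × Finset (Fin n), p.1.card = r ∧ p.2.card = r ∧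
      (∀ i, v i ∈ Submodule.span ℚ (v '' (p.1 : Set (Fin n)))) ∧
      ∀ u ∈ Submodule.span ℚ (v '' (p.1 : Set (Fin n))), (∀ j ∈ p.2, u j = 0) → u = 0 := by
  classical
  obtain ⟨κ, a, ha, hsp, hli⟩ := exists_linearIndependent' ℚ v
  have hfin : Finite κ := Finite.of_injective a ha
  let _ : Fintype κ := Fintype.ofFinite κ
  have hcκ : Fintype.card κ ≤ r := by
    rw [← finrank_span_eq_card hli, hsp]
    exact hv
  have hcard : (univ.map ⟨a, ha⟩ : Finset (Fin n)).card ≤ r := by
    rw [Finset.card_map, Finset.card_univ]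
    exact hcκ
  obtain ⟨I, hIs, hI⟩ := Finset.exists_superset_card_eq hcard (by rw [Fintype.card_fin]; exact hr)
  have hle : Submodule.span ℚ (Set.range v) ≤ Submodule.span ℚ (v '' (I : Set (Fin n))) := by
    rw [← hsp]
    refine Submodule.span_mono ?_
    rintro _ ⟨i, rfl⟩
    exact ⟨a i, hIs (Finset.mem_map.2 ⟨i, Finset.mem_univ _, rfl⟩), rfl⟩
  have hle2 : Submodule.span ℚ (v '' (I : Set (Fin n))) ≤ Submodule.span ℚ (Set.range v) :=
    Submodule.span_mono (Set.image_subset_range _ _)
  obtain ⟨J, hJ, hJ2⟩ := exists_coords hr (Submodule.span ℚ (v '' (I : Set (Fin n))))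
    (by rw [le_antisymm hle2 hle]; exact hv)
  exact ⟨(I, J), hI, hJ, fun i => hle (Submodule.subset_span ⟨i, rfl⟩), hJ2⟩

theorem card_rank_le (n r : ℕ) (hr : r ≤ n) : ∃ C : ℝ, 0 < C ∧ ∀ T : ℕ, 1 ≤ T →
    (({W : Matrix (Fin n) (Fin n) ℤ | (∀ i j, |W i j| ≤ T) ∧
        (W.map (Int.cast : ℤ → ℚ)).rank ≤ r}).ncard : ℝ)
      ≤ C * (T : ℝ) ^ (n * r + (n - r) * r) := by
  classical
  -- the truncation
  let tr : Finset (Fin n) × Finset (Fin n) → Matrix (Fin n) (Fin n) ℤ → Fin n → Fin n → ℤ :=
    fun p W i j => if i ∈ p.1 ∨ j ∈ p.2 then W i j else 0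
  let B : ℕ → Finset (Fin n) × Finset (Fin n) → Finset (Fin n → Fin n → ℤ) := fun T p =>
    Fintype.piFinset fun i => Fintype.piFinset fun j =>
      if i ∈ p.1 ∨ j ∈ p.2 then Finset.Icc (-(T : ℤ)) T else {0}
  have hB : ∀ T p, p.1.card = r → p.2.card = r →
      (B T p).card = (2 * T + 1) ^ (n * r + (n - r) * r) := by
    intro T p hp1 hp2
    have hIcc : (Finset.Icc (-(T : ℤ)) T).card = 2 * T + 1 := by
      rw [Int.card_Icc]
      omega
    have hrow : ∀ i, (Fintype.piFinset fun j =>
        if i ∈ p.1 ∨ j ∈ p.2 then Finset.Icc (-(T : ℤ)) T else {0}).card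
        = if i ∈ p.1 then (2 * T + 1) ^ n else (2 * T + 1) ^ r := by
      intro i
      rw [Fintype.card_piFinset]
      by_cases hi : i ∈ p.1
      · simp only [hi, true_or, if_true, hIcc, Finset.prod_const, Finset.card_univ,
          Fintype.card_fin]
      · simp only [hi, false_or, if_false]
        have h1 : ∀ j, (if j ∈ p.2 then Finset.Icc (-(T : ℤ)) T else {0}).card
            = if j ∈ p.2 then 2 * T + 1 else 1 := by
          intro j
          split_ifs
          · exact hIcc
          · exact Finset.card_singleton _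
        rw [Finset.prod_congr rfl fun j _ => h1 j, Finset.prod_ite, Finset.prod_const,
          Finset.prod_const_one, mul_one, Finset.filter_mem_eq_inter, Finset.univ_inter, hp2]
    show (Fintype.piFinset _).card = _
    rw [Fintype.card_piFinset, Finset.prod_congr rfl fun i _ => hrow i, Finset.prod_ite,
      Finset.prod_const, Finset.prod_const, Finset.filter_mem_eq_inter, Finset.univ_inter, hp1,
      Finset.filter_not, Finset.filter_mem_eq_inter, Finset.univ_inter,
      Finset.card_univ_sdiff, Fintype.card_fin, hp1, ← pow_mul, ← pow_mul, ← pow_add]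
    congr 1
    ring
  set P : Finset (Finset (Fin n) × Finset (Fin n)) :=
    (Finset.powersetCard r Finset.univ) ×ˢ (Finset.powersetCard r Finset.univ) with hP
  refine ⟨((P.card + 1 : ℕ) : ℝ) * 3 ^ (n * r + (n - r) * r), by positivity, fun T hT => ?_⟩
  set S : Set (Matrix (Fin n) (Fin n) ℤ) := {W : Matrix (Fin n) (Fin n) ℤ | (∀ i j, |W i j| ≤ T) ∧
        (W.map (Int.cast : ℤ → ℚ)).rank ≤ r} with hS
  have hex : ∀ W : Matrix (Fin n) (Fin n) ℤ, ∃ p : Finset (Fin n) × Finset (Fin n),
      (W.map (Int.cast : ℤ → ℚ)).rank ≤ r → p.1.card = r ∧ p.2.card = r ∧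
      (∀ i, (fun j => (W i j : ℚ)) ∈
        Submodule.span ℚ ((fun i j => (W i j : ℚ)) '' (p.1 : Set (Fin n)))) ∧
      ∀ u ∈ Submodule.span ℚ ((fun i j => (W i j : ℚ)) '' (p.1 : Set (Fin n))),
        (∀ j ∈ p.2, u j = 0) → u = 0 := by
    intro W
    by_cases h : (W.map (Int.cast : ℤ → ℚ)).rank ≤ r
    · have h2 : Module.finrank ℚ (Submodule.span ℚ (Set.range fun i j => (W i j : ℚ))) ≤ r := by
        rw [Matrix.rank_eq_finrank_span_row] at h
        exact h
      obtain ⟨p, hp⟩ := exists_rows_coords hr (fun i j => (W i j : ℚ)) h2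
      exact ⟨p, fun _ => hp⟩
    · exact ⟨(∅, ∅), fun h' => absurd h' h⟩
  choose q hq using hex
  have hcard : S.ncard ≤ (P.sigma (B T)).card := by
    rw [← Set.ncard_coe_finset]
    refine Set.ncard_le_ncard_of_injOn
      (fun W => (⟨q W, tr (q W) W⟩ : Sigma fun _ : Finset (Fin n) × Finset (Fin n) =>
        Fin n → Fin n → ℤ)) ?_ ?_ (Finset.finite_toSet _)
    · intro W hW
      obtain ⟨h1, h2, -, -⟩ := hq W hW.2
      rw [Finset.mem_coe, Finset.mem_sigma]
      refine ⟨?_, ?_⟩
      · rw [hP, Finset.mem_product, Finset.mem_powersetCard, Finset.mem_powersetCard]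
        exact ⟨⟨Finset.subset_univ _, h1⟩, ⟨Finset.subset_univ _, h2⟩⟩
      · show tr (q W) W ∈ Fintype.piFinset _
        rw [Fintype.mem_piFinset]
        intro i
        rw [Fintype.mem_piFinset]
        intro j
        show (if i ∈ (q W).1 ∨ j ∈ (q W).2 then W i j else 0) ∈ _
        split_ifs
        · rw [Finset.mem_Icc]
          exact abs_le.1 (hW.1 i j)
        · exact Finset.mem_singleton_self _
    · intro W hW W' hW' heq
      simp only [Sigma.mk.injEq, heq_eq_eq] at heq
      obtain ⟨hqq, htr⟩ := heq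
      obtain ⟨-, -, h3, h4⟩ := hq W hW.2
      obtain ⟨-, -, h3', h4'⟩ := hq W' hW'.2
      rw [← hqq] at htr h3' h4'
      have hent : ∀ i j, i ∈ (q W).1 ∨ j ∈ (q W).2 → W i j = W' i j := by
        intro i j hij
        have h5 : (if i ∈ (q W).1 ∨ j ∈ (q W).2 then W i j else 0)
            = if i ∈ (q W).1 ∨ j ∈ (q W).2 then W' i j else 0 := congrFun (congrFun htr i) j
        rwa [if_pos hij, if_pos hij] at h5
      have himg : ((fun i j => (W i j : ℚ)) '' ((q W).1 : Set (Fin n)))
          = ((fun i j => (W' i j : ℚ)) '' ((q W).1 : Set (Fin n))) := by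
        refine Set.image_congr fun i hi => ?_
        funext j
        rw [hent i j (Or.inl hi)]
      rw [← himg] at h3' h4'
      ext i j
      have h6 := h4 _ (Submodule.sub_mem _ (h3 i) (h3' i)) (by
        intro j hj
        rw [Pi.sub_apply, hent i j (Or.inr hj), sub_self])
      have h7 := congrFun h6 j
      rw [Pi.sub_apply, Pi.zero_apply, sub_eq_zero] at h7
      exact_mod_cast h7
  have hsum : (P.sigma (B T)).card = P.card * (2 * T + 1) ^ (n * r + (n - r) * r) := by
    rw [Finset.card_sigma, Finset.sum_congr rfl fun p hp => ?_, Finset.sum_const, smul_eq_mul]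
    rw [hP, Finset.mem_product, Finset.mem_powersetCard, Finset.mem_powersetCard] at hp
    exact hB T p hp.1.2 hp.2.2
  have hT1 : (1 : ℝ) ≤ T := by exact_mod_cast hT
  calc (S.ncard : ℝ) ≤ ((P.sigma (B T)).card : ℝ) := by exact_mod_cast hcard
    _ = P.card * (2 * (T : ℝ) + 1) ^ (n * r + (n - r) * r) := by
        rw [hsum]; push_cast; ring
    _ ≤ ((P.card + 1 : ℕ) : ℝ) * (3 * (T : ℝ)) ^ (n * r + (n - r) * r) := by
        refine mul_le_mul (by push_cast; linarith) (pow_le_pow_left₀ (by positivity) (by linarith) _)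
          (by positivity) (by positivity)
    _ = ((P.card + 1 : ℕ) : ℝ) * 3 ^ (n * r + (n - r) * r) * (T : ℝ) ^ (n * r + (n - r) * r) := by
        rw [mul_pow]; ring

end Pool.Agent.Lib.MP_938ce2_ag_K
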