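import Mathlib
import Pool.Agent.Lib.MP_938ce2_ag_K.KD
import Pool.Agent.Lib.MP_938ce2_ag_K.K3b
import Pool.Agent.Lib.MP_938ce2_ag_K.K3c
import Pool.Agent.Lib.MP_938ce2_ag_K.K3d
import Pool.Agent.Lib.MP_938ce2_ag_K.K3e

/-!
Row K3 (120 lines): the number of singular integral matrices of bounded entries. Uses the rows K3b (`ker_card`),
K3c (`sum_nrm`), K3d (`exists_psi`), K3e (`card_rank_le`).

RECIPE. `det W = 0` gives rank `≤ n - 1` (over ℚ). Rank `≤ n - 2`: `card_rank_le` with `r = n - 2`: at most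
`C T ^ (n ^ 2 - 4)` (`n * (n-2) + 2 * (n-2) = n ^ 2 - 4`). Rank exactly `n - 1`: by `exists_psi` there is
`ψ ≠ 0`, primitive, `nrm ψ ≤ n! * T ^ n`, such that all rows of `W` are in `ker ψ T` and `n - 1` of the rows
are linearly independent. For given `ψ` there are at most `(ker ψ T).ncard ^ n` such `W`, and if there is
one then `nrm ψ * (ker ψ T).ncard ≤ (2 n T + 1) ^ (n - 1)` by `ker_card`. So the number is at most
`∑ ψ, ((2 n T + 1) ^ (n-1) / nrm ψ) ^ n ≤ (3 n T) ^ (n (n-1)) * C (1 + log (n! T ^ n))` by `sum_nrm`.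
Both exponents `n ^ 2 - 4` and `n (n - 1)` are at most `n ^ 2 - min n 4` (truncated subtraction, `n ≥ 2`).
-/

set_option autoImplicit false
set_option linter.unusedSectionVars false

namespace Pool.Agent.Lib.MP_938ce2_ag_K

open Finset

private lemma box_finite (n T : ℕ) :
    ({W : Matrix (Fin n) (Fin n) ℤ | ∀ i j, |W i j| ≤ T}).Finite := by
  refine (Set.finite_Icc (fun _ _ => -(T : ℤ) : Fin n → Fin n → ℤ)
    (fun _ _ => (T : ℤ))).subset ?_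
  intro W hW
  exact ⟨fun i j => (abs_le.1 (hW i j)).1, fun i j => (abs_le.1 (hW i j)).2⟩

private lemma ker_finite {n : ℕ} (ψ : Fin n → ℤ) (T : ℕ) : (ker ψ T).Finite := by
  refine (Set.finite_Icc (fun _ : Fin n => -(T : ℤ)) fun _ => (T : ℤ)).subset ?_
  intro r hr
  exact ⟨fun i => (abs_le.1 (hr.1 i)).1, fun i => (abs_le.1 (hr.1 i)).2⟩

private lemma one_le_nrm {n : ℕ} {ψ : Fin n → ℤ} (h : Finset.univ.gcd ψ = 1) : 1 ≤ nrm ψ := by
  by_contra hcon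
  have h0 : nrm ψ = 0 := by omega
  have h1 : ∀ i, ψ i = 0 := fun i => by
    have := natAbs_le_nrm ψ i
    rw [h0] at this
    exact Int.natAbs_eq_zero.1 (Nat.le_zero.1 this)
  have h2 : Finset.univ.gcd ψ = 0 := Finset.gcd_eq_zero_iff.2 fun i _ => h1 i
  rw [h2] at h
  exact zero_ne_one h

private lemma rank_lt_of_det {n : ℕ} (W : Matrix (Fin n) (Fin n) ℤ) (h : W.det = 0) :
    (W.map (Int.cast : ℤ → ℚ)).rank < n := by
  refine lt_of_le_of_ne (Matrix.rank_le_height _) fun hr => ?_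
  have h1 : LinearIndependent ℚ (W.map (Int.cast : ℤ → ℚ)).row := by
    rw [linearIndependent_iff_card_eq_finrank_span, Fintype.card_fin, Set.finrank,
      ← Matrix.rank_eq_finrank_span_row, hr]
  rw [Matrix.linearIndependent_rows_iff_isUnit, Matrix.isUnit_iff_isUnit_det] at h1
  have h2 : (W.map (Int.cast : ℤ → ℚ)).det = ((W.det : ℤ) : ℚ) := by
    have := RingHom.map_det (Int.castRingHom ℚ) W
    rw [eq_intCast] at this
    rw [this]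
    rfl
  rw [h2, h, Int.cast_zero] at h1
  exact not_isUnit_zero h1

private lemma card_cover {n T : ℕ} (Ψ : Finset (Fin n → ℤ)) (S : Set (Fin n → Fin n → ℤ))
    (hS : ∀ W ∈ S, ∃ ψ ∈ Ψ, ∀ i, W i ∈ ker ψ T) :
    S.ncard ≤ ∑ ψ ∈ Ψ, (ker ψ T).ncard ^ n := by
  classical
  let F : (Fin n → ℤ) → Finset (Fin n → Fin n → ℤ) := fun ψ =>
    Fintype.piFinset fun _ => (ker_finite ψ T).toFinset
  have hsub : S ⊆ ((Ψ.biUnion F : Finset (Fin n → Fin n → ℤ)) : Set (Fin n → Fin n → ℤ)) := by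
    intro W hW
    obtain ⟨ψ, h1, h2⟩ := hS W hW
    rw [Finset.mem_coe, Finset.mem_biUnion]
    refine ⟨ψ, h1, ?_⟩
    rw [Fintype.mem_piFinset]
    intro i
    exact (ker_finite ψ T).mem_toFinset.2 (h2 i)
  refine (Set.ncard_le_ncard hsub (Finset.finite_toSet _)).trans ?_
  rw [Set.ncard_coe_finset]
  refine Finset.card_biUnion_le.trans (Finset.sum_le_sum fun ψ _ => le_of_eq ?_)
  rw [Fintype.card_piFinset, Finset.prod_const, Finset.card_univ, Fintype.card_fin,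
    Set.ncard_eq_toFinset_card _ (ker_finite ψ T)]

private lemma card_corank_one (m : ℕ) : ∃ C : ℝ, 0 < C ∧ ∀ T : ℕ, 1 ≤ T →
    (({W : Matrix (Fin (m + 1)) (Fin (m + 1)) ℤ | (∀ i j, |W i j| ≤ T) ∧
        (W.map (Int.cast : ℤ → ℚ)).rank = m}).ncard : ℝ)
      ≤ C * (T : ℝ) ^ ((m + 1) * m) * (1 + Real.log T) := by
  classical
  obtain ⟨C, hC, hsum⟩ := sum_nrm (m + 1) (by omega)
  have hlf : 0 ≤ Real.log ((m + 1).factorial : ℝ) :=
    Real.log_nonneg (by exact_mod_cast Nat.one_le_iff_ne_zero.2 (Nat.factorial_ne_zero _))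
  refine ⟨(3 * ((m : ℝ) + 1)) ^ ((m + 1) * m) * C *
    (1 + Real.log ((m + 1).factorial : ℝ) + ((m : ℝ) + 1)), by positivity, ?_⟩
  intro T hT
  have hT1 : (1 : ℝ) ≤ T := by exact_mod_cast hT
  have hlT : 0 ≤ Real.log (T : ℝ) := Real.log_nonneg hT1
  set B : ℕ := (m + 1).factorial * T ^ (m + 1) with hB
  have hB1 : 1 ≤ B := Nat.one_le_iff_ne_zero.2 (mul_ne_zero (Nat.factorial_ne_zero _)
    (pow_ne_zero _ (by omega)))
  set Ψ : Finset (Fin (m + 1) → ℤ) := (Finset.Icc (fun _ => -(B : ℤ)) (fun _ => (B : ℤ))).filter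
    fun ψ => Finset.univ.gcd ψ = 1 ∧ nrm ψ ≤ B ∧ ∃ v : Fin m → Fin (m + 1) → ℤ,
      (∀ i, v i ∈ ker ψ T) ∧
      LinearIndependent ℚ (fun (i : Fin m) (k : Fin (m + 1)) => (v i k : ℚ)) with hΨ
  have hcard : ({W : Matrix (Fin (m + 1)) (Fin (m + 1)) ℤ | (∀ i j, |W i j| ≤ T) ∧
      (W.map (Int.cast : ℤ → ℚ)).rank = m}).ncard ≤ ∑ ψ ∈ Ψ, (ker ψ T).ncard ^ (m + 1) := by
    refine card_cover Ψ _ ?_
    rintro W ⟨hW, hr⟩
    obtain ⟨ψ, h1, h2, h3, e, he⟩ := exists_psi m T hT W hW hr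
    refine ⟨ψ, ?_, h3⟩
    rw [hΨ, Finset.mem_filter, Finset.mem_Icc]
    have h4 : ∀ i, |ψ i| ≤ (B : ℤ) := fun i =>
      (abs_le_nrm ψ i).trans (by exact_mod_cast h2)
    exact ⟨⟨fun i => (abs_le.1 (h4 i)).1, fun i => (abs_le.1 (h4 i)).2⟩, h1, h2,
      fun i => W (e i), fun i => h3 (e i), he⟩
  have hterm : ∀ ψ ∈ Ψ, (((ker ψ T).ncard : ℝ)) ^ (m + 1)
      ≤ ((2 * (((m : ℝ) + 1) * T) + 1) ^ m) ^ (m + 1) * (1 / (nrm ψ : ℝ)) ^ (m + 1) := by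
    intro ψ hψ
    obtain ⟨-, h1, h2, v, hv, hli⟩ := Finset.mem_filter.1 hψ
    have h3 := ker_card m T ψ h1 v hv hli
    have h4 : (0 : ℝ) < nrm ψ := by exact_mod_cast one_le_nrm h1
    have h5 : (nrm ψ : ℝ) * ((ker ψ T).ncard : ℝ) ≤ (2 * (((m : ℝ) + 1) * T) + 1) ^ m := by
      exact_mod_cast h3
    rw [← mul_pow]
    refine pow_le_pow_left₀ (Nat.cast_nonneg _) ?_ _
    rw [mul_one_div, le_div_iff₀ h4, mul_comm]
    exact h5
  have hsum' := hsum B hB1 Ψ fun ψ hψ => by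
    obtain ⟨-, h1, h2, -⟩ := Finset.mem_filter.1 hψ
    exact ⟨one_le_nrm h1, h2⟩
  have hM : (2 * (((m : ℝ) + 1) * T) + 1) ≤ 3 * ((m : ℝ) + 1) * T := by
    have : (0 : ℝ) ≤ m := Nat.cast_nonneg m
    nlinarith
  have hM' : ((2 * (((m : ℝ) + 1) * T) + 1) ^ m) ^ (m + 1)
      ≤ (3 * ((m : ℝ) + 1)) ^ ((m + 1) * m) * (T : ℝ) ^ ((m + 1) * m) := by
    rw [← pow_mul, ← mul_pow, mul_comm m (m + 1)]
    exact pow_le_pow_left₀ (by positivity) hM _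
  have hlog : 1 + Real.log (B : ℝ)
      ≤ (1 + Real.log ((m + 1).factorial : ℝ) + ((m : ℝ) + 1)) * (1 + Real.log T) := by
    have h1 : Real.log (B : ℝ) = Real.log ((m + 1).factorial : ℝ) + ((m : ℝ) + 1) * Real.log T := by
      rw [hB, Nat.cast_mul, Nat.cast_pow, Real.log_mul (by positivity) (by positivity),
        Real.log_pow]
      push_cast
      ring
    rw [h1]
    have h2 : 0 ≤ Real.log ((m + 1).factorial : ℝ) * Real.log T := mul_nonneg hlf hlT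
    have h3 : (0 : ℝ) ≤ m := Nat.cast_nonneg m
    nlinarith
  have hB0 : 0 ≤ 1 + Real.log (B : ℝ) := by
    have : 0 ≤ Real.log (B : ℝ) := Real.log_nonneg (by exact_mod_cast hB1)
    linarith
  calc (({W : Matrix (Fin (m + 1)) (Fin (m + 1)) ℤ | (∀ i j, |W i j| ≤ T) ∧
        (W.map (Int.cast : ℤ → ℚ)).rank = m}).ncard : ℝ)
      ≤ ((∑ ψ ∈ Ψ, (ker ψ T).ncard ^ (m + 1) : ℕ) : ℝ) := by exact_mod_cast hcard
    _ = ∑ ψ ∈ Ψ, (((ker ψ T).ncard : ℝ)) ^ (m + 1) := by push_cast; rfl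
    _ ≤ ∑ ψ ∈ Ψ, ((2 * (((m : ℝ) + 1) * T) + 1) ^ m) ^ (m + 1) * (1 / (nrm ψ : ℝ)) ^ (m + 1) :=
        Finset.sum_le_sum hterm
    _ = ((2 * (((m : ℝ) + 1) * T) + 1) ^ m) ^ (m + 1) *
        ∑ ψ ∈ Ψ, (1 / (nrm ψ : ℝ)) ^ (m + 1) := by rw [Finset.mul_sum]
    _ ≤ ((3 * ((m : ℝ) + 1)) ^ ((m + 1) * m) * (T : ℝ) ^ ((m + 1) * m)) *
        (C * (1 + Real.log B)) :=
        mul_le_mul hM' hsum' (Finset.sum_nonneg fun ψ _ => by positivity) (by positivity)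
    _ ≤ ((3 * ((m : ℝ) + 1)) ^ ((m + 1) * m) * (T : ℝ) ^ ((m + 1) * m)) *
        (C * ((1 + Real.log ((m + 1).factorial : ℝ) + ((m : ℝ) + 1)) * (1 + Real.log T))) := by
        refine mul_le_mul_of_nonneg_left ?_ (by positivity)
        exact mul_le_mul_of_nonneg_left hlog hC.le
    _ = _ := by ring

theorem card_sing (n : ℕ) (hn : 2 ≤ n) : ∃ C : ℝ, 0 < C ∧ ∀ T : ℕ, 1 ≤ T →
    (({W : Matrix (Fin n) (Fin n) ℤ | (∀ i j, |W i j| ≤ T) ∧ W.det = 0}).ncard : ℝ)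
      ≤ C * (T : ℝ) ^ (n ^ 2 - min n 4) * (1 + Real.log T) := by
  classical
  obtain ⟨m, rfl⟩ : ∃ m, n = m + 1 := ⟨n - 1, by omega⟩
  obtain ⟨C1, hC1, h1⟩ := card_rank_le (m + 1) (m - 1) (by omega)
  obtain ⟨C2, hC2, h2⟩ := card_corank_one m
  refine ⟨C1 + C2, by positivity, ?_⟩
  intro T hT
  have hT1 : (1 : ℝ) ≤ T := by exact_mod_cast hT
  have hlT : 0 ≤ Real.log (T : ℝ) := Real.log_nonneg hT1
  have e1 : (m + 1) * (m - 1) + (m + 1 - (m - 1)) * (m - 1) ≤ (m + 1) ^ 2 - min (m + 1) 4 := by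
    obtain ⟨k, rfl⟩ : ∃ k, m = k + 1 := ⟨m - 1, by omega⟩
    have h3 : k + 1 + 1 - (k + 1 - 1) = 2 := by omega
    rw [h3, Nat.add_sub_cancel]
    have h4 : (k + 1 + 1) ^ 2 = (k + 1 + 1) * k + 2 * k + 4 := by ring
    rw [h4]
    have h5 : min (k + 1 + 1) 4 ≤ 4 := min_le_right _ _
    omega
  have e2 : (m + 1) * m ≤ (m + 1) ^ 2 - min (m + 1) 4 := by
    have h4 : (m + 1) ^ 2 = (m + 1) * m + (m + 1) := by ring
    rw [h4]
    have h5 : min (m + 1) 4 ≤ m + 1 := min_le_left _ _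
    omega
  have hsub : {W : Matrix (Fin (m + 1)) (Fin (m + 1)) ℤ | (∀ i j, |W i j| ≤ T) ∧ W.det = 0} ⊆
      {W : Matrix (Fin (m + 1)) (Fin (m + 1)) ℤ | (∀ i j, |W i j| ≤ T) ∧
        (W.map (Int.cast : ℤ → ℚ)).rank ≤ m - 1} ∪
      {W : Matrix (Fin (m + 1)) (Fin (m + 1)) ℤ | (∀ i j, |W i j| ≤ T) ∧
        (W.map (Int.cast : ℤ → ℚ)).rank = m} := by
    rintro W ⟨hW, hd⟩
    have h3 := rank_lt_of_det W hd
    by_cases h4 : (W.map (Int.cast : ℤ → ℚ)).rank = m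
    · exact Or.inr ⟨hW, h4⟩
    · exact Or.inl ⟨hW, by omega⟩
  have hfin : ({W : Matrix (Fin (m + 1)) (Fin (m + 1)) ℤ | (∀ i j, |W i j| ≤ T) ∧
        (W.map (Int.cast : ℤ → ℚ)).rank ≤ m - 1} ∪
      {W : Matrix (Fin (m + 1)) (Fin (m + 1)) ℤ | (∀ i j, |W i j| ≤ T) ∧
        (W.map (Int.cast : ℤ → ℚ)).rank = m}).Finite :=
    (box_finite (m + 1) T).subset (by
      rintro W (hW | hW)
      · exact hW.1
      · exact hW.1)
  have hc := (Set.ncard_le_ncard hsub hfin).trans (Set.ncard_union_le _ _)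
  have h3 := h1 T hT
  have h4 := h2 T hT
  have h5 : (T : ℝ) ^ ((m + 1) * (m - 1) + (m + 1 - (m - 1)) * (m - 1))
      ≤ (T : ℝ) ^ ((m + 1) ^ 2 - min (m + 1) 4) := pow_le_pow_right₀ hT1 e1
  have h6 : (T : ℝ) ^ ((m + 1) * m) ≤ (T : ℝ) ^ ((m + 1) ^ 2 - min (m + 1) 4) :=
    pow_le_pow_right₀ hT1 e2
  have hP : (0 : ℝ) ≤ (T : ℝ) ^ ((m + 1) ^ 2 - min (m + 1) 4) := by positivity
  have h7 : C1 * (T : ℝ) ^ ((m + 1) * (m - 1) + (m + 1 - (m - 1)) * (m - 1))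
      ≤ C1 * (T : ℝ) ^ ((m + 1) ^ 2 - min (m + 1) 4) * (1 + Real.log T) := by
    refine (mul_le_mul_of_nonneg_left h5 hC1.le).trans ?_
    refine le_mul_of_one_le_right (mul_nonneg hC1.le hP) ?_
    linarith
  have h8 : C2 * (T : ℝ) ^ ((m + 1) * m) * (1 + Real.log T)
      ≤ C2 * (T : ℝ) ^ ((m + 1) ^ 2 - min (m + 1) 4) * (1 + Real.log T) :=
    mul_le_mul_of_nonneg_right (mul_le_mul_of_nonneg_left h6 hC2.le) (by linarith)
  have h9 : (({W : Matrix (Fin (m + 1)) (Fin (m + 1)) ℤ | (∀ i j, |W i j| ≤ T) ∧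
      W.det = 0}).ncard : ℝ) ≤
      (({W : Matrix (Fin (m + 1)) (Fin (m + 1)) ℤ | (∀ i j, |W i j| ≤ T) ∧
        (W.map (Int.cast : ℤ → ℚ)).rank ≤ m - 1}).ncard : ℝ) +
      (({W : Matrix (Fin (m + 1)) (Fin (m + 1)) ℤ | (∀ i j, |W i j| ≤ T) ∧
        (W.map (Int.cast : ℤ → ℚ)).rank = m}).ncard : ℝ) := by exact_mod_cast hc
  calc (({W : Matrix (Fin (m + 1)) (Fin (m + 1)) ℤ | (∀ i j, |W i j| ≤ T) ∧
      W.det = 0}).ncard : ℝ) ≤ _ := h9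
    _ ≤ C1 * (T : ℝ) ^ ((m + 1) ^ 2 - min (m + 1) 4) * (1 + Real.log T) +
        C2 * (T : ℝ) ^ ((m + 1) ^ 2 - min (m + 1) 4) * (1 + Real.log T) :=
        add_le_add (h3.trans h7) (h4.trans h8)
    _ = (C1 + C2) * (T : ℝ) ^ ((m + 1) ^ 2 - min (m + 1) 4) * (1 + Real.log T) := by ring

end Pool.Agent.Lib.MP_938ce2_ag_K
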