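import Mathlib
import Pool.Agent.Lib.MP_938ce2_ag_K.KD
import Pool.Agent.Lib.MP_938ce2_ag_K.K3

/-!
Row K2 (150 lines): integral points `w` of a box for which the matrix of the `n ^ 2` independent linear
forms `w ↦ ∑ y, w y * h i j y` is singular. Uses row K3 (`card_sing`).

RECIPE. The `n ^ 2` functions `h i j` are linearly independent on `Y`, so there is an injective
`e : Fin n × Fin n → Y` such that the square matrix `(h p (e q))_{p, q}` has nonzero determinant (row rank
= column rank; e.g. `exists_linearIndependent'` applied to the columns, or h67/Code.lean `exists_info`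
applied to the span of the `h p`: an information set). Let `B w` be the matrix. The map
`w ↦ (B w, w restricted to the complement of the image of e)` is injective on `Y → ℤ`: the difference of
two points with the same value vanishes outside the image of `e` and is killed by the nonsingular
matrix. `|B w i j| ≤ d * R * H`. So the number is at most `(number of singular matrices with entries
≤ d * R * H) * (2 R + 1) ^ (d - n ^ 2)`; use `card_sing` with `T = d * R * H` (if `d * H = 0` then the
functions `h i j` are zero, contradiction), `1 + log (d R H) ≤ (1 + log (d H)) (1 + log R)` and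
`2 R + 1 ≤ 3 R`. Finally `T ^ (n ^ 2 - min n 4) * R ^ (d - n ^ 2)` is at most a constant times
`R ^ (d - min n 4)`.
-/

set_option autoImplicit false
set_option linter.unusedSectionVars false

namespace Pool.Agent.Lib.MP_938ce2_ag_K

open Finset

/-- existence of an information set -/
private lemma info {P Y : Type} [Fintype P] [Fintype Y] (h : P → Y → ℚ)
    (hh : LinearIndependent ℚ h) : ∃ (κ : Type) (_ : Fintype κ) (a : κ → Y), Function.Injective a ∧
      Fintype.card κ = Fintype.card P ∧ LinearIndependent ℚ (fun (i : κ) (p : P) => h p (a i)) := by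
  classical
  obtain ⟨κ, a, ha, hsp, hli⟩ := exists_linearIndependent' ℚ (fun (y : Y) (p : P) => h p y)
  have hfin : Finite κ := Finite.of_injective a ha
  let _ : Fintype κ := Fintype.ofFinite κ
  refine ⟨κ, inferInstance, a, ha, ?_, hli⟩
  have h1 := finrank_span_eq_card hli
  rw [hsp] at h1
  have h2 : (Matrix.of h).rank = Fintype.card P := LinearIndependent.rank_matrix (M := Matrix.of h) hh
  rw [Matrix.rank_eq_finrank_span_cols] at h2
  rw [← h1, ← h2]
  rfl

/-- the box of integral vectors is finite, with the obvious number of elements -/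
private lemma box (S : Type) [Fintype S] (R : ℕ) : {v : S → ℤ | ∀ y, |v y| ≤ R}.Finite ∧
    {v : S → ℤ | ∀ y, |v y| ≤ R}.ncard = (2 * R + 1) ^ Fintype.card S := by
  classical
  have e : {v : S → ℤ | ∀ y, |v y| ≤ R}
      = ((Fintype.piFinset fun _ : S => Finset.Icc (-(R : ℤ)) R : Finset (S → ℤ)) : Set (S → ℤ)) := by
    ext v
    simp only [Set.mem_ofPred_eq, Finset.mem_coe, Fintype.mem_piFinset, Finset.mem_Icc, abs_le]
  rw [e]
  refine ⟨Finset.finite_toSet _, ?_⟩
  rw [Set.ncard_coe_finset, Fintype.card_piFinset, Finset.prod_const, Int.card_Icc, Finset.card_univ]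
  congr 1
  omega

private lemma matbox (n T : ℕ) : {W : Matrix (Fin n) (Fin n) ℤ | (∀ i j, |W i j| ≤ T) ∧
    W.det = 0}.Finite := by
  have h := (box (Fin n × Fin n) T).1
  refine Set.Finite.subset (h.image fun v => (Matrix.of fun i j => v (i, j))) ?_
  rintro W ⟨hW, -⟩
  exact ⟨fun p => W p.1 p.2, fun p => hW p.1 p.2, rfl⟩

theorem count_pull (n d H : ℕ) (hn : 2 ≤ n) : ∃ A : ℝ, 0 < A ∧ ∀ (Y : Type) [Fintype Y]
    (h : Fin n → Fin n → Y → ℤ), Fintype.card Y = d → (∀ i j y, |h i j y| ≤ H) →
    LinearIndependent ℚ (fun (p : Fin n × Fin n) (y : Y) => (h p.1 p.2 y : ℚ)) →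
    ∀ R : ℕ, 1 ≤ R →
      (({w : Y → ℤ | (∀ y, |w y| ≤ R) ∧
        (Matrix.of fun i j => ∑ y, w y * h i j y).det = 0}).ncard : ℝ)
        ≤ A * (R : ℝ) ^ (d - min n 4) * (1 + Real.log R) := by
  classical
  obtain ⟨C, hC0, hC⟩ := card_sing n hn
  set G : ℕ := d * H + 1 with hG
  have hG1 : (1 : ℝ) ≤ G := by
    rw [hG]
    push_cast
    have : (0 : ℝ) ≤ d * H := by positivity
    linarith
  have hlG : 0 ≤ Real.log G := Real.log_nonneg hG1
  refine ⟨C * (G : ℝ) ^ (n ^ 2 - min n 4) * (1 + Real.log G) * 3 ^ (d - n ^ 2), by positivity, ?_⟩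
  intro Y _ h hY hH hli R hR
  have hR1 : (1 : ℝ) ≤ R := by exact_mod_cast hR
  have hlR : 0 ≤ Real.log R := Real.log_nonneg hR1
  obtain ⟨κ, _, a, ha, hκ, hind⟩ := info _ hli
  have hκ2 : Fintype.card κ = n ^ 2 := by
    rw [hκ, Fintype.card_prod, Fintype.card_fin, sq]
  let S : Type := {y : Y // ¬ y ∈ Set.range a}
  have hS : Fintype.card S = d - n ^ 2 := by
    have h1 : Fintype.card S = Fintype.card Y - Fintype.card {y : Y // y ∈ Set.range a} :=
      Fintype.card_subtype_compl _
    have h2 : Fintype.card {y : Y // y ∈ Set.range a} = Fintype.card κ := Set.card_range_of_injective ha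
    rw [h1, h2, hY, hκ2]
  have hd : n ^ 2 ≤ d := by
    rw [← hκ2, ← hY]
    exact Fintype.card_le_of_injective a ha
  set T : ℕ := G * R with hT
  have hT1 : 1 ≤ T := Nat.mul_pos (by omega) hR
  -- the counting
  have hcount : ({w : Y → ℤ | (∀ y, |w y| ≤ R) ∧
      (Matrix.of fun i j => ∑ y, w y * h i j y).det = 0}).ncard
      ≤ ({W : Matrix (Fin n) (Fin n) ℤ | (∀ i j, |W i j| ≤ T) ∧ W.det = 0}).ncard
        * (2 * R + 1) ^ (d - n ^ 2) := by
    rw [← hS, ← (box S R).2, ← Set.ncard_prod]
    refine Set.ncard_le_ncard_of_injOn (fun w => ((Matrix.of fun i j => ∑ y, w y * h i j y),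
      fun y : S => w y.1)) ?_ ?_ ((matbox n T).prod (box S R).1)
    · rintro w ⟨hw1, hw2⟩
      refine ⟨⟨fun i j => ?_, hw2⟩, fun y => hw1 y.1⟩
      change |∑ y, w y * h i j y| ≤ T
      calc |∑ y, w y * h i j y| ≤ ∑ y, |w y * h i j y| := Finset.abs_sum_le_sum_abs _ _
        _ ≤ ∑ y : Y, (R : ℤ) * H := by
            refine Finset.sum_le_sum fun y _ => ?_
            rw [abs_mul]
            exact mul_le_mul (hw1 y) (hH i j y) (abs_nonneg _) (by positivity)
        _ = (d : ℤ) * (R * H) := by
            rw [Finset.sum_const, Finset.card_univ, hY, nsmul_eq_mul]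
        _ ≤ T := by
            rw [hT, hG]
            push_cast
            nlinarith
    · rintro w ⟨hw1, -⟩ w' ⟨hw1', -⟩ hww
      have e1 : ∀ i j, ∑ y, w y * h i j y = ∑ y, w' y * h i j y := by
        intro i j
        have := congrArg (fun q => q.1 i j) hww
        simpa using this
      have e2 : ∀ y, y ∉ Set.range a → w y = w' y := by
        intro y hy
        have := congrArg (fun q => q.2 (⟨y, hy⟩ : S)) hww
        simpa using this
      have e3 : ∀ p : Fin n × Fin n, ∑ i : κ, ((w (a i) - w' (a i) : ℤ) : ℚ) * (h p.1 p.2 (a i) : ℚ) = 0 := by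
        intro p
        have e4 : ∑ y, (w y - w' y) * h p.1 p.2 y = 0 := by
          simp_rw [sub_mul]
          rw [Finset.sum_sub_distrib, e1 p.1 p.2, sub_self]
        have e5 : ∑ i : κ, (w (a i) - w' (a i)) * h p.1 p.2 (a i)
            = ∑ y, (w y - w' y) * h p.1 p.2 y := by
          rw [← Finset.sum_image (s := Finset.univ) (g := a)
            (f := fun y => (w y - w' y) * h p.1 p.2 y) (fun i _ j _ hij => ha hij)]
          refine Finset.sum_subset (Finset.subset_univ _) fun y _ hy => ?_
          have hy2 : y ∉ Set.range a := by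
            rintro ⟨i, hi⟩
            exact hy (Finset.mem_image.mpr ⟨i, Finset.mem_univ _, hi⟩)
          rw [e2 y hy2, sub_self, zero_mul]
        rw [e4] at e5
        exact_mod_cast e5
      have e6 := Fintype.linearIndependent_iff.mp hind (fun i => ((w (a i) - w' (a i) : ℤ) : ℚ)) (by
        funext p
        rw [Finset.sum_apply]
        simpa using e3 p)
      funext y
      by_cases hy : y ∈ Set.range a
      · obtain ⟨i, rfl⟩ := hy
        have := e6 i
        have h7 : (w (a i) - w' (a i) : ℤ) = 0 := by exact_mod_cast this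
        linarith
      · exact e2 y hy
  have hcR : (({w : Y → ℤ | (∀ y, |w y| ≤ R) ∧
      (Matrix.of fun i j => ∑ y, w y * h i j y).det = 0}).ncard : ℝ)
      ≤ (C * (T : ℝ) ^ (n ^ 2 - min n 4) * (1 + Real.log T)) * (3 * R) ^ (d - n ^ 2) := by
    calc (({w : Y → ℤ | (∀ y, |w y| ≤ R) ∧
          (Matrix.of fun i j => ∑ y, w y * h i j y).det = 0}).ncard : ℝ)
        ≤ ((({W : Matrix (Fin n) (Fin n) ℤ | (∀ i j, |W i j| ≤ T) ∧ W.det = 0}).ncard
          * (2 * R + 1) ^ (d - n ^ 2) : ℕ) : ℝ) := by exact_mod_cast hcount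
      _ = (({W : Matrix (Fin n) (Fin n) ℤ | (∀ i j, |W i j| ≤ T) ∧ W.det = 0}).ncard : ℝ)
          * (2 * R + 1) ^ (d - n ^ 2) := by push_cast; rfl
      _ ≤ _ := by
          refine mul_le_mul (hC T hT1) ?_ (by positivity) ?_
          · exact pow_le_pow_left₀ (by positivity) (by linarith) _
          · exact le_trans (Nat.cast_nonneg _) (hC T hT1)
  refine hcR.trans ?_
  have hTe : (T : ℝ) = G * R := by rw [hT]; push_cast; rfl
  have hlog : 1 + Real.log T ≤ (1 + Real.log G) * (1 + Real.log R) := by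
    rw [hTe, Real.log_mul (by positivity) (by positivity)]
    nlinarith [mul_nonneg hlG hlR]
  have hexp : (R : ℝ) ^ (n ^ 2 - min n 4) * (R : ℝ) ^ (d - n ^ 2) = (R : ℝ) ^ (d - min n 4) := by
    rw [← pow_add]
    congr 1
    have h1 : min n 4 ≤ n := min_le_left _ _
    have h2 : n ≤ n ^ 2 := by nlinarith
    omega
  calc (C * (T : ℝ) ^ (n ^ 2 - min n 4) * (1 + Real.log T)) * (3 * R) ^ (d - n ^ 2)
      ≤ (C * (T : ℝ) ^ (n ^ 2 - min n 4) * ((1 + Real.log G) * (1 + Real.log R)))
          * (3 * R) ^ (d - n ^ 2) := by gcongr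
    _ = C * (G : ℝ) ^ (n ^ 2 - min n 4) * (1 + Real.log G) * 3 ^ (d - n ^ 2)
          * ((R : ℝ) ^ (n ^ 2 - min n 4) * (R : ℝ) ^ (d - n ^ 2)) * (1 + Real.log R) := by
        rw [hTe, mul_pow, mul_pow]
        ring
    _ = _ := by rw [hexp]

end Pool.Agent.Lib.MP_938ce2_ag_K
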