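import Mathlib
import Pool.Agent.Lib.MP_938ce2_ag_K.KD
import Pool.Agent.Lib.MP_938ce2_ag_K.K1

/-!
Row K4 (150 lines): the probability of a set of few integral points. Uses row K1 (`pf_le`).

RECIPE. Let `C₁` be the constant of `pf_le`. For `w : Y → ℤ` let `k` be the largest natural number with
`k √f ≤ max |w y|` (`k = ⌊max |w y| / √f⌋₊`; `d = 0` is a trivial case). Then
`∏ pf f (w y) ≤ (C₁ / √f) ^ d * exp (-(∑ (w y)^2) / (16 f)) ≤ (C₁ / √f) ^ d * exp (-k ^ 2 / 16)`, and the number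
of the `w` with `S w` and given `k` is at most `A R ^ a (1 + log R)` with `R = ⌈(k + 1) √f⌉₊ ≤ 2 (k + 1) √f`,
which is at most `A 2 ^ a (k + 1) ^ a √f ^ a * 2 (k + 2) (1 + log f)`. Sum over `k` (finitely many values occur
in the finite set `V`; bound the partial sums by the convergent series
`∑ (k + 2) ^ (a + 1) exp (-k ^ 2 / 16)`, e.g. `exp (-k ^ 2 / 16) ≤ C k ^ (-(a + 3))` or `summable_pow_mul_exp...`).
-/

set_option autoImplicit false
set_option linter.unusedSectionVars false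

namespace Pool.Agent.Lib.MP_938ce2_ag_K

open Finset

private def k4mx {Y : Type} [Fintype Y] (w : Y → ℤ) : ℕ := Finset.univ.sup fun y => (w y).natAbs

private lemma k4_abs_le {Y : Type} [Fintype Y] (w : Y → ℤ) (y : Y) : |w y| ≤ (k4mx w : ℤ) := by
  have h : (w y).natAbs ≤ k4mx w :=
    Finset.le_sup (f := fun y => (w y).natAbs) (Finset.mem_univ y)
  rw [← Int.natCast_natAbs]
  exact_mod_cast h

private lemma k4_sum {Y : Type} [Fintype Y] (w : Y → ℤ) :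
    (k4mx w : ℝ) ^ 2 ≤ ∑ y, (w y : ℝ) ^ 2 := by
  rcases isEmpty_or_nonempty Y with h | h
  · have : k4mx w = 0 := by
      unfold k4mx
      rw [Finset.univ_eq_empty, Finset.sup_empty]
      rfl
    rw [this]
    simp
  · obtain ⟨y, -, hy⟩ := Finset.exists_mem_eq_sup (Finset.univ : Finset Y) Finset.univ_nonempty
      (fun y => (w y).natAbs)
    have h1 : (k4mx w : ℝ) ^ 2 = (w y : ℝ) ^ 2 := by
      have h2 : k4mx w = (w y).natAbs := hy
      rw [h2, ← sq_abs (w y : ℝ), ← Int.cast_abs, ← Int.natCast_natAbs]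
      norm_cast
    rw [h1]
    exact Finset.single_le_sum (f := fun y => (w y : ℝ) ^ 2) (fun _ _ => sq_nonneg _)
      (Finset.mem_univ y)

private lemma k4_prod {C₁ : ℝ} {f : ℕ} (hf : 1 ≤ f)
    (h : ∀ v : ℤ, pf f v ≤ C₁ / √f * Real.exp (-((v : ℝ) ^ 2 / (16 * f))))
    {Y : Type} [Fintype Y] (w : Y → ℤ) (hC₁ : 0 < C₁) :
    ∏ y, pf f (w y) ≤ (C₁ / √f) ^ Fintype.card Y * Real.exp (-((k4mx w : ℝ) ^ 2 / (16 * f))) := by
  have hf0 : (0 : ℝ) < f := by exact_mod_cast hf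
  calc ∏ y, pf f (w y) ≤ ∏ y, (C₁ / √f * Real.exp (-((w y : ℝ) ^ 2 / (16 * f)))) :=
        Finset.prod_le_prod (fun _ _ => pf_nonneg _ _) fun y _ => h (w y)
    _ = (C₁ / √f) ^ Fintype.card Y * Real.exp (∑ y, -((w y : ℝ) ^ 2 / (16 * f))) := by
        rw [Finset.prod_mul_distrib, Finset.prod_const, Finset.card_univ, Real.exp_sum]
    _ ≤ (C₁ / √f) ^ Fintype.card Y * Real.exp (-((k4mx w : ℝ) ^ 2 / (16 * f))) := by
        apply mul_le_mul_of_nonneg_left _ (by positivity)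
        apply Real.exp_le_exp.2
        rw [Finset.sum_neg_distrib, ← Finset.sum_div]
        apply neg_le_neg
        exact div_le_div_of_nonneg_right (k4_sum w) (by positivity)

private noncomputable def k4g (a k : ℕ) : ℝ :=
  (2 * ((k : ℝ) + 1)) ^ (a + 1) * Real.exp (-((k : ℝ) ^ 2 / 16))

private lemma k4g_nonneg (a k : ℕ) : 0 ≤ k4g a k := by
  unfold k4g
  positivity

private lemma k4g_summable (a : ℕ) : Summable (k4g a) := by
  have h1 := Real.summable_pow_mul_exp_neg_nat_mul (a + 1) (show (0 : ℝ) < 1 / 16 by norm_num)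
  have h2 := ((summable_nat_add_iff 1).2 h1).mul_left (2 ^ (a + 1) * Real.exp (1 / 16))
  refine Summable.of_nonneg_of_le (k4g_nonneg a) (fun k => ?_) h2
  have h3 : -((k : ℝ) ^ 2 / 16) ≤ 1 / 16 + -(1 / 16) * ((k + 1 : ℕ) : ℝ) := by
    push_cast
    have h4 : (k : ℝ) ≤ (k : ℝ) ^ 2 := by
      rcases Nat.eq_zero_or_pos k with h | h
      · rw [h]; norm_num
      · have : (1 : ℝ) ≤ k := by exact_mod_cast h
        nlinarith
    linarith
  have h5 := Real.exp_le_exp.2 h3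
  rw [Real.exp_add] at h5
  unfold k4g
  calc (2 * ((k : ℝ) + 1)) ^ (a + 1) * Real.exp (-((k : ℝ) ^ 2 / 16))
      ≤ (2 * ((k : ℝ) + 1)) ^ (a + 1)
          * (Real.exp (1 / 16) * Real.exp (-(1 / 16) * ((k + 1 : ℕ) : ℝ))) := by gcongr
    _ = 2 ^ (a + 1) * Real.exp (1 / 16)
          * (((k + 1 : ℕ) : ℝ) ^ (a + 1) * Real.exp (-(1 / 16) * ((k + 1 : ℕ) : ℝ))) := by
        rw [mul_pow]
        push_cast
        ring

/-- the number of the points in a shell -/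
private lemma k4_count {a : ℕ} {A : ℝ} (hA : 0 ≤ A) {Y : Type} [Fintype Y] {S : (Y → ℤ) → Prop}
    (hS : ∀ R : ℕ, 1 ≤ R → (({w : Y → ℤ | (∀ y, |w y| ≤ R) ∧ S w}).ncard : ℝ)
      ≤ A * (R : ℝ) ^ a * (1 + Real.log R))
    {f : ℕ} (hf : 1 ≤ f) (V : Finset (Y → ℤ)) (hV : ∀ w ∈ V, S w) (k : ℕ)
    (hk : ∀ w ∈ V, (k4mx w : ℝ) ≤ ((k : ℝ) + 1) * √f) :
    (V.card : ℝ) ≤ A * √(f : ℝ) ^ a * (1 + Real.log f) * (2 * ((k : ℝ) + 1)) ^ (a + 1) := by
  have hf1 : (1 : ℝ) ≤ f := by exact_mod_cast hf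
  have hs1 : 1 ≤ √(f : ℝ) := Real.one_le_sqrt.2 hf1
  have hk1 : (1 : ℝ) ≤ (k : ℝ) + 1 := by
    have : (0 : ℝ) ≤ k := Nat.cast_nonneg k
    linarith
  have hks : 1 ≤ ((k : ℝ) + 1) * √f := one_le_mul_of_one_le_of_one_le hk1 hs1
  obtain ⟨R, hR⟩ : ∃ R : ℕ, R = ⌈((k : ℝ) + 1) * √f⌉₊ := ⟨_, rfl⟩
  have hR1 : ((k : ℝ) + 1) * √f ≤ R := by
    rw [hR]
    exact Nat.le_ceil _
  have hR2 : (R : ℝ) ≤ 2 * ((k : ℝ) + 1) * √f := by
    have h := (Nat.ceil_lt_add_one (show 0 ≤ ((k : ℝ) + 1) * √f by positivity)).le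
    rw [← hR] at h
    linarith
  have hR3 : (1 : ℝ) ≤ R := hks.trans hR1
  have hR4 : 1 ≤ R := by exact_mod_cast hR3
  have hfin : ({w : Y → ℤ | (∀ y, |w y| ≤ R) ∧ S w}).Finite := by
    classical
    refine Set.Finite.subset (Finset.finite_toSet
      (Fintype.piFinset fun _ : Y => Finset.Icc (-(R : ℤ)) R)) ?_
    rintro w ⟨hw, _⟩
    rw [Finset.mem_coe, Fintype.mem_piFinset]
    intro y
    exact Finset.mem_Icc.2 (abs_le.1 (hw y))
  have h1 : V.card ≤ ({w : Y → ℤ | (∀ y, |w y| ≤ R) ∧ S w}).ncard := by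
    rw [← Set.ncard_coe_finset]
    refine Set.ncard_le_ncard ?_ hfin
    intro w hw
    refine ⟨fun y => (k4_abs_le w y).trans ?_, hV w hw⟩
    have h2 : (k4mx w : ℝ) ≤ R := (hk w hw).trans hR1
    exact_mod_cast h2
  have h3 : (V.card : ℝ) ≤ A * (R : ℝ) ^ a * (1 + Real.log R) :=
    le_trans (by exact_mod_cast h1) (hS R hR4)
  have h4 : 1 + Real.log R ≤ (1 + Real.log f) * (2 * ((k : ℝ) + 1)) := by
    have hk2 : (0 : ℝ) < 2 * ((k : ℝ) + 1) := by positivity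
    have h5 : Real.log R ≤ Real.log (2 * ((k : ℝ) + 1)) + Real.log √f := by
      rw [← Real.log_mul hk2.ne' (by positivity)]
      exact Real.log_le_log (by linarith) hR2
    have h6 : Real.log √(f : ℝ) = Real.log f / 2 := Real.log_sqrt (by linarith)
    have h7 : 0 ≤ Real.log f := Real.log_nonneg hf1
    have h8 : Real.log (2 * ((k : ℝ) + 1)) ≤ 2 * ((k : ℝ) + 1) - 1 :=
      Real.log_le_sub_one_of_pos hk2
    rw [h6] at h5
    nlinarith
  have h9 : 0 ≤ Real.log f := Real.log_nonneg hf1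
  calc (V.card : ℝ) ≤ A * (R : ℝ) ^ a * (1 + Real.log R) := h3
    _ ≤ A * (2 * ((k : ℝ) + 1) * √f) ^ a * ((1 + Real.log f) * (2 * ((k : ℝ) + 1))) := by
        have h10 : 0 ≤ 1 + Real.log R := by
          have := Real.log_nonneg hR3
          linarith
        gcongr
    _ = A * √(f : ℝ) ^ a * (1 + Real.log f) * (2 * ((k : ℝ) + 1)) ^ (a + 1) := by
        rw [mul_pow, pow_succ]
        ring

theorem shell_sum (d a : ℕ) (A : ℝ) (hA : 0 ≤ A) : ∃ C : ℝ, 0 ≤ C ∧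
    ∀ (Y : Type) [Fintype Y] (S : (Y → ℤ) → Prop), Fintype.card Y = d →
    (∀ R : ℕ, 1 ≤ R → (({w : Y → ℤ | (∀ y, |w y| ≤ R) ∧ S w}).ncard : ℝ)
      ≤ A * (R : ℝ) ^ a * (1 + Real.log R)) →
    ∀ f : ℕ, 1 ≤ f → ∀ V : Finset (Y → ℤ), (∀ w ∈ V, S w) →
      ∑ w ∈ V, ∏ y, pf f (w y) ≤ C * √(f : ℝ) ^ a / √(f : ℝ) ^ d * (1 + Real.log f) := by
  obtain ⟨C₁, hC₁, hpf⟩ := pf_le
  refine ⟨C₁ ^ d * A * ∑' k, k4g a k, ?_, ?_⟩
  · have h0 : 0 ≤ ∑' k, k4g a k := tsum_nonneg (k4g_nonneg a)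
    positivity
  intro Y _ S hd hS f hf V hV
  classical
  have hf1 : (1 : ℝ) ≤ f := by exact_mod_cast hf
  have hf0 : (0 : ℝ) < f := by linarith
  have hs0 : 0 < √(f : ℝ) := Real.sqrt_pos.2 hf0
  have hlog : 0 ≤ Real.log f := Real.log_nonneg hf1
  obtain ⟨κ, hκ⟩ : ∃ κ : (Y → ℤ) → ℕ, ∀ w, κ w = ⌊(k4mx w : ℝ) / √f⌋₊ := ⟨_, fun _ => rfl⟩
  have hκ1 : ∀ w, (κ w : ℝ) * √f ≤ k4mx w := by
    intro w
    rw [hκ, ← le_div_iff₀ hs0]
    exact Nat.floor_le (by positivity)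
  have hκ2 : ∀ w, (k4mx w : ℝ) ≤ ((κ w : ℝ) + 1) * √f := by
    intro w
    rw [hκ, ← div_le_iff₀ hs0]
    exact (Nat.lt_floor_add_one _).le
  have hmap : ∀ w ∈ V, κ w ∈ V.image κ := fun w hw => Finset.mem_image_of_mem κ hw
  rw [← Finset.sum_fiberwise_of_maps_to hmap]
  have h1 : ∀ k ∈ V.image κ, ∑ w ∈ V.filter (fun w => κ w = k), ∏ y, pf f (w y)
      ≤ C₁ ^ d * A * √(f : ℝ) ^ a / √(f : ℝ) ^ d * (1 + Real.log f) * k4g a k := by
    intro k _
    have h2 : ∀ w ∈ V.filter (fun w => κ w = k),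
        ∏ y, pf f (w y) ≤ (C₁ / √f) ^ d * Real.exp (-((k : ℝ) ^ 2 / 16)) := by
      intro w hw
      have hwk := (Finset.mem_filter.1 hw).2
      refine (k4_prod hf (hpf f hf) w hC₁).trans ?_
      rw [hd]
      apply mul_le_mul_of_nonneg_left _ (by positivity)
      apply Real.exp_le_exp.2
      apply neg_le_neg
      rw [le_div_iff₀ (by positivity)]
      have h3 := hκ1 w
      rw [hwk] at h3
      have h4 : ((k : ℝ) * √f) ^ 2 ≤ (k4mx w : ℝ) ^ 2 := by gcongr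
      rw [mul_pow, Real.sq_sqrt hf0.le] at h4
      linarith
    have h3 := k4_count hA hS hf (V.filter fun w => κ w = k)
      (fun w hw => hV w (Finset.mem_filter.1 hw).1) k (fun w hw => by
        have := hκ2 w
        rwa [(Finset.mem_filter.1 hw).2] at this)
    calc ∑ w ∈ V.filter (fun w => κ w = k), ∏ y, pf f (w y)
        ≤ ∑ w ∈ V.filter (fun w => κ w = k), (C₁ / √f) ^ d * Real.exp (-((k : ℝ) ^ 2 / 16)) :=
          Finset.sum_le_sum h2
      _ = ((V.filter fun w => κ w = k).card : ℝ)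
            * ((C₁ / √f) ^ d * Real.exp (-((k : ℝ) ^ 2 / 16))) := by
          rw [Finset.sum_const, nsmul_eq_mul]
      _ ≤ (A * √(f : ℝ) ^ a * (1 + Real.log f) * (2 * ((k : ℝ) + 1)) ^ (a + 1))
            * ((C₁ / √f) ^ d * Real.exp (-((k : ℝ) ^ 2 / 16))) :=
          mul_le_mul_of_nonneg_right h3 (by positivity)
      _ = C₁ ^ d * A * √(f : ℝ) ^ a / √(f : ℝ) ^ d * (1 + Real.log f) * k4g a k := by
          unfold k4g
          rw [div_pow]
          ring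
  refine (Finset.sum_le_sum h1).trans ?_
  rw [← Finset.mul_sum]
  have h5 : ∑ k ∈ V.image κ, k4g a k ≤ ∑' k, k4g a k :=
    (k4g_summable a).sum_le_tsum _ fun k _ => k4g_nonneg a k
  calc C₁ ^ d * A * √(f : ℝ) ^ a / √(f : ℝ) ^ d * (1 + Real.log f) * ∑ k ∈ V.image κ, k4g a k
      ≤ C₁ ^ d * A * √(f : ℝ) ^ a / √(f : ℝ) ^ d * (1 + Real.log f) * ∑' k, k4g a k :=
        mul_le_mul_of_nonneg_left h5 (by positivity)
    _ = _ := by ring

end Pool.Agent.Lib.MP_938ce2_ag_K
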