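import Mathlib
import Pool.Agent.Lib.MP_938ce2_ag_K.KD
import Pool.Agent.Lib.MP_938ce2_ag_u2.TypeC

/-!
Row K5: the joint distribution of the sums of the signs of a CM type over the fibres of a quotient.
-/

set_option autoImplicit false
set_option linter.unusedSectionVars false

namespace Pool.Agent.Lib.MP_938ce2_ag_K

open Finset Module MonoidAlgebra
open Pool.Agent.Lib.MP_938ce2_ag_h67 (sg VV ev mkV Orb red kerM QD fw)
open Pool.Agent.Lib.MP_938ce2_ag_h60 (CMType)
open Pool.Agent.Lib.MP_938ce2_ag_u2 (Act OddM badC mem_badC dM dE dH)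

variable {G Q X X' : Type} [Group G] [Fintype G] [Group Q] [Fintype Q] [MulAction G X]
  [MulAction Q X'] [Fintype X] [DecidableEq X] [Fintype X'] [DecidableEq X'] {c : G} {g : ℕ}

private lemma sg_c (Φ : Finset X) (hΦ : CMType c Φ) (x : X) : sg Φ (c • x) = - sg Φ x := by
  unfold sg
  by_cases hx : x ∈ Φ
  · rw [if_pos hx, if_neg ((hΦ x).1 hx)]
  · have h2 : c • x ∈ Φ := by
      by_contra h3
      exact hx ((hΦ x).2 h3)
    rw [if_neg hx, if_pos h2, neg_neg]

private lemma phi_sq (hA : Act G X c g) (D : QD G Q X X') (y : X') : D.φ c • D.φ c • y = y := by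
  rw [← mul_smul, ← map_mul, hA.sq, map_one, one_smul]

theorem fw_odd (hA : Act G X c g) (D : QD G Q X X') (Φ : Finset X) (hΦ : CMType c Φ) (y : X') :
    fw D Φ (D.φ c • y) = - fw D Φ y := by
  unfold fw
  rw [← Finset.sum_neg_distrib]
  refine Finset.sum_nbij' (fun x => c • x) (fun x => c • x) ?_ ?_ ?_ ?_ ?_
  · intro x hx
    rw [Finset.mem_filter] at hx ⊢
    refine ⟨Finset.mem_univ _, ?_⟩
    rw [D.comm, hx.2, phi_sq hA D]
  · intro x hx
    rw [Finset.mem_filter] at hx ⊢
    refine ⟨Finset.mem_univ _, ?_⟩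
    rw [D.comm, hx.2]
  · intro x _
    show c • c • x = x
    rw [← mul_smul, hA.sq, one_smul]
  · intro x _
    show c • c • x = x
    rw [← mul_smul, hA.sq, one_smul]
  · intro x _
    rw [sg_c Φ hΦ, neg_neg]

/-- the family of subsets of `Fin f` given by the points over `Y` -/
private def fm {X X' : Type} {π : X → X'} {Y : Finset X'} {f : ℕ} [DecidableEq X]
    (b : ∀ y : Y, {x // π x = (y : X')} ≃ Fin f) (Φ : Finset X) (y : Y) : Finset (Fin f) :=
  univ.filter fun i => (((b y).symm i : {x // π x = (y : X')}) : X) ∈ Φ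

private lemma mem_fm {X X' : Type} {π : X → X'} {Y : Finset X'} {f : ℕ} [DecidableEq X]
    (b : ∀ y : Y, {x // π x = (y : X')} ≃ Fin f) (Φ : Finset X) (y : Y) (i : Fin f) :
    i ∈ fm b Φ y ↔ (((b y).symm i : {x // π x = (y : X')}) : X) ∈ Φ := by
  unfold fm
  rw [Finset.mem_filter]
  exact ⟨fun h => h.2, fun h => ⟨Finset.mem_univ _, h⟩⟩

private lemma mem_of_fm {X X' : Type} {π : X → X'} {Y : Finset X'} {f : ℕ} [DecidableEq X]
    (b : ∀ y : Y, {x // π x = (y : X')} ≃ Fin f) (Φ : Finset X) (x : X) (hx : π x ∈ Y) :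
    x ∈ Φ ↔ b ⟨π x, hx⟩ ⟨x, rfl⟩ ∈ fm b Φ ⟨π x, hx⟩ := by
  rw [mem_fm, Equiv.symm_apply_apply]

private lemma fw_eq (D : QD G Q X X') {Y : Finset X'} {f : ℕ}
    (b : ∀ y : Y, {x // D.π x = (y : X')} ≃ Fin f) (Φ : Finset X) (y : Y) :
    fw D Φ y = ∑ i, sg (fm b Φ y) i := by
  unfold fw
  rw [Finset.sum_subtype (univ.filter (fun x => D.π x = (y : X'))) (p := fun x => D.π x = (y : X'))
            (fun x => by simp) (sg Φ)]
  rw [← Equiv.sum_comp (b y).symm (fun x : {x // D.π x = (y : X')} => sg Φ (x : X))]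
  apply Finset.sum_congr rfl
  intro i _
  unfold sg
  by_cases h : (((b y).symm i : {x // D.π x = (y : X')}) : X) ∈ Φ
  · rw [if_pos h, if_pos ((mem_fm b Φ y i).mpr h)]
  · rw [if_neg h, if_neg (fun h' => h ((mem_fm b Φ y i).mp h'))]

private lemma card_X' (hA : Act G X c g) (D : QD G Q X X') (Y : Finset X')
    (hY : CMType (D.φ c) Y) : Fintype.card X' = 2 * Y.card := by
  have h1 : Y.card + Yᶜ.card = Fintype.card X' := Finset.card_add_card_compl Y
  have h2 : Yᶜ.card = Y.card := by
    refine Finset.card_nbij' (fun y => D.φ c • y) (fun y => D.φ c • y) ?_ ?_ ?_ ?_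
    · intro y hy
      rw [Finset.mem_coe, Finset.mem_compl] at hy
      rw [Finset.mem_coe]
      by_contra h
      exact hy ((hY y).2 h)
    · intro y hy
      rw [Finset.mem_coe] at hy
      rw [Finset.mem_coe, Finset.mem_compl]
      exact (hY y).1 hy
    · intro y _
      exact phi_sq hA D y
    · intro y _
      exact phi_sq hA D y
  omega

private lemma g_eq (hA : Act G X c g) (D : QD G Q X X') (f : ℕ)
    (hf : ∀ y : X', (Finset.univ.filter fun x : X => D.π x = y).card = f)
    (Y : Finset X') (hY : CMType (D.φ c) Y) : g = f * Y.card := by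
  have h1 : Fintype.card X = ∑ y : X', (Finset.univ.filter fun x : X => D.π x = y).card := by
    rw [← Finset.card_univ]
    exact Finset.card_eq_sum_card_fiberwise (fun x _ => Finset.mem_coe.mpr (Finset.mem_univ _))
  rw [Finset.sum_congr rfl fun y _ => hf y, Finset.sum_const, Finset.card_univ,
    card_X' hA D Y hY, hA.card, smul_eq_mul] at h1
  have h2 : 2 * g = 2 * (f * Y.card) := by rw [h1]; ring
  omega

open Classical in
theorem fw_dist (hA : Act G X c g) (D : QD G Q X X') (f : ℕ)
    (hf : ∀ y : X', (Finset.univ.filter fun x : X => D.π x = y).card = f)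
    (Y : Finset X') (hY : CMType (D.φ c) Y) (v : Y → ℤ) :
    ((Finset.univ.filter fun Φ : Finset X => CMType c Φ ∧ ∀ y : Y, fw D Φ y = v y).card : ℝ)
      = 2 ^ g * ∏ y : Y, pf f (v y) := by
  have hcf : ∀ y : X', Fintype.card {x // D.π x = y} = f := by
    intro y
    rw [← hf y, Fintype.card_subtype]
  have hbn : ∀ y : Y, Nonempty ({x // D.π x = (y : X')} ≃ Fin f) := fun y =>
    ⟨Fintype.equivFinOfCardEq (hcf _)⟩
  let b : ∀ y : Y, {x // D.π x = (y : X')} ≃ Fin f := fun y => (hbn y).some
  have hcc : ∀ x : X, c • c • x = x := by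
    intro x
    rw [← mul_smul, hA.sq, one_smul]
  have hcard : (Finset.univ.filter fun Φ : Finset X => CMType c Φ ∧ ∀ y : Y, fw D Φ y = v y).card
      = (Fintype.piFinset fun y : Y => (univ.filter fun s : Finset (Fin f) => ∑ x, sg s x = v y)).card := by
    refine Finset.card_nbij (fm b) ?_ ?_ ?_
    · intro Φ hΦ
      rw [Finset.mem_coe, Finset.mem_filter] at hΦ
      rw [Finset.mem_coe, Fintype.mem_piFinset]
      intro y
      rw [Finset.mem_filter]
      refine ⟨Finset.mem_univ _, ?_⟩
      rw [← hΦ.2.2 y, fw_eq D b]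
    · intro Φ hΦ Φ' hΦ' he
      rw [Finset.mem_coe, Finset.mem_filter] at hΦ hΦ'
      have he' : fm b Φ = fm b Φ' := he
      have key : ∀ x, D.π x ∈ Y → (x ∈ Φ ↔ x ∈ Φ') := by
        intro x hx
        rw [mem_of_fm b Φ x hx, mem_of_fm b Φ' x hx, he']
      ext x
      by_cases hx : D.π x ∈ Y
      · exact key x hx
      · have h1 : D.π (c • x) ∈ Y := by
          rw [D.comm]
          by_contra h
          exact hx ((hY _).2 h)
        rw [hΦ.2.1 x, hΦ'.2.1 x, key _ h1]
    · intro t ht
      rw [Finset.mem_coe, Fintype.mem_piFinset] at ht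
      let Φ : Finset X := univ.filter fun x =>
        (∃ h : D.π x ∈ Y, b ⟨D.π x, h⟩ ⟨x, rfl⟩ ∈ t ⟨D.π x, h⟩) ∨
          (∃ h : D.π (c • x) ∈ Y, b ⟨D.π (c • x), h⟩ ⟨c • x, rfl⟩ ∉ t ⟨D.π (c • x), h⟩)
      have hπc : ∀ x, D.π (c • x) ∈ Y ↔ D.π x ∉ Y := by
        intro x
        constructor
        · intro h1 h2
          rw [D.comm] at h1
          exact (hY _).1 h2 h1
        · intro h1
          rw [D.comm]
          by_contra h
          exact h1 ((hY _).2 h)
      have hmem1 : ∀ x (h : D.π x ∈ Y), x ∈ Φ ↔ b ⟨D.π x, h⟩ ⟨x, rfl⟩ ∈ t ⟨D.π x, h⟩ := by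
        intro x h
        simp only [Φ, Finset.mem_filter, Finset.mem_univ, true_and]
        constructor
        · rintro (⟨_, h2⟩ | ⟨h1, _⟩)
          · exact h2
          · exact absurd h ((hπc x).1 h1)
        · intro h2
          exact Or.inl ⟨h, h2⟩
      have hmem2 : ∀ x, D.π x ∉ Y → (x ∈ Φ ↔ c • x ∉ Φ) := by
        intro x h
        have h' : D.π (c • x) ∈ Y := (hπc x).2 h
        rw [hmem1 (c • x) h']
        simp only [Φ, Finset.mem_filter, Finset.mem_univ, true_and]
        constructor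
        · rintro (⟨h1, _⟩ | ⟨_, h2⟩)
          · exact absurd h1 h
          · exact h2
        · intro h2
          exact Or.inr ⟨h', h2⟩
      refine ⟨Φ, ?_, ?_⟩
      · rw [Finset.mem_coe, Finset.mem_filter]
        have hfm : fm b Φ = t := by
          funext y
          ext i
          rw [mem_fm]
          obtain ⟨x, hx⟩ := (b y).surjective i
          subst hx
          rw [Equiv.symm_apply_apply]
          obtain ⟨y, hy⟩ := y
          obtain ⟨x, hx⟩ := x
          simp only at hx
          subst hx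
          exact hmem1 x hy
        refine ⟨Finset.mem_univ _, ?_, ?_⟩
        · intro x
          by_cases h : D.π x ∈ Y
          · have h' : D.π (c • x) ∉ Y := by
              rw [hπc]
              exact not_not.mpr h
            have h2 := hmem2 (c • x) h'
            rw [hcc] at h2
            tauto
          · exact hmem2 x h
        · intro y
          rw [fw_eq D b, hfm]
          exact (Finset.mem_filter.mp (ht y)).2
      · funext y
        ext i
        rw [mem_fm]
        obtain ⟨x, hx⟩ := (b y).surjective i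
        subst hx
        rw [Equiv.symm_apply_apply]
        obtain ⟨y, hy⟩ := y
        obtain ⟨x, hx⟩ := x
        simp only at hx
        subst hx
        exact hmem1 x hy
  rw [hcard, Fintype.card_piFinset, g_eq hA D f (fun y => by rw [← hf y]) Y hY]
  push_cast
  have h2 : ∀ y : Y, ((univ.filter fun s : Finset (Fin f) => ∑ x, sg s x = v y).card : ℝ)
      = 2 ^ f * pf f (v y) := by
    intro y
    unfold pf
    rw [mul_div_cancel₀]
    exact pow_ne_zero _ two_ne_zero
  rw [Finset.prod_congr rfl fun y _ => h2 y, Finset.prod_mul_distrib, Finset.prod_const,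
    Finset.card_univ, Fintype.card_coe, ← pow_mul]

end Pool.Agent.Lib.MP_938ce2_ag_K
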