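import Mathlib

/-!
Row K6a (80 lines): linearly independent homomorphisms of a simple module with trivial endomorphisms are
independent over the module.

RECIPE. Induction on `s.card` / minimal counterexample: suppose `∑ i ∈ s, φ i (v i) = 0` with `v i ≠ 0` for all
`i ∈ s`, `s` nonempty of minimal cardinality among all such relations. Fix `i₀ ∈ s`. For `r : R`: if
`r • v i₀ = 0` then `∑ i ∈ s \ {i₀}, φ i (r • v i) = 0`, so by minimality `r • v i = 0` for all `i ∈ s`
(a relation supported on fewer indices must be zero). So `v i₀ ↦ v i` defines an endomorphism of `N = R v i₀` (simple,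
`v i₀ ≠ 0` generates), i.e. `v i = a i • v i₀` with `a i : K` because the endomorphisms are the scalars
(`finrank K (N →ₗ[R] N) = 1`). Then `∑ a i • φ i` vanishes at `v i₀`, hence on `N = R v i₀`, so all `a i = 0`,
contradiction with `a i₀ = 1`. (Or: the map `(Fin n → N) → V` of `R`-modules, `v ↦ ∑ φ i (v i)`; a simple
submodule of its kernel.)
-/

set_option autoImplicit false
set_option linter.unusedSectionVars false

namespace Pool.Agent.Lib.MP_938ce2_ag_K

open Module

theorem indep_of_simple {K R N V : Type} [Field K] [Ring R] [Algebra K R] [AddCommGroup N] [Module K N]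
    [Module R N] [IsScalarTower K R N] [AddCommGroup V] [Module K V] [Module R V]
    [IsScalarTower K R V] (hN : IsSimpleModule R N) (hE : finrank K (N →ₗ[R] N) = 1) {n : ℕ}
    (φ : Fin n → (N →ₗ[R] V)) (hφ : LinearIndependent K φ) (v : Fin n → N)
    (h : ∑ i, φ i (v i) = 0) : v = 0 := by
  classical
  have hnt : Nontrivial N := hN.nontrivial
  -- endomorphisms are scalars
  have hsc : ∀ f : N →ₗ[R] N, ∃ a : K, f = a • LinearMap.id := by
    intro f
    have hid : (LinearMap.id : N →ₗ[R] N) ≠ 0 := by
      intro h0
      obtain ⟨x, hx⟩ := exists_ne (0 : N)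
      exact hx (by simpa using LinearMap.congr_fun h0 x)
    obtain ⟨a, ha⟩ := (finrank_eq_one_iff_of_nonzero' (LinearMap.id : N →ₗ[R] N) hid).1 hE f
    exact ⟨a, ha.symm⟩
  have main : ∀ s : Finset (Fin n), ∀ w : Fin n → N, (∀ i, i ∉ s → w i = 0) →
      ∑ i, φ i (w i) = 0 → w = 0 := by
    intro s
    induction s using Finset.induction_on with
    | empty =>
      intro w hw _
      funext i
      exact hw i (Finset.notMem_empty i)
    | insert i₀ s hi₀ ih =>
      intro w hw hrel
      by_cases h0 : w i₀ = 0
      · refine ih w (fun i hi => ?_) hrel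
        by_cases hii : i = i₀
        · rw [hii]; exact h0
        · exact hw i (fun h' => (Finset.mem_insert.1 h').elim hii hi)
      exfalso
      have hker : ∀ r : R, r • w i₀ = 0 → ∀ i, r • w i = 0 := by
        intro r hr i
        have h1 := ih (r • w) (fun i hi => ?_) ?_
        · exact congrFun h1 i
        · by_cases hii : i = i₀
          · rw [hii]; exact hr
          · rw [Pi.smul_apply, hw i (fun h' => (Finset.mem_insert.1 h').elim hii hi), smul_zero]
        · simp only [Pi.smul_apply, map_smul]
          rw [← Finset.smul_sum, hrel, smul_zero]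
      -- the endomorphisms
      have hsurj : Function.Surjective (LinearMap.toSpanSingleton R N (w i₀)) := by
        rw [← LinearMap.range_eq_top]
        rcases eq_bot_or_eq_top (LinearMap.range (LinearMap.toSpanSingleton R N (w i₀))) with h1 | h1
        · exfalso
          apply h0
          have h2 : w i₀ ∈ LinearMap.range (LinearMap.toSpanSingleton R N (w i₀)) :=
            ⟨1, by simp⟩
          rw [h1] at h2
          exact (Submodule.mem_bot R).1 h2
        · exact h1
      have hend : ∀ i, ∃ f : N →ₗ[R] N, f (w i₀) = w i := by
        intro i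
        have hle : LinearMap.ker (LinearMap.toSpanSingleton R N (w i₀)) ≤
            LinearMap.ker (LinearMap.toSpanSingleton R N (w i)) := by
          intro r hr
          rw [LinearMap.mem_ker, LinearMap.toSpanSingleton_apply] at hr ⊢
          exact hker r hr i
        refine ⟨(Submodule.liftQ _ (LinearMap.toSpanSingleton R N (w i)) hle) ∘ₗ
          ((LinearMap.toSpanSingleton R N (w i₀)).quotKerEquivOfSurjective hsurj).symm.toLinearMap, ?_⟩
        have h1 : ((LinearMap.toSpanSingleton R N (w i₀)).quotKerEquivOfSurjective hsurj).symm
            (w i₀) = Submodule.Quotient.mk 1 := by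
          rw [LinearEquiv.symm_apply_eq]
          simp
        rw [LinearMap.comp_apply, LinearEquiv.coe_coe, h1]
        simp
      choose f hf using hend
      choose a ha using fun i => hsc (f i)
      have hwa : ∀ i, w i = a i • w i₀ := by
        intro i
        have h1 := hf i
        rw [ha i, LinearMap.smul_apply, LinearMap.id_apply] at h1
        exact h1.symm
      have hΦ : (∑ i, a i • φ i) (w i₀) = 0 := by
        rw [LinearMap.sum_apply]
        simp only [LinearMap.smul_apply]
        have h1 : ∀ i, a i • φ i (w i₀) = φ i (w i) := by
          intro i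
          conv_rhs => rw [hwa i]
          rw [LinearMap.map_smul_of_tower]
        rw [Finset.sum_congr rfl fun i _ => h1 i]
        exact hrel
      have hΦ0 : ∑ i, a i • φ i = 0 := by
        rcases eq_bot_or_eq_top (LinearMap.ker (∑ i, a i • φ i)) with h1 | h1
        · exfalso
          apply h0
          have h2 : w i₀ ∈ LinearMap.ker (∑ i, a i • φ i) := hΦ
          rw [h1] at h2
          exact (Submodule.mem_bot R).1 h2
        · exact LinearMap.ker_eq_top.1 h1
      have ha0 := Fintype.linearIndependent_iff.1 hφ a hΦ0 i₀
      apply h0
      rw [hwa i₀, ha0, zero_smul]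
  exact main Finset.univ v (fun i hi => absurd (Finset.mem_univ i) hi) h

end Pool.Agent.Lib.MP_938ce2_ag_K
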