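import Mathlib
import Pool.Agent.Lib.MP_938ce2_ag_h67.Red

/-!
Row K6b (180 lines): the homomorphisms to the functions on a regular set are the combinations of the right
translations.

RECIPE. `P` acts freely and transitively on `Ω`; fix `y₀`. For `β : P` let `rt β : Ω → Ω`, `rt β (σ • y₀) = (σ * β) • y₀`
(well defined: `σ` is determined by the point). It commutes with the action. For `f : VV ℚ P Ω` the function
`y ↦ ev f (rt β y)` depends `P`-linearly on `f`. Let `N ≤ VV ℚ P Ω` and `ψ : N →ₗ[ℚ[P]] VV ℚ P Ω`. Consider the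
functional `v ↦ ev (ψ v) y₀` on `N`; extend it to a functional on `VV ℚ P Ω`: there are `a : Ω → ℚ` with
`ev (ψ v) y₀ = ∑ z, a z * ev v z` for `v ∈ N` (functionals on `Ω → ℚ`; `LinearMap.exists_extend`). Every `z` is
`β z • y₀ = rt (β z) y₀` for a unique `β z`. By equivariance (`ev (σ⁻¹ • v) ...`):
`ev (ψ v) (σ • y₀) = ev (ψ (single σ⁻¹ 1 • v)) y₀ = ∑ z, a z * ev v (σ • z)` and
`σ • z = rt (β z) (σ • y₀)`. So `ev (ψ v) y = ∑ β, a' β * ev v (rt β y)` for all `y`.
-/

set_option autoImplicit false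
set_option linter.unusedSectionVars false

namespace Pool.Agent.Lib.MP_938ce2_ag_K

open Finset Module MonoidAlgebra
open Pool.Agent.Lib.MP_938ce2_ag_h67 (VV ev mkV ev_add ev_smul ev_single eq_sum_mkV)

variable {P Ω : Type} [Group P] [Fintype P] [MulAction P Ω] [Fintype Ω] [DecidableEq Ω]
  [MulAction.IsPretransitive P Ω]

/-- the maps `rt β` commute with the action, are transitive, and give all homomorphisms -/
theorem exists_rt (hfree : ∀ (σ : P) (x : Ω), σ • x = x → σ = 1) [Nonempty Ω] :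
    ∃ rt : P → Ω → Ω, (∀ (β σ : P) (y : Ω), rt β (σ • y) = σ • rt β y) ∧
      (∀ β : P, Function.Bijective (rt β)) ∧
      ∀ (N : Submodule (MonoidAlgebra ℚ P) (VV ℚ P Ω))
        (ψ : N →ₗ[MonoidAlgebra ℚ P] VV ℚ P Ω), ∃ a : P → ℚ, ∀ (v : N) (y : Ω),
          ev (ψ v) y = ∑ β, a β * ev (v : VV ℚ P Ω) (rt β y) := by
  obtain ⟨y₀⟩ := (inferInstance : Nonempty Ω)
  have hs : ∀ y : Ω, ∃ σ : P, σ • y₀ = y := fun y => MulAction.exists_smul_eq P y₀ y
  choose s hs using hs
  have hinj : ∀ σ τ : P, σ • y₀ = τ • y₀ → σ = τ := by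
    intro σ τ h
    have h1 : (τ⁻¹ * σ) • y₀ = y₀ := by rw [mul_smul, h, inv_smul_smul]
    have h2 := hfree _ _ h1
    rw [inv_mul_eq_one] at h2
    exact h2.symm
  have hse : ∀ (σ : P) (y : Ω), s (σ • y) = σ * s y := by
    intro σ y
    apply hinj
    rw [hs, mul_smul, hs]
  refine ⟨fun β y => (s y * β) • y₀, ?_, ?_, ?_⟩
  · intro β σ y
    show (s (σ • y) * β) • y₀ = σ • (s y * β) • y₀
    rw [hse, mul_assoc, mul_smul]
  · intro β
    rw [← Finite.injective_iff_bijective]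
    intro y y' h
    have h1 := mul_right_cancel (hinj _ _ h)
    rw [← hs y, ← hs y', h1]
  · intro N ψ
    let L : (N.restrictScalars ℚ) →ₗ[ℚ] ℚ :=
      { toFun := fun v => ev (ψ v) y₀
        map_add' := fun v w => by
          have : ψ (v + w) = ψ v + ψ w := map_add ψ v w
          show ev (ψ (v + w)) y₀ = _
          rw [this, ev_add]
        map_smul' := fun t v => by
          have : ψ (t • v) = t • ψ v := LinearMap.map_smul_of_tower ψ t v
          show ev (ψ (t • v)) y₀ = _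
          rw [this, ev_smul]
          rfl }
    obtain ⟨g, hg⟩ := LinearMap.exists_extend L
    have hgL : ∀ v : N, g (v : VV ℚ P Ω) = ev (ψ v) y₀ := fun v => LinearMap.congr_fun hg v
    refine ⟨fun β => g (mkV P (Pi.single (β • y₀) (1 : ℚ))), ?_⟩
    intro v y
    have h1 : ev (ψ v) y = ev (ψ (MonoidAlgebra.single (s y)⁻¹ (1 : ℚ) • v)) y₀ := by
      rw [map_smul, ev_single, one_mul, inv_inv, hs]
    have h2 : g ((MonoidAlgebra.single (s y)⁻¹ (1 : ℚ) • v : N) : VV ℚ P Ω) =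
        ∑ z, ev (v : VV ℚ P Ω) (s y • z) * g (mkV P (Pi.single z (1 : ℚ))) := by
      conv_lhs => rw [eq_sum_mkV ((MonoidAlgebra.single (s y)⁻¹ (1 : ℚ) • v : N) : VV ℚ P Ω)]
      rw [map_sum]
      refine Finset.sum_congr rfl fun z _ => ?_
      rw [map_smul, smul_eq_mul, Submodule.coe_smul, ev_single, one_mul, inv_inv]
    have hb : Function.Bijective fun β : P => β • y₀ :=
      ⟨fun σ τ h => hinj σ τ h, fun y => ⟨s y, hs y⟩⟩
    rw [h1, ← hgL, h2, ← (Equiv.ofBijective _ hb).sum_comp]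
    refine Finset.sum_congr rfl fun β _ => ?_
    show ev (v : VV ℚ P Ω) (s y • β • y₀) * g (mkV P (Pi.single (β • y₀) (1 : ℚ))) =
      g (mkV P (Pi.single (β • y₀) (1 : ℚ))) * ev (v : VV ℚ P Ω) ((s y * β) • y₀)
    rw [mul_comm, mul_smul]

end Pool.Agent.Lib.MP_938ce2_ag_K
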