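import Mathlib

/-!
Row X1 (180 lines): a small integral functional on a lattice generated by minimal vectors.
-/

set_option autoImplicit false
set_option linter.unusedSectionVars false

namespace Pool.Agent.Lib.MP_938ce2_ag_K

open Module

/-- a maximal choice of vectors: all coordinates are at most one -/
private theorem exists_max_basis {Ω V : Type} [Fintype Ω] [AddCommGroup V] [Module ℚ V]
    [Module.Finite ℚ V] (e : Ω → V) (hspan : Submodule.span ℚ (Set.range e) = ⊤) :
    ∃ (I : Fin (finrank ℚ V) → Ω) (b : Basis (Fin (finrank ℚ V)) ℚ V),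
      (∀ i, b i = e (I i)) ∧ ∀ x i, |b.repr (e x) i| ≤ 1 := by
  classical
  -- a first basis among the vectors
  have hb1 : ∃ (J : Fin (finrank ℚ V) → Ω) (b1 : Basis (Fin (finrank ℚ V)) ℚ V),
      ∀ i, b1 i = e (J i) := by
    have hc : ∀ k, ∃ x, e x = Basis.ofSpan hspan.ge k := fun k =>
      Basis.ofSpan_subset hspan.ge ⟨k, rfl⟩
    choose g hg using hc
    refine ⟨fun i => g (((Basis.ofSpan hspan.ge).indexEquiv (finBasis ℚ V)).symm i),
      (Basis.ofSpan hspan.ge).reindex ((Basis.ofSpan hspan.ge).indexEquiv (finBasis ℚ V)),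
      fun i => ?_⟩
    rw [Basis.reindex_apply, hg]
  obtain ⟨J, b1, hJ⟩ := hb1
  have hne : Nonempty (Fin (finrank ℚ V) → Ω) := ⟨J⟩
  obtain ⟨I, hI⟩ := Finite.exists_max fun I : Fin (finrank ℚ V) → Ω => |b1.det (e ∘ I)|
  have hpos : b1.det (e ∘ I) ≠ 0 := by
    have h1 := hI J
    have h2 : b1.det (e ∘ J) = 1 := by
      have : e ∘ J = b1 := funext fun i => (hJ i).symm
      rw [this, Basis.det_self]
    rw [h2, abs_one] at h1
    intro h3
    rw [h3, abs_zero] at h1
    exact absurd h1 (by norm_num)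
  have hunit : IsUnit (b1.det (e ∘ I)) := isUnit_iff_ne_zero.2 hpos
  obtain ⟨hli, hsp⟩ := b1.is_basis_iff_det.2 hunit
  obtain ⟨b, hb⟩ : ∃ b, b = Basis.mk hli hsp.ge := ⟨_, rfl⟩
  have hbI : ∀ i, b i = e (I i) := fun i => by rw [hb, Basis.mk_apply]; rfl
  refine ⟨I, b, hbI, fun x i => ?_⟩
  have h1 := hI (Function.update I i x)
  have h2 : e ∘ Function.update I i x = Function.update (e ∘ I) i (e x) := by
    rw [Function.comp_update]
  have h3 : b1.det (Function.update (e ∘ I) i (e x)) = b.repr (e x) i * b1.det (e ∘ I) := by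
    have h4 : e x = ∑ j, b.repr (e x) j • (e ∘ I) j := by
      conv_lhs => rw [← b.sum_repr (e x)]
      exact Finset.sum_congr rfl fun j _ => by rw [hbI]; rfl
    have h5 : ∀ y, b1.det (Function.update (e ∘ I) i y) =
      b1.det.toMultilinearMap.toLinearMap (e ∘ I) i y := fun y => rfl
    rw [h5]
    conv_lhs => rw [h4]
    rw [map_sum]
    rw [Finset.sum_eq_single i]
    · rw [map_smul, ← h5, Function.update_eq_self, smul_eq_mul]
    · intro j _ hj
      rw [map_smul, ← h5, AlternatingMap.map_update_self _ _ hj.symm, smul_zero]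
    · intro h
      exact absurd (Finset.mem_univ i) h
  have h6 : |b1.det (e ∘ Function.update I i x)| ≤ |b1.det (e ∘ I)| := h1
  rw [h2, h3, abs_mul] at h6
  exact le_of_mul_le_mul_right (by rwa [one_mul]) (abs_pos.2 hpos)

/-- the estimate for combinations of vectors -/
private theorem form_le {V : Type} [AddCommGroup V] [Module ℚ V] (B : V →ₗ[ℚ] V →ₗ[ℚ] ℚ) {n : ℕ}
    (u : Fin n → V) (t : ℚ) (hu : ∀ i j, |B (u i) (u j)| ≤ t) (s : Fin n → ℚ) :
    B (∑ i, s i • u i) (∑ i, s i • u i) ≤ (∑ i, |s i|) ^ 2 * t := by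
  have h1 : B (∑ i, s i • u i) (∑ i, s i • u i) = ∑ j, ∑ i, s j * (s i * B (u i) (u j)) := by
    simp only [map_sum, LinearMap.sum_apply, map_smul, LinearMap.smul_apply, smul_eq_mul,
      Finset.mul_sum]
  rw [h1, sq, Finset.sum_mul_sum, Finset.sum_mul]
  refine Finset.sum_le_sum fun j _ => ?_
  rw [Finset.sum_mul]
  refine Finset.sum_le_sum fun i _ => ?_
  calc s j * (s i * B (u i) (u j)) ≤ |s j * (s i * B (u i) (u j))| := le_abs_self _
    _ = |s j| * |s i| * |B (u i) (u j)| := by rw [abs_mul, abs_mul, mul_assoc]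
    _ ≤ |s j| * |s i| * t := mul_le_mul_of_nonneg_left (hu i j) (by positivity)

/-- the elements of a group on which a homomorphism to `ℚ` is integral, as a character -/
private noncomputable def chr {E : Type} [AddCommGroup E] (E0 : AddSubgroup E) (φ : E →+ ℚ)
    (hφ : ∀ w ∈ E0, ∃ z : ℤ, φ w = z) : AddChar (E ⧸ E0) ℂ where
  toFun := Quotient.lift (fun w : E => Complex.exp (2 * Real.pi * Complex.I * ((φ w : ℚ) : ℂ)))
    (by
      intro a b hab
      have h1 : -a + b ∈ E0 := (QuotientAddGroup.leftRel_apply).1 hab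
      obtain ⟨z, hz⟩ := hφ _ h1
      show Complex.exp _ = Complex.exp _
      rw [Complex.exp_eq_exp_iff_exists_int]
      refine ⟨-z, ?_⟩
      have h2 : φ b = φ a + z := by
        rw [← hz, map_add, map_neg]
        ring
      rw [h2]
      push_cast
      ring)
  map_zero_eq_one' := by
    show Complex.exp (2 * Real.pi * Complex.I * ((φ 0 : ℚ) : ℂ)) = 1
    rw [map_zero]
    simp
  map_add_eq_mul' := by
    intro a b
    obtain ⟨a, rfl⟩ := QuotientAddGroup.mk_surjective a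
    obtain ⟨b, rfl⟩ := QuotientAddGroup.mk_surjective b
    show Complex.exp (2 * Real.pi * Complex.I * ((φ (a + b) : ℚ) : ℂ)) =
      Complex.exp (2 * Real.pi * Complex.I * ((φ a : ℚ) : ℂ)) *
        Complex.exp (2 * Real.pi * Complex.I * ((φ b : ℚ) : ℂ))
    rw [← Complex.exp_add, map_add]
    congr 1
    push_cast
    ring

private theorem chr_eq {E : Type} [AddCommGroup E] (E0 : AddSubgroup E) (φ ψ : E →+ ℚ)
    (hφ : ∀ w ∈ E0, ∃ z : ℤ, φ w = z) (hψ : ∀ w ∈ E0, ∃ z : ℤ, ψ w = z)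
    (h : chr E0 φ hφ = chr E0 ψ hψ) (w : E) : ∃ z : ℤ, φ w - ψ w = z := by
  have h1 : chr E0 φ hφ (QuotientAddGroup.mk w) = chr E0 ψ hψ (QuotientAddGroup.mk w) := by rw [h]
  have h2 : Complex.exp (2 * Real.pi * Complex.I * ((φ w : ℚ) : ℂ)) =
    Complex.exp (2 * Real.pi * Complex.I * ((ψ w : ℚ) : ℂ)) := h1
  obtain ⟨z, hz⟩ := Complex.exp_eq_exp_iff_exists_int.1 h2
  refine ⟨z, ?_⟩
  have h3 : (2 * Real.pi * Complex.I : ℂ) ≠ 0 := Complex.two_pi_I_ne_zero
  have h4 : (2 * Real.pi * Complex.I : ℂ) * ((φ w : ℚ) : ℂ) =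
      (2 * Real.pi * Complex.I) * (((ψ w : ℚ) : ℂ) + z) := by
    rw [hz]
    ring
  have h5 := mul_left_cancel₀ h3 h4
  have h6 : (φ w : ℚ) = ψ w + z := by exact_mod_cast h5
  rw [h6]
  ring

theorem small_int {Ω V : Type} [Fintype Ω] [DecidableEq Ω] [AddCommGroup V] [Module ℚ V]
    [Module.Finite ℚ V] (B : V →ₗ[ℚ] V →ₗ[ℚ] ℚ) (hsymm : ∀ v w, B v w = B w v)
    (hpos : ∀ v, v ≠ 0 → 0 < B v v) (e : Ω → V) (hspan : Submodule.span ℚ (Set.range e) = ⊤)
    (t : ℚ) (ht : ∀ x, B (e x) (e x) = t)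
    (hmin : ∀ w ∈ Submodule.span ℤ (Set.range e), w ≠ 0 → t ≤ B w w) (hn : 1 ≤ finrank ℚ V) :
    ∃ (φ : V →ₗ[ℚ] ℚ) (F : Ω → ℤ), φ ≠ 0 ∧ (∀ x, φ (e x) = F x) ∧
      ∀ x, |F x| ≤ (finrank ℚ V : ℤ) * (finrank ℚ V + 1) := by
  classical
  obtain ⟨I, b, hb, hc⟩ := exists_max_basis e hspan
  generalize finrank ℚ V = n at I b hb hc hn ⊢
  have hnn : ∀ v, 0 ≤ B v v := fun v => by
    by_cases hv : v = 0
    · rw [hv]
      simp
    · exact (hpos v hv).le
  have hcs : ∀ x y, |B (e x) (e y)| ≤ t := by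
    intro x y
    have h1 := hnn (e x + e y)
    have h2 := hnn (e x - e y)
    have e1 : B (e x + e y) (e x + e y) = 2 * t + 2 * B (e x) (e y) := by
      simp only [map_add, LinearMap.add_apply]
      rw [ht, ht, hsymm (e y) (e x)]
      ring
    have e2 : B (e x - e y) (e x - e y) = 2 * t - 2 * B (e x) (e y) := by
      simp only [map_sub, LinearMap.sub_apply]
      rw [ht, ht, hsymm (e y) (e x)]
      ring
    rw [abs_le]
    constructor <;> linarith
  have ht0 : 0 < t := by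
    have h1 : b ⟨0, hn⟩ ≠ 0 := b.ne_zero _
    rw [hb] at h1
    rw [← ht (I ⟨0, hn⟩)]
    exact hpos _ h1
  have hn1 : (0 : ℚ) < n + 1 := by positivity
  have hsmall : ∀ s : Fin n → ℚ, (∀ i, |s i| < 1 / (n + 1)) →
      (∑ i, s i • e (I i)) ∈ Submodule.span ℤ (Set.range e) → (∑ i, s i • e (I i)) = 0 := by
    intro s hs hE
    by_contra hne
    have h1 := hmin _ hE hne
    have h2 := form_le B (fun i => e (I i)) t (fun i j => hcs _ _) s
    have h3 : ∑ i, |s i| ≤ n * (1 / (n + 1)) := by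
      refine (Finset.sum_le_sum fun i _ => (hs i).le).trans ?_
      rw [Finset.sum_const, Finset.card_univ, Fintype.card_fin, nsmul_eq_mul]
    have h4 : (n : ℚ) * (1 / (n + 1)) < 1 := by
      rw [mul_one_div, div_lt_one hn1]
      linarith
    have h5 : 0 ≤ ∑ i, |s i| := Finset.sum_nonneg fun i _ => abs_nonneg _
    have h6 : (∑ i, |s i|) ^ 2 < 1 := by nlinarith
    nlinarith
  -- the subgroup of the elements with integral coordinates
  let E : Submodule ℤ V := Submodule.span ℤ (Set.range e)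
  let E0 : AddSubgroup E :=
    { carrier := {w | ∀ i, ∃ z : ℤ, b.repr (w : V) i = z}
      zero_mem' := fun i => ⟨0, by simp⟩
      add_mem' := by
        intro v w hv hw i
        obtain ⟨y, hy⟩ := hv i
        obtain ⟨z, hz⟩ := hw i
        refine ⟨y + z, ?_⟩
        rw [Submodule.coe_add, map_add, Finsupp.add_apply, hy, hz]
        push_cast
        rfl
      neg_mem' := by
        intro v hv i
        obtain ⟨y, hy⟩ := hv i
        refine ⟨-y, ?_⟩
        rw [Submodule.coe_neg, map_neg, Finsupp.neg_apply, hy]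
        push_cast
        rfl }
  have hE0 : ∀ w : E, w ∈ E0 ↔ ∀ i, ∃ z : ℤ, b.repr (w : V) i = z := fun w => Iff.rfl
  let f : E ⧸ E0 → (Fin n → Fin (n + 1)) := fun κ i =>
    ⟨⌊(n + 1) * Int.fract (b.repr (κ.out : V) i)⌋.toNat, by
      have h1 : ⌊(n + 1) * Int.fract (b.repr (κ.out : V) i)⌋ < (n + 1 : ℤ) := by
        rw [Int.floor_lt]
        push_cast
        have := Int.fract_lt_one (b.repr (κ.out : V) i)
        nlinarith
      omega⟩
  have hf : Function.Injective f := by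
    intro κ κ' h
    obtain ⟨w, hw⟩ : ∃ w : E, w = κ.out := ⟨_, rfl⟩
    obtain ⟨w', hw'⟩ : ∃ w' : E, w' = κ'.out := ⟨_, rfl⟩
    have h1 : ∀ i, ⌊(n + 1) * Int.fract (b.repr (w : V) i)⌋ =
        ⌊(n + 1) * Int.fract (b.repr (w' : V) i)⌋ := by
      intro i
      have h2 := congrArg Fin.val (congrFun h i)
      have h3 : ⌊(n + 1) * Int.fract (b.repr (κ.out : V) i)⌋.toNat =
        ⌊(n + 1) * Int.fract (b.repr (κ'.out : V) i)⌋.toNat := h2
      rw [← hw, ← hw'] at h3
      have h4 : 0 ≤ ⌊(n + 1) * Int.fract (b.repr (w : V) i)⌋ :=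
        Int.floor_nonneg.2 (mul_nonneg hn1.le (Int.fract_nonneg _))
      have h5 : 0 ≤ ⌊(n + 1) * Int.fract (b.repr (w' : V) i)⌋ :=
        Int.floor_nonneg.2 (mul_nonneg hn1.le (Int.fract_nonneg _))
      omega
    obtain ⟨s, hs⟩ : ∃ s : Fin n → ℚ, s = fun i =>
      Int.fract (b.repr (w : V) i) - Int.fract (b.repr (w' : V) i) := ⟨_, rfl⟩
    have h2 : ∀ i, |s i| < 1 / (n + 1) := by
      intro i
      have h3 := Int.abs_sub_lt_one_of_floor_eq_floor (h1 i)
      have h4 : (n + 1) * Int.fract (b.repr (w : V) i) - (n + 1) * Int.fract (b.repr (w' : V) i) =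
        (n + 1) * s i := by rw [hs]; ring
      rw [h4, abs_mul, abs_of_pos hn1] at h3
      rw [lt_div_iff₀ hn1, mul_comm]
      exact h3
    have h3 : ∑ i, s i • e (I i) = (w : V) - w' -
        ∑ i, (⌊b.repr (w : V) i⌋ - ⌊b.repr (w' : V) i⌋) • e (I i) := by
      conv_rhs => rw [← b.sum_repr (w : V), ← b.sum_repr (w' : V)]
      rw [← Finset.sum_sub_distrib, ← Finset.sum_sub_distrib]
      refine Finset.sum_congr rfl fun i _ => ?_
      rw [hb, hs, b.sum_repr, b.sum_repr]
      have h4 : ((⌊b.repr (w : V) i⌋ - ⌊b.repr (w' : V) i⌋ : ℤ)) • e (I i) =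
          ((⌊b.repr (w : V) i⌋ : ℚ) - (⌊b.repr (w' : V) i⌋ : ℚ)) • e (I i) := by
        rw [← Int.cast_sub, Int.cast_smul_eq_zsmul]
      rw [h4, ← sub_smul, ← sub_smul]
      congr 1
      unfold Int.fract
      ring
    have h4 : ∑ i, s i • e (I i) ∈ Submodule.span ℤ (Set.range e) := by
      rw [h3]
      refine Submodule.sub_mem _ (Submodule.sub_mem _ w.2 w'.2) (Submodule.sum_mem _ fun i _ => ?_)
      exact Submodule.smul_mem _ _ (Submodule.subset_span ⟨I i, rfl⟩)
    have h5 := hsmall s h2 h4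
    have h6 : ∀ i, s i = 0 := by
      have h7 : ∑ i, s i • b i = 0 := by
        rw [← h5]
        exact Finset.sum_congr rfl fun i _ => by rw [hb]
      exact fun i => Fintype.linearIndependent_iff.1 b.linearIndependent s h7 i
    have h7 : -w + w' ∈ E0 := by
      rw [hE0]
      intro i
      refine ⟨⌊b.repr (w' : V) i⌋ - ⌊b.repr (w : V) i⌋, ?_⟩
      have h8 := h6 i
      rw [hs] at h8
      have h9 : Int.fract (b.repr (w : V) i) - Int.fract (b.repr (w' : V) i) = 0 := h8
      unfold Int.fract at h9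
      rw [Submodule.coe_add, Submodule.coe_neg, map_add, map_neg, Finsupp.add_apply,
        Finsupp.neg_apply]
      push_cast
      linarith
    have h8 : (QuotientAddGroup.mk w : E ⧸ E0) = QuotientAddGroup.mk w' :=
      QuotientAddGroup.eq.2 h7
    have h9 : (QuotientAddGroup.mk w : E ⧸ E0) = κ := by
      rw [hw]
      exact QuotientAddGroup.out_eq' κ
    have h10 : (QuotientAddGroup.mk w' : E ⧸ E0) = κ' := by
      rw [hw']
      exact QuotientAddGroup.out_eq' κ'
    rw [← h9, ← h10, h8]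
  have : Finite (E ⧸ E0) := Finite.of_injective f hf
  have : Fintype (E ⧸ E0) := Fintype.ofFinite _
  have hcard : Fintype.card (E ⧸ E0) ≤ (n + 1) ^ n := by
    have := Fintype.card_le_of_injective f hf
    rwa [Fintype.card_fun, Fintype.card_fin, Fintype.card_fin] at this
  -- the functionals
  let φ : (Fin n → Fin (n + 2)) → V →ₗ[ℚ] ℚ := fun m => b.constr ℚ fun i => ((m i : ℕ) : ℚ)
  have hφ : ∀ m v, φ m v = ∑ i, b.repr v i * ((m i : ℕ) : ℚ) := fun m v => by
    show b.constr ℚ (fun i => ((m i : ℕ) : ℚ)) v = _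
    rw [Basis.constr_apply_fintype]
    rfl
  have hint : ∀ m, ∀ w ∈ E0, ∃ z : ℤ,
      ((φ m).toAddMonoidHom.comp E.subtype.toAddMonoidHom) w = z := by
    intro m w hw
    choose z hz using (hE0 w).1 hw
    refine ⟨∑ i, z i * (m i : ℕ), ?_⟩
    show φ m (w : V) = _
    rw [hφ]
    push_cast
    exact Finset.sum_congr rfl fun i _ => by rw [hz]
  obtain ⟨m, m', hmm, hchr⟩ := Fintype.exists_ne_map_eq_of_card_lt
    (fun m => chr E0 ((φ m).toAddMonoidHom.comp E.subtype.toAddMonoidHom) (hint m)) (by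
      rw [AddChar.card_eq, Fintype.card_fun, Fintype.card_fin, Fintype.card_fin]
      exact lt_of_le_of_lt hcard (Nat.pow_lt_pow_left (by omega) (by omega)))
  have hI : ∀ x, ∃ z : ℤ, (φ m - φ m') (e x) = z := by
    intro x
    obtain ⟨z, hz⟩ := chr_eq E0 _ _ (hint m) (hint m') hchr ⟨e x, Submodule.subset_span ⟨x, rfl⟩⟩
    exact ⟨z, hz⟩
  choose F hF using hI
  refine ⟨φ m - φ m', F, ?_, hF, fun x => ?_⟩
  · intro h
    apply hmm
    funext i
    have h1 : (φ m - φ m') (b i) = 0 := by rw [h]; rfl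
    have h2 : ∀ m : Fin n → Fin (n + 2), φ m (b i) = ((m i : ℕ) : ℚ) := fun m =>
      b.constr_basis ℚ _ i
    rw [LinearMap.sub_apply, h2, h2, sub_eq_zero] at h1
    exact Fin.ext (by exact_mod_cast h1)
  · have h1 : |(F x : ℚ)| ≤ n * (n + 1) := by
      rw [← hF, LinearMap.sub_apply, hφ, hφ, ← Finset.sum_sub_distrib]
      refine (Finset.abs_sum_le_sum_abs _ _).trans ?_
      have h2 : ∀ i ∈ (Finset.univ : Finset (Fin n)),
          |b.repr (e x) i * ((m i : ℕ) : ℚ) - b.repr (e x) i * ((m' i : ℕ) : ℚ)| ≤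
            (n + 1 : ℚ) := by
        intro i _
        rw [← mul_sub, abs_mul]
        have h3 : |((m i : ℕ) : ℚ) - ((m' i : ℕ) : ℚ)| ≤ n + 1 := by
          have h4 : ((m i : ℕ) : ℚ) ≤ n + 1 := by exact_mod_cast Nat.lt_succ_iff.1 (m i).2
          have h5 : ((m' i : ℕ) : ℚ) ≤ n + 1 := by exact_mod_cast Nat.lt_succ_iff.1 (m' i).2
          have h6 : (0 : ℚ) ≤ ((m i : ℕ) : ℚ) := Nat.cast_nonneg _
          have h7 : (0 : ℚ) ≤ ((m' i : ℕ) : ℚ) := Nat.cast_nonneg _
          rw [abs_le]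
          constructor <;> linarith
        calc |b.repr (e x) i| * |((m i : ℕ) : ℚ) - ((m' i : ℕ) : ℚ)| ≤ 1 * (n + 1) :=
              mul_le_mul (hc x i) h3 (abs_nonneg _) zero_le_one
          _ = n + 1 := one_mul _
      refine (Finset.sum_le_sum h2).trans ?_
      rw [Finset.sum_const, Finset.card_univ, Fintype.card_fin, nsmul_eq_mul]
    exact_mod_cast h1

end Pool.Agent.Lib.MP_938ce2_ag_K
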