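import Mathlib
import Pool.Agent.Lib.MP_938ce2_ag_h67.Red
import Pool.Agent.Lib.MP_938ce2_ag_K.X1

/-!
Row X2 (180 lines): a copy of a simple module of functions which contains a function with small integral values.
Uses row X1 (`small_int`).

RECIPE. Inner product on `N`: `B v w = ∑ x, ev v x * ev w x` (invariant, symmetric, positive). For `x : Ω` there is
`w x ∈ N` with `B (w x) v = ev v x` for all `v ∈ N` (nondegenerate form on a finite dimensional space), and
`single σ 1 • w x = w (σ • x)` (uniqueness). Let `E = span ℤ (range w)`, stable under the group. The values `B (w x) (w y)`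
have a common denominator `k`, so `k * B u u` is a natural number for `u ∈ E`; choose `u ∈ E`, `u ≠ 0` (`w x ≠ 0` for some
`x` since `N ≠ 0`), with `B u u` minimal (well founded). Fix `y₀ : Ω`; every `y` is `σ y • y₀` for exactly one `σ y` (free
and transitive). Put `e y = single (σ y) 1 • u`. The hypotheses of `small_int` for `V = N`: the `e y` span over ℚ (the
span is a nonzero submodule of the simple `N`), `B (e y) (e y) = B u u =: t`, the `ℤ`-span is in `E`. We get
`φ ≠ 0` and `F`; `φ v = B a v` for some `a ∈ N`, `a ≠ 0`. Let `ι : N → VV ℚ P Ω`, `ev (ι v) y = B v (e y)`: it is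
equivariant (`B (τ v) (σ u) = B v (τ⁻¹ σ u)`, `e (τ⁻¹ • y) = τ⁻¹ • e y`; `MonoidAlgebra.equivariantOfLinearOfComm`),
injective (`N` simple, `ι ≠ 0` because `ev (ι u) y₀ = B u u > 0`), `N' = range ι`, and `ι a = mkV P (F : Ω → ℚ)`; `F ≠ 0`
because `ι a ≠ 0`. `finrank ℚ N ≥ 1`.
-/

set_option autoImplicit false
set_option linter.unusedSectionVars false

namespace Pool.Agent.Lib.MP_938ce2_ag_K

open Finset Module MonoidAlgebra
open Pool.Agent.Lib.MP_938ce2_ag_h67 (VV ev mkV)

section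

variable {P Ω : Type} [Group P] [Fintype P] [MulAction P Ω] [Fintype Ω] [DecidableEq Ω]

/-- the inner product on a submodule -/
private noncomputable def bil (N : Submodule (MonoidAlgebra ℚ P) (VV ℚ P Ω)) :
    N →ₗ[ℚ] N →ₗ[ℚ] ℚ :=
  LinearMap.mk₂ ℚ (fun v w => ∑ x, ev (v : VV ℚ P Ω) x * ev (w : VV ℚ P Ω) x)
    (by
      intro v v' w
      rw [← Finset.sum_add_distrib]
      refine Finset.sum_congr rfl fun x _ => ?_
      have h : ev ((v + v' : N) : VV ℚ P Ω) x = ev (v : VV ℚ P Ω) x + ev (v' : VV ℚ P Ω) x := rfl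
      rw [h, add_mul])
    (by
      intro c v w
      rw [smul_eq_mul, Finset.mul_sum]
      refine Finset.sum_congr rfl fun x _ => ?_
      have h : ev ((c • v : N) : VV ℚ P Ω) x = c * ev (v : VV ℚ P Ω) x := rfl
      rw [h, mul_assoc])
    (by
      intro v w w'
      rw [← Finset.sum_add_distrib]
      refine Finset.sum_congr rfl fun x _ => ?_
      have h : ev ((w + w' : N) : VV ℚ P Ω) x = ev (w : VV ℚ P Ω) x + ev (w' : VV ℚ P Ω) x := rfl
      rw [h, mul_add])
    (by
      intro c v w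
      rw [smul_eq_mul, Finset.mul_sum]
      refine Finset.sum_congr rfl fun x _ => ?_
      have h : ev ((c • w : N) : VV ℚ P Ω) x = c * ev (w : VV ℚ P Ω) x := rfl
      rw [h, mul_left_comm])

variable (N : Submodule (MonoidAlgebra ℚ P) (VV ℚ P Ω))

private lemma bil_apply (v w : N) :
    bil N v w = ∑ x, ev (v : VV ℚ P Ω) x * ev (w : VV ℚ P Ω) x := rfl

private lemma bil_symm (v w : N) : bil N v w = bil N w v := by
  rw [bil_apply, bil_apply]
  exact Finset.sum_congr rfl fun x _ => mul_comm _ _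

private lemma bil_pos (v : N) (hv : v ≠ 0) : 0 < bil N v v := by
  have h0 : ∃ x, ev (v : VV ℚ P Ω) x ≠ 0 := by
    by_contra hcon
    push Not at hcon
    exact hv (Subtype.ext (Pool.Agent.Lib.MP_938ce2_ag_h67.ev_ext fun x => hcon x))
  obtain ⟨x, hx⟩ := h0
  rw [bil_apply]
  exact Finset.sum_pos' (fun y _ => mul_self_nonneg _) ⟨x, Finset.mem_univ x,
    mul_self_pos.2 hx⟩

private lemma ev_single_coe (σ : P) (v : N) (x : Ω) :
    ev ((MonoidAlgebra.single σ (1 : ℚ) • v : N) : VV ℚ P Ω) x = ev (v : VV ℚ P Ω) (σ⁻¹ • x) := by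
  have h := Pool.Agent.Lib.MP_938ce2_ag_h67.ev_single σ (1 : ℚ) (v : VV ℚ P Ω) x
  rw [one_mul] at h
  exact h

private lemma bil_smul (σ : P) (v w : N) :
    bil N (MonoidAlgebra.single σ (1 : ℚ) • v) (MonoidAlgebra.single σ (1 : ℚ) • w) =
      bil N v w := by
  rw [bil_apply, bil_apply, ← Equiv.sum_comp (MulAction.toPerm σ)]
  refine Finset.sum_congr rfl fun x _ => ?_
  rw [MulAction.toPerm_apply, ev_single_coe, ev_single_coe, inv_smul_smul]

private lemma single_inv (σ : P) (v : N) :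
    MonoidAlgebra.single σ (1 : ℚ) • (MonoidAlgebra.single σ⁻¹ (1 : ℚ) • v) = v := by
  rw [smul_smul, MonoidAlgebra.single_mul_single, mul_inv_cancel, one_mul]
  exact one_smul _ v

private lemma bil_adj (σ : P) (v w : N) :
    bil N (MonoidAlgebra.single σ (1 : ℚ) • v) w =
      bil N v (MonoidAlgebra.single σ⁻¹ (1 : ℚ) • w) := by
  rw [← bil_smul N σ v, single_inv]

private lemma bil_surj (φ : N →ₗ[ℚ] ℚ) : ∃ a : N, ∀ v, bil N a v = φ v := by
  have hfin : Module.Finite ℚ N := inferInstanceAs (Module.Finite ℚ (N.restrictScalars ℚ))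
  have hinj : Function.Injective (bil N : N →ₗ[ℚ] Module.Dual ℚ N) := by
    rw [injective_iff_map_eq_zero]
    intro v hv
    by_contra h0
    have h1 := bil_pos N v h0
    have h2 : bil N v v = 0 := by rw [hv]; rfl
    exact absurd h2 h1.ne'
  have hsurj : Function.Surjective (bil N : N →ₗ[ℚ] Module.Dual ℚ N) :=
    (LinearMap.injective_iff_surjective_of_finrank_eq_finrank
      (Subspace.dual_finrank_eq).symm).1 hinj
  obtain ⟨a, ha⟩ := hsurj φ
  exact ⟨a, fun v => by rw [ha]⟩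

/-- the module generated by an element -/
private lemma mem_span_orbit (u : N) (r : MonoidAlgebra ℚ P) :
    r • u ∈ Submodule.span ℚ (Set.range fun σ : P => MonoidAlgebra.single σ (1 : ℚ) • u) := by
  induction r using MonoidAlgebra.induction_linear with
  | zero => rw [zero_smul]; exact Submodule.zero_mem _
  | add f g hf hg => rw [add_smul]; exact Submodule.add_mem _ hf hg
  | single σ a =>
    have h : (MonoidAlgebra.single σ a : MonoidAlgebra ℚ P) • u =
        a • (MonoidAlgebra.single σ (1 : ℚ) • u) := by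
      rw [← smul_assoc, MonoidAlgebra.smul_single, smul_eq_mul, mul_one]
    rw [h]
    exact Submodule.smul_mem _ _ (Submodule.subset_span ⟨σ, rfl⟩)

/-- A common denominator. -/
private lemma exists_denom (w : Ω → N) : ∃ k : ℕ, 0 < k ∧
    ∀ u ∈ Submodule.span ℤ (Set.range w), ∃ m : ℕ, (m : ℚ) = k * bil N u u := by
  obtain ⟨b, hb⟩ := IsLocalization.exist_integer_multiples_of_finite
    (nonZeroDivisors ℤ) (fun p : Ω × Ω => bil N (w p.1) (w p.2))
  have hb0 : ((b : ℤ) : ℚ) ≠ 0 := by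
    exact_mod_cast nonZeroDivisors.ne_zero b.2
  have h1 : ∀ x y, ∃ m : ℤ, (m : ℚ) = (b : ℤ) * bil N (w x) (w y) := by
    intro x y
    obtain ⟨m, hm⟩ := hb (x, y)
    refine ⟨m, ?_⟩
    have h3 : (algebraMap ℤ ℚ) m = (m : ℚ) := rfl
    rw [← h3, hm, zsmul_eq_mul]
  have h2 : ∀ u ∈ Submodule.span ℤ (Set.range w), ∀ y, ∃ m : ℤ,
      (m : ℚ) = (b : ℤ) * bil N u (w y) := by
    intro u hu y
    induction hu using Submodule.span_induction with
    | mem x hx =>
      obtain ⟨x, rfl⟩ := hx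
      exact h1 x y
    | zero => exact ⟨0, by rw [map_zero, LinearMap.zero_apply, mul_zero, Int.cast_zero]⟩
    | add u v _ _ hu hv =>
      obtain ⟨m, hm⟩ := hu
      obtain ⟨m', hm'⟩ := hv
      exact ⟨m + m', by rw [map_add, LinearMap.add_apply, mul_add, ← hm, ← hm', Int.cast_add]⟩
    | smul c u _ hu =>
      obtain ⟨m, hm⟩ := hu
      refine ⟨c * m, ?_⟩
      rw [map_zsmul, LinearMap.smul_apply, zsmul_eq_mul, mul_left_comm, ← hm, Int.cast_mul]
  have h3 : ∀ u ∈ Submodule.span ℤ (Set.range w), ∀ v ∈ Submodule.span ℤ (Set.range w),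
      ∃ m : ℤ, (m : ℚ) = (b : ℤ) * bil N u v := by
    intro u hu v hv
    induction hv using Submodule.span_induction with
    | mem x hx =>
      obtain ⟨x, rfl⟩ := hx
      exact h2 u hu x
    | zero => exact ⟨0, by rw [map_zero, mul_zero, Int.cast_zero]⟩
    | add v v' _ _ hv hv' =>
      obtain ⟨m, hm⟩ := hv
      obtain ⟨m', hm'⟩ := hv'
      exact ⟨m + m', by rw [map_add, mul_add, ← hm, ← hm', Int.cast_add]⟩
    | smul c v _ hv =>
      obtain ⟨m, hm⟩ := hv
      refine ⟨c * m, ?_⟩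
      rw [map_zsmul, zsmul_eq_mul, mul_left_comm, ← hm, Int.cast_mul]
  refine ⟨(b : ℤ).natAbs, Int.natAbs_pos.2 (nonZeroDivisors.ne_zero b.2), fun u hu => ?_⟩
  obtain ⟨m, hm⟩ := h3 u hu u hu
  refine ⟨m.natAbs, ?_⟩
  have h4 : 0 ≤ bil N u u := by
    by_cases h0 : u = 0
    · rw [h0, map_zero]
    · exact (bil_pos N u h0).le
  rw [Nat.cast_natAbs, Nat.cast_natAbs, Int.cast_abs, hm, abs_mul, abs_of_nonneg h4, Int.cast_abs]

end

theorem small_fun {P Ω : Type} [Group P] [Fintype P] [MulAction P Ω] [Fintype Ω] [DecidableEq Ω]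
    [MulAction.IsPretransitive P Ω] (hfree : ∀ (σ : P) (x : Ω), σ • x = x → σ = 1)
    (N : Submodule (MonoidAlgebra ℚ P) (VV ℚ P Ω)) (hN : IsSimpleModule (MonoidAlgebra ℚ P) N) :
    ∃ (N' : Submodule (MonoidAlgebra ℚ P) (VV ℚ P Ω)) (F : Ω → ℤ),
      Nonempty (N ≃ₗ[MonoidAlgebra ℚ P] N') ∧ F ≠ 0 ∧ mkV P (fun y => (F y : ℚ)) ∈ N' ∧
      ∀ y, |F y| ≤ (finrank ℚ N : ℤ) * (finrank ℚ N + 1) := by
  have hfin : Module.Finite ℚ N := inferInstanceAs (Module.Finite ℚ (N.restrictScalars ℚ))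
  have hnt : Nontrivial N := hN.nontrivial
  -- the vectors which give the values
  let evl : Ω → (N →ₗ[ℚ] ℚ) := fun x =>
    { toFun := fun v => ev (v : VV ℚ P Ω) x
      map_add' := fun _ _ => rfl
      map_smul' := fun _ _ => rfl }
  choose w hw using fun x => bil_surj N (evl x)
  have hw' : ∀ x v, bil N (w x) v = ev (v : VV ℚ P Ω) x := hw
  have hwσ : ∀ (σ : P) (x : Ω), MonoidAlgebra.single σ (1 : ℚ) • w x = w (σ • x) := by
    intro σ x
    have h1 : bil N (MonoidAlgebra.single σ (1 : ℚ) • w x) = bil N (w (σ • x)) := by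
      apply LinearMap.ext
      intro v
      rw [bil_adj, hw', hw', ev_single_coe, inv_inv]
    have h2 : bil N (MonoidAlgebra.single σ (1 : ℚ) • w x - w (σ • x)) = 0 := by
      rw [map_sub, h1, sub_self]
    by_contra h0
    have h3 := bil_pos N _ (sub_ne_zero.2 h0)
    rw [h2] at h3
    exact absurd rfl h3.ne
  set E : Submodule ℤ N := Submodule.span ℤ (Set.range w) with hE
  have hEσ : ∀ (σ : P), ∀ u ∈ E, MonoidAlgebra.single σ (1 : ℚ) • u ∈ E := by
    intro σ u hu
    induction hu using Submodule.span_induction with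
    | mem x hx =>
      obtain ⟨x, rfl⟩ := hx
      rw [hwσ]
      exact Submodule.subset_span ⟨_, rfl⟩
    | zero => rw [smul_zero]; exact E.zero_mem
    | add u v _ _ hu hv => rw [smul_add]; exact E.add_mem hu hv
    | smul c u _ hu =>
      rw [smul_comm]
      exact E.smul_mem c hu
  obtain ⟨k, hk, hden⟩ := exists_denom N w
  have hkQ : (0 : ℚ) < k := by exact_mod_cast hk
  -- a nonzero element of `E`
  have hne : ∃ u ∈ E, u ≠ 0 := by
    by_contra hcon
    push Not at hcon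
    obtain ⟨v, hv⟩ := exists_ne (0 : N)
    refine hv (Subtype.ext (Pool.Agent.Lib.MP_938ce2_ag_h67.ev_ext fun x => ?_))
    have h1 := hw' x v
    rw [hcon (w x) (Submodule.subset_span ⟨x, rfl⟩), map_zero, LinearMap.zero_apply] at h1
    exact h1.symm
  have hS : ∃ m : ℕ, ∃ u ∈ E, u ≠ 0 ∧ (m : ℚ) = k * bil N u u := by
    obtain ⟨u, hu, hu0⟩ := hne
    obtain ⟨m, hm⟩ := hden u hu
    exact ⟨m, u, hu, hu0, hm⟩
  classical
  obtain ⟨u, hu, hu0, hum⟩ := Nat.find_spec hS
  have hmin : ∀ v ∈ E, v ≠ 0 → bil N u u ≤ bil N v v := by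
    intro v hv hv0
    obtain ⟨m, hm⟩ := hden v hv
    have h1 : Nat.find hS ≤ m := Nat.find_min' hS ⟨v, hv, hv0, hm⟩
    have h2 : (Nat.find hS : ℚ) ≤ m := by exact_mod_cast h1
    rw [hum, hm] at h2
    exact le_of_mul_le_mul_left h2 hkQ
  -- a base point
  have hΩ : Nonempty Ω := by
    by_contra h0
    rw [not_nonempty_iff] at h0
    exact hu0 (Subtype.ext (Pool.Agent.Lib.MP_938ce2_ag_h67.ev_ext fun x => h0.elim x))
  obtain ⟨y₀⟩ := hΩ
  choose σ hσ using fun y : Ω => MulAction.exists_smul_eq P y₀ y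
  have hσu : ∀ (τ : P) (y : Ω), τ • y₀ = y → τ = σ y := by
    intro τ y h
    have h1 : ((σ y)⁻¹ * τ) • y₀ = y₀ := by
      rw [mul_smul, h, inv_smul_eq_iff, hσ]
    have h2 := hfree _ _ h1
    exact (inv_mul_eq_one.1 h2).symm
  set e : Ω → N := fun y => MonoidAlgebra.single (σ y) (1 : ℚ) • u with he
  have heτ : ∀ (τ : P) (y : Ω), MonoidAlgebra.single τ (1 : ℚ) • e y = e (τ • y) := by
    intro τ y
    have h1 : τ * σ y = σ (τ • y) := hσu _ _ (by rw [mul_smul, hσ])
    rw [he]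
    change MonoidAlgebra.single τ (1 : ℚ) • (MonoidAlgebra.single (σ y) (1 : ℚ) • u) = _
    rw [smul_smul, MonoidAlgebra.single_mul_single, one_mul, h1]
  have heE : ∀ y, e y ∈ E := fun y => hEσ _ _ hu
  have hspan : Submodule.span ℚ (Set.range e) = ⊤ := by
    rw [eq_top_iff]
    intro v _
    have h1 : Submodule.span (MonoidAlgebra ℚ P) {u} = ⊤ := by
      rcases eq_bot_or_eq_top (Submodule.span (MonoidAlgebra ℚ P) {u}) with h | h
      · exact absurd (Submodule.span_singleton_eq_bot.1 h) hu0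
      · exact h
    have h2 : v ∈ Submodule.span (MonoidAlgebra ℚ P) {u} := by rw [h1]; trivial
    obtain ⟨r, rfl⟩ := Submodule.mem_span_singleton.1 h2
    refine Submodule.span_mono ?_ (mem_span_orbit N u r)
    rintro _ ⟨τ, rfl⟩
    refine ⟨τ • y₀, ?_⟩
    change MonoidAlgebra.single (σ (τ • y₀)) (1 : ℚ) • u = _
    rw [← hσu τ (τ • y₀) rfl]
  obtain ⟨φ, F, hφ0, hφF, hFle⟩ := small_int (bil N) (bil_symm N) (bil_pos N) e hspan (bil N u u)
    (fun x => bil_smul N _ _ _)
    (fun v hv hv0 => hmin v (Submodule.span_le.2 (by rintro _ ⟨y, rfl⟩; exact heE y) hv) hv0)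
    Module.finrank_pos
  obtain ⟨a, ha⟩ := bil_surj N φ
  -- the embedding
  let ι₀ : N →ₗ[ℚ] VV ℚ P Ω :=
    { toFun := fun v => mkV P (fun y => bil N v (e y))
      map_add' := by
        intro v v'
        apply Pool.Agent.Lib.MP_938ce2_ag_h67.ev_ext
        intro y
        rw [Pool.Agent.Lib.MP_938ce2_ag_h67.ev_add, Pool.Agent.Lib.MP_938ce2_ag_h67.ev_mkV,
          Pool.Agent.Lib.MP_938ce2_ag_h67.ev_mkV, Pool.Agent.Lib.MP_938ce2_ag_h67.ev_mkV,
          map_add, LinearMap.add_apply]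
      map_smul' := by
        intro c v
        apply Pool.Agent.Lib.MP_938ce2_ag_h67.ev_ext
        intro y
        rw [RingHom.id_apply, Pool.Agent.Lib.MP_938ce2_ag_h67.ev_smul,
          Pool.Agent.Lib.MP_938ce2_ag_h67.ev_mkV, Pool.Agent.Lib.MP_938ce2_ag_h67.ev_mkV,
          (bil N).map_smul, LinearMap.smul_apply, smul_eq_mul] }
  have hι₀ : ∀ v y, ev (ι₀ v) y = bil N v (e y) := fun v y => rfl
  let ι : N →ₗ[MonoidAlgebra ℚ P] VV ℚ P Ω :=
    MonoidAlgebra.equivariantOfLinearOfComm ι₀ (by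
      intro τ v
      apply Pool.Agent.Lib.MP_938ce2_ag_h67.ev_ext
      intro y
      rw [Pool.Agent.Lib.MP_938ce2_ag_h67.ev_single, one_mul, hι₀, hι₀, bil_adj, heτ])
  have hι : ∀ v y, ev (ι v) y = bil N v (e y) := fun v y => rfl
  have hιinj : Function.Injective ι := by
    rcases LinearMap.injective_or_eq_zero ι with h | h
    · exact h
    · exfalso
      have h1 := hι (e y₀) y₀
      rw [h] at h1
      have h2 : bil N (e y₀) (e y₀) = bil N u u := bil_smul N _ _ _
      have h3 := bil_pos N u hu0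
      rw [← h2, ← h1] at h3
      exact absurd rfl h3.ne
  refine ⟨LinearMap.range ι, F, ⟨LinearEquiv.ofInjective ι hιinj⟩, ?_, ⟨a, ?_⟩, hFle⟩
  · intro hF0
    refine hφ0 (LinearMap.ext_on hspan ?_)
    rintro _ ⟨x, rfl⟩
    rw [hφF, hF0, Pi.zero_apply, Int.cast_zero]
    rfl
  · apply Pool.Agent.Lib.MP_938ce2_ag_h67.ev_ext
    intro y
    rw [hι, ha, hφF, Pool.Agent.Lib.MP_938ce2_ag_h67.ev_mkV]

end Pool.Agent.Lib.MP_938ce2_ag_K
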