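import Mathlib
import Pool.Agent.Lib.MP_938ce2_ag_h67.Red
import Pool.Agent.Lib.MP_938ce2_ag_u2.Defs
import Pool.Agent.Lib.MP_938ce2_ag_K.K6a
import Pool.Agent.Lib.MP_938ce2_ag_K.K6b
import Pool.Agent.Lib.MP_938ce2_ag_K.X2

/-!
Row K6 (220 lines): the matrix of small integral functions which detects the orthogonality to a copy of an
absolutely simple module. Uses X2 (`small_fun`), K6a (`indep_of_simple`), K6b (`exists_rt`).

RECIPE. `n = finrank ℚ N`. Take `N'`, `F` from `small_fun` and `rt` from `exists_rt`. Let `v₀ = mkV P F ∈ N'`. The translates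
`single σ 1 • v₀` span `N'` (simple), choose `σ : Fin n → P` with `f i = single (σ i) 1 • v₀` a basis of `N'`
(`finrank ℚ N' = n`). The homomorphisms `T β : N' → VV ℚ P Ω`, `ev (T β v) y = ev v (rt β y)`, span
`H = Hom(N', VV ℚ P Ω)` over ℚ (`exists_rt`), and `finrank ℚ H = n`: `≤ n`: an element of `H` is determined by the functional
`v ↦ ev (ψ v) y₀` (transitivity), `≥ n`: the functional can be arbitrary (free action: `ev (ψ v) (σ • y₀) := l (single σ⁻¹ 1 • v)`).
Choose `β : Fin n → P` such that `T (β j)` is a basis of `H`. Put `h i j y = F ((σ i)⁻¹ • rt (β j) y)`, so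
`(h i j y : ℚ) = ev (T (β j) (f i)) y` and `|h i j y| ≤ n (n + 1)`. LINEAR INDEPENDENCE: if
`∑ a i j • T (β j) (f i) = 0` then `∑ j, T (β j) (∑ i, a i j • f i) = 0`, so `∑ i, a i j • f i = 0` for all `j` by `indep_of_simple`
(`finrank (N' →ₗ N') = 1`), so `a = 0`. ODD: `single c' 1` acts as `-1` on `N`, hence on `N'` and on the images of the `T (β j)`
(`hodd` says `ev v (c' • y) = - ev v y` for `v ∈ N`; transport by the isomorphism; you may use
`ev v (c'⁻¹ • y) = - ev v y` as well). DETERMINANT: let `N''` be a copy of `N` orthogonal to `w`; compose the isomorphisms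
`N' ≃ N ≃ N''` with the inclusion: a nonzero element `∑ a j • T (β j)` of `H`, `a ≠ 0`, and
`0 = ∑ y, w y * ev (∑ a j • T (β j) (f i)) y = ∑ j, (∑ y, w y * h i j y) * a j` for all `i`: a nonzero kernel vector
(`Matrix.exists_mulVec_eq_zero_iff`), over ℚ, so the determinant over ℤ is zero.
-/

set_option autoImplicit false
set_option linter.unusedSectionVars false

namespace Pool.Agent.Lib.MP_938ce2_ag_K

open Finset Module MonoidAlgebra
open Pool.Agent.Lib.MP_938ce2_ag_h67 (VV ev mkV)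
open Pool.Agent.Lib.MP_938ce2_ag_u2 (OddM)

open Pool.Agent.Lib.MP_938ce2_ag_h67 (ev_ext ev_add ev_smul ev_single ev_mkV)

variable {P Ω : Type} [Group P] [Fintype P] [MulAction P Ω] [Fintype Ω] [DecidableEq Ω]

/-- The span over `ℚ` of the translates of a nonzero element of a simple module. -/
private lemma k6_span {V : Type} [AddCommGroup V] [Module ℚ V] [Module (MonoidAlgebra ℚ P) V]
    [IsScalarTower ℚ (MonoidAlgebra ℚ P) V] (hV : IsSimpleModule (MonoidAlgebra ℚ P) V) (v : V)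
    (hv : v ≠ 0) :
    Submodule.span ℚ (Set.range fun σ : P => single σ (1 : ℚ) • v) = ⊤ := by
  rw [eq_top_iff]
  intro x _
  obtain ⟨r, hr⟩ := IsSimpleModule.toSpanSingleton_surjective (MonoidAlgebra ℚ P) hv x
  rw [LinearMap.toSpanSingleton_apply] at hr
  rw [← hr]
  refine MonoidAlgebra.induction_on (motive := fun r : MonoidAlgebra ℚ P => r • v ∈
    Submodule.span ℚ (Set.range fun σ : P => single σ (1 : ℚ) • v)) r ?_ ?_ ?_
  · intro σ
    exact Submodule.subset_span ⟨σ, rfl⟩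
  · intro f g hf hg
    rw [add_smul]
    exact Submodule.add_mem _ hf hg
  · intro a f hf
    rw [smul_assoc]
    exact Submodule.smul_mem _ a hf

/-- From a spanning family one can choose a basis. -/
private lemma k6_choose {ι V : Type} [AddCommGroup V] [Module ℚ V] [Module.Finite ℚ V] (f : ι → V)
    (hf : Submodule.span ℚ (Set.range f) = ⊤) (n : ℕ) (hn : finrank ℚ V = n) :
    ∃ σ : Fin n → ι, LinearIndependent ℚ (fun i => f (σ i)) ∧
      Submodule.span ℚ (Set.range fun i => f (σ i)) = ⊤ := by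
  obtain ⟨κ, a, -, hspan, hli⟩ := exists_linearIndependent' ℚ f
  rw [hf] at hspan
  let b : Basis κ ℚ V := Basis.mk hli hspan.ge
  have : Fintype κ := FiniteDimensional.fintypeBasisIndex b
  have hcard : Fintype.card κ = n := by rw [← hn, finrank_eq_card_basis b]
  let e : Fin n ≃ κ := (Fintype.equivFinOfCardEq hcard).symm
  refine ⟨fun i => a (e i), ?_, ?_⟩
  · exact hli.comp e e.injective
  · rw [← hspan]
    congr 1
    ext x
    constructor
    · rintro ⟨i, rfl⟩
      exact ⟨e i, rfl⟩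
    · rintro ⟨k, rfl⟩
      exact ⟨e.symm k, by simp⟩

/-- The dimension of the space of homomorphisms into the functions on a regular set. -/
private lemma k6_finrank_hom [MulAction.IsPretransitive P Ω]
    (hfree : ∀ (σ : P) (x : Ω), σ • x = x → σ = 1) (y₀ : Ω)
    (N : Submodule (MonoidAlgebra ℚ P) (VV ℚ P Ω)) :
    finrank ℚ (N →ₗ[MonoidAlgebra ℚ P] VV ℚ P Ω) = finrank ℚ N := by
  choose τ hτ using fun y : Ω => MulAction.exists_smul_eq P y₀ y
  have huniq : ∀ (σ : P) (y : Ω), σ • y₀ = y → σ = τ y := by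
    intro σ y h
    have h1 : ((τ y)⁻¹ * σ) • y₀ = y₀ := by
      rw [mul_smul, h, inv_smul_eq_iff, hτ]
    have h2 := hfree _ _ h1
    rw [inv_mul_eq_one] at h2
    exact h2.symm
  let Λ : (N →ₗ[MonoidAlgebra ℚ P] VV ℚ P Ω) →ₗ[ℚ] (N →ₗ[ℚ] ℚ) :=
    { toFun := fun ψ =>
        { toFun := fun v => ev (ψ v) y₀
          map_add' := fun v v' => by rw [map_add, ev_add]
          map_smul' := fun a v => by
            rw [LinearMap.map_smul_of_tower ψ a v, ev_smul, RingHom.id_apply, smul_eq_mul] }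
      map_add' := fun ψ ψ' => LinearMap.ext fun v => rfl
      map_smul' := fun a ψ => LinearMap.ext fun v => rfl }
  have hΛ : ∀ ψ v, Λ ψ v = ev (ψ v) y₀ := fun _ _ => rfl
  have hinj : Function.Injective Λ := by
    rw [injective_iff_map_eq_zero]
    intro ψ hψ
    refine LinearMap.ext fun v => ev_ext fun y => ?_
    have h1 := LinearMap.congr_fun hψ (single (τ y)⁻¹ (1 : ℚ) • v)
    rw [hΛ, map_smul, ev_single, one_mul, inv_inv, hτ] at h1
    rw [h1]
    rfl
  have hsurj : Function.Surjective Λ := by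
    intro l
    let g : N →ₗ[ℚ] VV ℚ P Ω :=
      { toFun := fun v => mkV P fun y => l (single (τ y)⁻¹ (1 : ℚ) • v)
        map_add' := fun v v' => ev_ext fun y => by
          rw [ev_add, ev_mkV, ev_mkV, ev_mkV, smul_add, map_add]
        map_smul' := fun a v => ev_ext fun y => by
          rw [RingHom.id_apply, ev_smul, ev_mkV, ev_mkV, smul_comm, map_smul, smul_eq_mul] }
    have hg : ∀ v y, ev (g v) y = l (single (τ y)⁻¹ (1 : ℚ) • v) := fun _ _ => rfl
    let ψ : N →ₗ[MonoidAlgebra ℚ P] VV ℚ P Ω := MonoidAlgebra.equivariantOfLinearOfComm g (by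
      intro σ v
      apply ev_ext
      intro y
      rw [ev_single, one_mul, hg, hg, ← mul_smul, MonoidAlgebra.single_mul_single, mul_one]
      have h1 : σ⁻¹ * τ y = τ (σ⁻¹ • y) := huniq _ _ (by rw [mul_smul, hτ])
      rw [← h1, mul_inv_rev, inv_inv])
    have hψ : ∀ v, ψ v = g v := fun _ => rfl
    refine ⟨ψ, LinearMap.ext fun v => ?_⟩
    rw [hΛ, hψ, hg, ← huniq 1 y₀ (one_smul _ _), inv_one, ← MonoidAlgebra.one_def, one_smul]
  rw [(LinearEquiv.ofBijective Λ ⟨hinj, hsurj⟩).finrank_eq]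
  exact Subspace.dual_finrank_eq

theorem exists_h {P Ω : Type} [Group P] [Fintype P] [MulAction P Ω] [Fintype Ω] [DecidableEq Ω]
    [MulAction.IsPretransitive P Ω] (hfree : ∀ (σ : P) (x : Ω), σ • x = x → σ = 1)
    (N : Submodule (MonoidAlgebra ℚ P) (VV ℚ P Ω)) (hN : IsSimpleModule (MonoidAlgebra ℚ P) N)
    (hE : finrank ℚ (N →ₗ[MonoidAlgebra ℚ P] N) = 1) (c' : P) (hodd : OddM c' N) (n : ℕ)
    (hn : finrank ℚ N = n) :
    ∃ h : Fin n → Fin n → Ω → ℤ, (∀ i j y, |h i j y| ≤ ((n * (n + 1) : ℕ) : ℤ)) ∧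
      (∀ i j y, h i j (c' • y) = - h i j y) ∧
      LinearIndependent ℚ (fun (p : Fin n × Fin n) (y : Ω) => (h p.1 p.2 y : ℚ)) ∧
      ∀ w : Ω → ℤ, (∃ N'' : Submodule (MonoidAlgebra ℚ P) (VV ℚ P Ω),
          Nonempty (N ≃ₗ[MonoidAlgebra ℚ P] N'') ∧ ∀ v ∈ N'', ∑ y, (w y : ℚ) * ev v y = 0) →
        (Matrix.of fun i j => ∑ y, w y * h i j y).det = 0 := by
  classical
  obtain ⟨N', F, ⟨e⟩, hF0, hFN, hFb⟩ := small_fun hfree N hN
  rw [hn] at hFb
  -- a point
  have hΩ : Nonempty Ω := by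
    by_contra hcon
    rw [not_nonempty_iff] at hcon
    exact hF0 (funext fun y => (hcon.false y).elim)
  obtain ⟨y₀⟩ := id hΩ
  obtain ⟨rt, hrt, -, hrt'⟩ := exists_rt (P := P) hfree
  have hN' : IsSimpleModule (MonoidAlgebra ℚ P) N' := IsSimpleModule.congr e.symm
  have hn' : finrank ℚ N' = n := by
    rw [← hn]
    exact ((e.restrictScalars ℚ).finrank_eq).symm
  have hE' : finrank ℚ (N' →ₗ[MonoidAlgebra ℚ P] N') = 1 := by
    rw [← hE]
    exact (Pool.Agent.Lib.MP_938ce2_ag_h67.finrank_hom_congr e e).symm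
  let v₀ : N' := ⟨mkV P (fun y => (F y : ℚ)), hFN⟩
  have hv₀ : v₀ ≠ 0 := by
    intro h
    apply hF0
    funext y
    have h1 : ev (v₀ : VV ℚ P Ω) y = 0 := by rw [h]; rfl
    have h2 : (F y : ℚ) = 0 := h1
    exact_mod_cast h2
  have hv₀ev : ∀ y, ev (v₀ : VV ℚ P Ω) y = (F y : ℚ) := fun _ => rfl
  have hfinN' : Module.Finite ℚ N' :=
    Module.Finite.of_injective (N'.subtype.restrictScalars ℚ) Subtype.val_injective
  -- the basis of `N'`
  obtain ⟨σ, hσli, -⟩ := k6_choose (fun σ : P => single σ (1 : ℚ) • v₀) (k6_span hN' v₀ hv₀) n hn'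
  -- the homomorphisms
  have hB : ∀ (β σ : P) (x y : Ω), (Matrix.of fun x y => if y = rt β x then (1 : ℚ) else 0)
      (σ • x) (σ • y) = (Matrix.of fun x y => if y = rt β x then (1 : ℚ) else 0) x y := by
    intro β σ x y
    rw [Matrix.of_apply, Matrix.of_apply, hrt]
    congr 1
    exact propext (smul_left_cancel_iff σ)
  let T : P → (N' →ₗ[MonoidAlgebra ℚ P] VV ℚ P Ω) := fun β =>
    (Pool.Agent.Lib.MP_938ce2_ag_h67.opM _ (hB β)).comp N'.subtype
  have hT : ∀ β v y, ev (T β v) y = ev (v : VV ℚ P Ω) (rt β y) := by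
    intro β v y
    have h1 : ev (T β v) y = ∑ z, (Matrix.of fun x y => if y = rt β x then (1 : ℚ) else 0) y z *
        ev (v : VV ℚ P Ω) z := Pool.Agent.Lib.MP_938ce2_ag_h67.ev_opM _ (hB β) _ _
    rw [h1, Finset.sum_eq_single (rt β y)]
    · rw [Matrix.of_apply, if_pos rfl, one_mul]
    · intro z _ hz
      rw [Matrix.of_apply, if_neg hz, zero_mul]
    · intro h
      exact absurd (Finset.mem_univ _) h
  have hsumT : ∀ {κ : Type} [Fintype κ] (a : κ → ℚ) (φ : κ → (N' →ₗ[MonoidAlgebra ℚ P] VV ℚ P Ω))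
      (v : N') (y : Ω), ev ((∑ k, a k • φ k) v) y = ∑ k, a k * ev (φ k v) y := by
    intro κ _ a φ v y
    rw [LinearMap.sum_apply, Pool.Agent.Lib.MP_938ce2_ag_h67.ev_sum]
    rfl
  have hTspan : Submodule.span ℚ (Set.range T) = ⊤ := by
    rw [eq_top_iff]
    intro ψ _
    obtain ⟨a, ha⟩ := hrt' N' ψ
    have h1 : ψ = ∑ β, a β • T β := by
      refine LinearMap.ext fun v => ev_ext fun y => ?_
      rw [ha, hsumT]
      exact Finset.sum_congr rfl fun β _ => by rw [hT]
    rw [h1]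
    exact Submodule.sum_mem _ fun β _ => Submodule.smul_mem _ _ (Submodule.subset_span ⟨β, rfl⟩)
  have hHn : finrank ℚ (N' →ₗ[MonoidAlgebra ℚ P] VV ℚ P Ω) = n := by
    rw [k6_finrank_hom hfree y₀ N', hn']
  have hHfin : Module.Finite ℚ (N' →ₗ[MonoidAlgebra ℚ P] VV ℚ P Ω) := by
    refine ⟨⟨(Set.finite_range T).toFinset, ?_⟩⟩
    rw [Set.Finite.coe_toFinset]
    exact hTspan
  obtain ⟨β, hβli, hβspan⟩ := k6_choose T hTspan n hHn
  -- the values
  have hval : ∀ i j y, ((F ((σ i)⁻¹ • rt (β j) y) : ℤ) : ℚ) =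
      ev (T (β j) (single (σ i) (1 : ℚ) • v₀)) y := by
    intro i j y
    rw [hT]
    show _ = ev (single (σ i) (1 : ℚ) • (v₀ : VV ℚ P Ω)) (rt (β j) y)
    rw [ev_single, one_mul, hv₀ev]
  have hoddN' : ∀ v : N', ∀ x, ev (v : VV ℚ P Ω) (c' • x) = - ev (v : VV ℚ P Ω) x := by
    intro v x
    have h1 : single c'⁻¹ (1 : ℚ) • e.symm v = - e.symm v := by
      apply Subtype.ext
      apply ev_ext
      intro z
      show ev (single c'⁻¹ (1 : ℚ) • ((e.symm v : N) : VV ℚ P Ω)) z =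
        - ev ((e.symm v : N) : VV ℚ P Ω) z
      rw [ev_single, one_mul, inv_inv]
      exact hodd _ (e.symm v).2 z
    have h2 : single c'⁻¹ (1 : ℚ) • v = - v := by
      have h3 := congrArg e h1
      rwa [map_smul, map_neg, LinearEquiv.apply_symm_apply] at h3
    have h3 : ev (single c'⁻¹ (1 : ℚ) • (v : VV ℚ P Ω)) x = - ev (v : VV ℚ P Ω) x := by
      have h4 := congrArg (fun t : N' => ev (t : VV ℚ P Ω) x) h2
      exact h4
    rwa [ev_single, one_mul, inv_inv] at h3
  refine ⟨fun i j y => F ((σ i)⁻¹ • rt (β j) y), ?_, ?_, ?_, ?_⟩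
  · intro i j y
    have h1 := hFb ((σ i)⁻¹ • rt (β j) y)
    push_cast
    exact h1
  · intro i j y
    have h1 : ((F ((σ i)⁻¹ • rt (β j) (c' • y)) : ℤ) : ℚ) =
        ((- F ((σ i)⁻¹ • rt (β j) y) : ℤ) : ℚ) := by
      rw [hval, Int.cast_neg, hval, hT, hT, hrt]
      exact hoddN' _ _
    exact_mod_cast h1
  · rw [Fintype.linearIndependent_iff]
    intro a ha
    have h1 : ∑ j, T (β j) (∑ i, a (i, j) • (single (σ i) (1 : ℚ) • v₀)) = 0 := by
      apply ev_ext
      intro y
      rw [Pool.Agent.Lib.MP_938ce2_ag_h67.ev_sum]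
      have h2 := congrFun ha y
      rw [Finset.sum_apply] at h2
      simp only [Pi.smul_apply, smul_eq_mul, hval, Pi.zero_apply] at h2
      rw [Fintype.sum_prod_type_right] at h2
      rw [show ev (0 : VV ℚ P Ω) y = 0 from rfl, ← h2]
      refine Finset.sum_congr rfl fun j _ => ?_
      rw [map_sum, Pool.Agent.Lib.MP_938ce2_ag_h67.ev_sum]
      refine Finset.sum_congr rfl fun i _ => ?_
      rw [LinearMap.map_smul_of_tower, Pool.Agent.Lib.MP_938ce2_ag_h67.ev_smul]
    have h2 := indep_of_simple (K := ℚ) hN' hE' (fun j => T (β j)) hβli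
      (fun j => ∑ i, a (i, j) • (single (σ i) (1 : ℚ) • v₀)) h1
    rintro ⟨i, j⟩
    have h3 := congrFun h2 j
    exact Fintype.linearIndependent_iff.1 hσli (fun i => a (i, j)) h3 i
  · rintro w ⟨N'', ⟨e''⟩, hw⟩
    let ψ : N' →ₗ[MonoidAlgebra ℚ P] VV ℚ P Ω :=
      N''.subtype.comp (e''.toLinearMap.comp e.symm.toLinearMap)
    have hψ0 : ψ ≠ 0 := by
      intro h
      have h1 := LinearMap.congr_fun h v₀
      have h2 : ((e'' (e.symm v₀) : N'') : VV ℚ P Ω) = 0 := h1
      have h3 : e'' (e.symm v₀) = 0 := Subtype.ext h2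
      rw [LinearEquiv.map_eq_zero_iff, LinearEquiv.map_eq_zero_iff] at h3
      exact hv₀ h3
    have hψm : ψ ∈ Submodule.span ℚ (Set.range fun j => T (β j)) := by
      rw [hβspan]
      exact Submodule.mem_top
    obtain ⟨a, ha⟩ := (Submodule.mem_span_range_iff_exists_fun ℚ).1 hψm
    have ha0 : a ≠ 0 := by
      rintro rfl
      apply hψ0
      rw [← ha]
      simp
    have hker : ((Matrix.of fun i j => ∑ y, w y * F ((σ i)⁻¹ • rt (β j) y)).map
        (Int.castRingHom ℚ)).det = 0 := by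
      rw [← Matrix.exists_mulVec_eq_zero_iff]
      refine ⟨a, ha0, ?_⟩
      funext i
      have h1 : ∑ y, (w y : ℚ) * ev (ψ (single (σ i) (1 : ℚ) • v₀)) y = 0 :=
        hw _ (e'' (e.symm (single (σ i) (1 : ℚ) • v₀))).2
      rw [Matrix.mulVec, dotProduct, Pi.zero_apply, ← h1]
      have h2 : ∀ y, ev (ψ (single (σ i) (1 : ℚ) • v₀)) y =
          ∑ j, a j * (F ((σ i)⁻¹ • rt (β j) y) : ℚ) := by
        intro y
        rw [← ha, hsumT]
        exact Finset.sum_congr rfl fun j _ => by rw [hval]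
      simp only [h2, Finset.mul_sum]
      rw [Finset.sum_comm]
      refine Finset.sum_congr rfl fun j _ => ?_
      rw [Matrix.map_apply, Matrix.of_apply, eq_intCast, Int.cast_sum, Finset.sum_mul]
      refine Finset.sum_congr rfl fun y _ => ?_
      rw [Int.cast_mul]
      ring
    rw [← RingHom.mapMatrix_apply, ← RingHom.map_det, eq_intCast] at hker
    exact_mod_cast hker

end Pool.Agent.Lib.MP_938ce2_ag_K
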