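import Mathlib
import Pool.Agent.Lib.MP_938ce2_ag_u2.TypeC
import Pool.Agent.Lib.MP_938ce2_ag_u3.RegMod

/-!
Row K7a (150 lines): three facts on the quotient by the kernel of a module.

RECIPE. `end_down`: `≥`: `finrank_end_le_down` (h67/Quot.lean) with `TypeCAux.DD_fac`; `≤`: an endomorphism `b` of `down D M`
gives the endomorphism `v ↦ eN (b (eN.symm v))` of `M` (equivariant by `eN_single`, `eN_symm_single`, see `upH` for
the pattern), a ℚ-linear injection. `simple_down`: submodules of `down D M` correspond to submodules of `M` (`eN`,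
`eN_single`): the image under `pull` of a submodule of `down D M` is a `G`-submodule of `M`, so `0` or `M` (a similar lemma may
exist: grep `down` in h85d, u3, u5). `free_QP`: `τ̄ • mk x = mk x` means `k • τ • x = x` with
`k ∈ kerM M`, so `k τ ∈ kerM M` by `u3.stab_ker`, `τ ∈ kerM M`, and `DD_one`. `fibre_card`: multiplication by
`σ` maps the fibre of `y` onto the fibre of `σ • y`; transitivity.
-/

set_option autoImplicit false
set_option linter.unusedSectionVars false

namespace Pool.Agent.Lib.MP_938ce2_ag_K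

open Finset Module MonoidAlgebra
open Pool.Agent.Lib.MP_938ce2_ag_h67 (sg VV ev mkV Orb red kerM QD fw down)
open Pool.Agent.Lib.MP_938ce2_ag_h60 (CMType)
open Pool.Agent.Lib.MP_938ce2_ag_u2 (Act OddM badC mem_badC dM dE dH)
open Pool.Agent.Lib.MP_938ce2_ag_u2.TypeCAux (QP DD DD_fac DD_one DD_ker)

variable {G X : Type} [Group G] [Fintype G] [MulAction G X] [Fintype X] [DecidableEq X] {c : G}
  {g : ℕ} [MulAction.IsPretransitive G X]

private noncomputable def upE {Q X' : Type} [Group Q] [MulAction Q X']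
    (D : Pool.Agent.Lib.MP_938ce2_ag_h67.QD G Q X X')
    (M : Submodule (MonoidAlgebra ℚ G) (VV ℚ G X))
    (hM : Pool.Agent.Lib.MP_938ce2_ag_h67.Fac D M)
    (b : down D M →ₗ[MonoidAlgebra ℚ Q] down D M) :
    M →ₗ[MonoidAlgebra ℚ G] M :=
  MonoidAlgebra.equivariantOfLinearOfComm
    ((Pool.Agent.Lib.MP_938ce2_ag_h67.eN D M hM).toLinearMap.comp
      ((b.restrictScalars ℚ).comp (Pool.Agent.Lib.MP_938ce2_ag_h67.eN D M hM).symm.toLinearMap)) (by
    intro σ v
    show Pool.Agent.Lib.MP_938ce2_ag_h67.eN D M hM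
        (b ((Pool.Agent.Lib.MP_938ce2_ag_h67.eN D M hM).symm (MonoidAlgebra.single σ (1 : ℚ) • v)))
      = MonoidAlgebra.single σ (1 : ℚ) • Pool.Agent.Lib.MP_938ce2_ag_h67.eN D M hM
        (b ((Pool.Agent.Lib.MP_938ce2_ag_h67.eN D M hM).symm v))
    rw [Pool.Agent.Lib.MP_938ce2_ag_h67.eN_symm_single, map_smul,
      Pool.Agent.Lib.MP_938ce2_ag_h67.eN_single])

private lemma upE_apply {Q X' : Type} [Group Q] [MulAction Q X']
    (D : Pool.Agent.Lib.MP_938ce2_ag_h67.QD G Q X X')
    (M : Submodule (MonoidAlgebra ℚ G) (VV ℚ G X))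
    (hM : Pool.Agent.Lib.MP_938ce2_ag_h67.Fac D M)
    (b : down D M →ₗ[MonoidAlgebra ℚ Q] down D M) (v : M) :
    upE D M hM b v = Pool.Agent.Lib.MP_938ce2_ag_h67.eN D M hM
        (b ((Pool.Agent.Lib.MP_938ce2_ag_h67.eN D M hM).symm v)) := rfl

theorem end_down (M : Submodule (MonoidAlgebra ℚ G) (VV ℚ G X)) :
    finrank ℚ (down (DD (X := X) (kerM M)) M →ₗ[MonoidAlgebra ℚ (QP (X := X) (kerM M))]
      down (DD (X := X) (kerM M)) M) = dE M := by
  have hMfac := DD_fac M M ⟨LinearEquiv.refl _ _⟩
  have hft : Finite (Orb (kerM M) X) := Finite.of_surjective _ (Orb.mk_surj (kerM M))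
  apply le_antisymm
  · have hfin : Module.Finite ℚ M := Module.Finite.of_injective (M.subtype.restrictScalars ℚ)
      Subtype.val_injective
    have hf2 : Module.Finite ℚ (M →ₗ[MonoidAlgebra ℚ G] M) :=
      Pool.Agent.Lib.MP_938ce2_ag_h85d.finite_hom
    let L : (down (DD (X := X) (kerM M)) M →ₗ[MonoidAlgebra ℚ (QP (X := X) (kerM M))]
        down (DD (X := X) (kerM M)) M) →ₗ[ℚ] (M →ₗ[MonoidAlgebra ℚ G] M) :=
      { toFun := fun b => upE (DD (X := X) (kerM M)) M hMfac b
        map_add' := fun b c => by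
          apply LinearMap.ext
          intro v
          rw [upE_apply, LinearMap.add_apply, LinearMap.add_apply, map_add]
          rfl
        map_smul' := fun a b => by
          apply LinearMap.ext
          intro v
          rw [upE_apply, LinearMap.smul_apply, map_smul]
          rfl }
    refine LinearMap.finrank_le_finrank_of_injective (f := L) ?_
    intro b c h
    apply LinearMap.ext
    intro u
    have h1 := congrArg (fun t : M →ₗ[MonoidAlgebra ℚ G] M =>
      t (Pool.Agent.Lib.MP_938ce2_ag_h67.eN (DD (X := X) (kerM M)) M hMfac u)) h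
    have h2 : Pool.Agent.Lib.MP_938ce2_ag_h67.eN (DD (X := X) (kerM M)) M hMfac
        (b ((Pool.Agent.Lib.MP_938ce2_ag_h67.eN (DD (X := X) (kerM M)) M hMfac).symm
          (Pool.Agent.Lib.MP_938ce2_ag_h67.eN (DD (X := X) (kerM M)) M hMfac u)))
        = Pool.Agent.Lib.MP_938ce2_ag_h67.eN (DD (X := X) (kerM M)) M hMfac
        (c ((Pool.Agent.Lib.MP_938ce2_ag_h67.eN (DD (X := X) (kerM M)) M hMfac).symm
          (Pool.Agent.Lib.MP_938ce2_ag_h67.eN (DD (X := X) (kerM M)) M hMfac u))) := h1
    rw [LinearEquiv.symm_apply_apply] at h2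
    exact (Pool.Agent.Lib.MP_938ce2_ag_h67.eN (DD (X := X) (kerM M)) M hMfac).injective h2
  · exact Pool.Agent.Lib.MP_938ce2_ag_h67.finrank_end_le_down _ hMfac

theorem simple_down (M : Submodule (MonoidAlgebra ℚ G) (VV ℚ G X))
    (hs : IsSimpleModule (MonoidAlgebra ℚ G) M) :
    IsSimpleModule (MonoidAlgebra ℚ (QP (X := X) (kerM M))) (down (DD (X := X) (kerM M)) M) := by
  have hMfac := DD_fac M M ⟨LinearEquiv.refl _ _⟩
  set D := DD (X := X) (kerM M) with hD
  set e := Pool.Agent.Lib.MP_938ce2_ag_h67.eN D M hMfac with he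
  have hnt : Nontrivial M := IsSimpleModule.nontrivial (MonoidAlgebra ℚ G) M
  have hnt2 : Nontrivial (down D M) := by
    obtain ⟨a, b, hab⟩ := hnt
    exact ⟨e.symm a, e.symm b, fun h => hab (e.symm.injective h)⟩
  have key : ∀ S : Submodule (MonoidAlgebra ℚ (QP (X := X) (kerM M))) (down D M),
      S = ⊥ ∨ S = ⊤ := by
    intro S
    let T : Submodule (MonoidAlgebra ℚ G) M :=
      { carrier := {v | e.symm v ∈ S}
        zero_mem' := by
          show e.symm 0 ∈ S
          rw [map_zero]
          exact S.zero_mem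
        add_mem' := by
          intro u v hu hv
          show e.symm (u + v) ∈ S
          rw [map_add]
          exact S.add_mem hu hv
        smul_mem' := by
          intro r u hu
          show e.symm (r • u) ∈ S
          induction r using MonoidAlgebra.induction_linear with
          | zero =>
            rw [zero_smul, map_zero]
            exact S.zero_mem
          | add a b ha hb =>
            rw [add_smul, map_add]
            exact S.add_mem ha hb
          | single τ a =>
            rw [he, Pool.Agent.Lib.MP_938ce2_ag_h67.eN_symm_single]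
            exact S.smul_mem _ hu }
    have hT : ∀ v : M, v ∈ T ↔ e.symm v ∈ S := fun v => Iff.rfl
    rcases eq_bot_or_eq_top T with h | h
    · left
      rw [Submodule.eq_bot_iff]
      intro u hu
      have h1 : e u ∈ T := by
        rw [hT, LinearEquiv.symm_apply_apply]
        exact hu
      rw [h, Submodule.mem_bot] at h1
      exact e.injective (by rw [h1, map_zero])
    · right
      rw [Submodule.eq_top_iff']
      intro u
      have h1 : e u ∈ T := by
        rw [h]
        exact Submodule.mem_top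
      rw [hT, LinearEquiv.symm_apply_apply] at h1
      exact h1
  rw [isSimpleModule_iff]
  exact ⟨key⟩

theorem free_QP (hA : Act G X c g) (M : Submodule (MonoidAlgebra ℚ G) (VV ℚ G X))
    (heq : dH M = dM M) (σ : QP (X := X) (kerM M)) (y : Orb (kerM M) X) (h : σ • y = y) :
    σ = 1 := by
  obtain ⟨τ, rfl⟩ := (DD (X := X) (kerM M)).hφ σ
  obtain ⟨x, rfl⟩ := Orb.mk_surj (kerM M) y
  have h1 : Orb.mk (kerM M) (τ • x) = Orb.mk (kerM M) x := h
  obtain ⟨k, hk, hkx⟩ := (Orb.mk_eq (kerM M)).mp h1
  have h2 : (k⁻¹ * τ) • x = x := by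
    rw [mul_smul, ← hkx, inv_smul_smul]
  have h3 := Pool.Agent.Lib.MP_938ce2_ag_u3.stab_ker hA M heq _ x h2
  apply DD_one
  have h4 := (kerM M).mul_mem hk h3
  rwa [mul_inv_cancel_left] at h4

open Classical in
theorem fibre_card (K : Subgroup G) [K.Normal] (y z : Orb K X) :
    (Finset.univ.filter fun x : X => Orb.mk K x = y).card
      = (Finset.univ.filter fun x : X => Orb.mk K x = z).card := by
  obtain ⟨a, rfl⟩ := Orb.mk_surj K y
  obtain ⟨b, rfl⟩ := Orb.mk_surj K z
  obtain ⟨σ, hσ⟩ := MulAction.exists_smul_eq G a b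
  have hmk : ∀ x : X, Orb.mk K (σ • x) = σ • Orb.mk K x := fun _ => rfl
  refine Finset.card_bij (fun x _ => σ • x) ?_ ?_ ?_
  · intro x hx
    rw [Finset.mem_filter] at hx ⊢
    refine ⟨Finset.mem_univ _, ?_⟩
    rw [hmk, hx.2, ← hmk, hσ]
  · intro x _ x' _ h
    exact MulAction.injective σ h
  · intro x hx
    rw [Finset.mem_filter] at hx
    refine ⟨σ⁻¹ • x, ?_, smul_inv_smul σ x⟩
    rw [Finset.mem_filter]
    refine ⟨Finset.mem_univ _, ?_⟩
    have h1 : σ • Orb.mk K (σ⁻¹ • x) = σ • Orb.mk K a := by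
      rw [← hmk, smul_inv_smul, ← hmk, hσ, hx.2]
    exact MulAction.injective σ h1

end Pool.Agent.Lib.MP_938ce2_ag_K
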