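import Mathlib
import Pool.Agent.Lib.MP_938ce2_ag_K.K2
import Pool.Agent.Lib.MP_938ce2_ag_K.K4
import Pool.Agent.Lib.MP_938ce2_ag_K.K5
import Pool.Agent.Lib.MP_938ce2_ag_K.K6
import Pool.Agent.Lib.MP_938ce2_ag_K.K7a
import Pool.Agent.Lib.MP_938ce2_ag_u4.MinkB

/-!
Row K7 (250 lines): assembly. Uses K2 (`count_pull`), K4 (`shell_sum`), K5 (`fw_dist`, `fw_odd`), K6 (`exists_h`), K7a.

RECIPE. CONSTANT: let `D₀ = 3 ^ (n * n)`, `A d` the constant of `count_pull n d (2 * (n * (n + 1)))`... (use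
`h` itself, `H = n (n + 1)`), `C d` the constant of `shell_sum d (d - min n 4) (A d)` (for `d ≥ min n 4`), and
`C = (∑ d ≤ D₀, C d) * D₀ ^ 2`. PROOF: `K = kerM M`, `D = DD K`, `P = QP K` acts on `Ω = Orb K X`, transitively (D.hφ, or
`u2.ThreeCAux.orb_trans`) and freely (`free_QP`); `N = down D M` is simple, `finrank End = 1`, `finrank ℚ N = n`
(`finrank_down`), odd for `c' = D.φ c` (`TypeCAux.odd_down`). Take `h` from `exists_h`. Choose `Y : Finset Ω` with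
`CMType c' Y` (one point of each pair `y, c' • y`; `c'` acts without fixed points by `u2.c_free`, cf. `exists_cm` in u2/u3
CountCs). Fibres have constant size `f` (`fibre_card`), `g = Y.card * f`, `f ≥ 1`, `f ≤ g`, and
`Y.card ≤ Nat.card Ω = K.index ≤ D₀` (`u2.index_eq`, `u4.index_le_mink`), so `f ≥ g / D₀`. If `Φ ∈ badC c M` then
`w = fw D Φ` is orthogonal to a copy of `N` (as in `TypeCAux.card_gen`: `down_iso`, `sum_fw`), so
`det (∑ y : Ω, w y * h i j y) = 0`; by oddness of `w` and `h` the entries are `2 * ∑ y : Y, w y * h i j y`, so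
`det (∑ y : Y, w y * h i j y) = 0`. The restrictions of the `h i j` to `Y` are linearly independent (odd functions).
With `S w := det (...) = 0` on `Y → ℤ` and the finite set `V` of the values `(fw D Φ y)_{y ∈ Y}`, `Φ ∈ badC c M`:
`card (badC c M) ≤ ∑ w ∈ V, 2 ^ g * ∏ pf f (w y)` (`fw_dist`), and `shell_sum` (`count_pull` gives its hypothesis for
`d = Y.card`, `a = d - min n 4`; `n ^ 2 ≤ d` by independence). `√f ^ a / √f ^ d = 1 / √f ^ (min n 4)
≤ D₀ ^ 2 / √g ^ (min n 4)`, `log f ≤ log g`.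
-/

set_option autoImplicit false
set_option linter.unusedSectionVars false

namespace Pool.Agent.Lib.MP_938ce2_ag_K

open Finset Module MonoidAlgebra
open Pool.Agent.Lib.MP_938ce2_ag_h67 (sg VV ev mkV Orb red kerM QD fw down)
open Pool.Agent.Lib.MP_938ce2_ag_h60 (CMType)
open Pool.Agent.Lib.MP_938ce2_ag_u2 (Act OddM badC mem_badC dM dE dH)
open Pool.Agent.Lib.MP_938ce2_ag_u2.TypeCAux (QP DD DD_fac DD_one DD_ker)

/-- the action on the quotient -/
private lemma act_quot {G X : Type} [Group G] [Fintype G] [MulAction G X] [Fintype X]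
    [DecidableEq X] [MulAction.IsPretransitive G X] {c : G} {g : ℕ} (hA : Act G X c g)
    (M : Submodule (MonoidAlgebra ℚ G) (VV ℚ G X)) (hodd : OddM c M) (hm : 0 < dM M)
    [Fintype (Orb (kerM M) X)] :
    ∃ w : ℕ, Act (QP (X := X) (kerM M)) (Orb (kerM M) X) ((DD (X := X) (kerM M)).φ c) w ∧
      Fintype.card (Orb (kerM M) X) = 2 * w := by
  have hfree : ∀ (x : X), ∀ k ∈ kerM M, k • x ≠ c • x := fun x k hk =>
    Pool.Agent.Lib.MP_938ce2_ag_u2.c_free hA M hodd hm x k hk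
  obtain ⟨x₀⟩ := Pool.Agent.Lib.MP_938ce2_ag_u2.ThreeAAux.nonempty_of_pos M hm
  obtain ⟨w, hw, -⟩ := Pool.Agent.Lib.MP_938ce2_ag_u2.ThreeCAux.orb_card hA (kerM M) hfree x₀
  rw [Nat.card_eq_fintype_card] at hw
  refine ⟨w, ⟨?_, ?_, ?_, hw, ?_⟩, hw⟩
  · intro σ
    obtain ⟨τ, rfl⟩ := (DD (X := X) (kerM M)).hφ σ
    rw [← map_mul, hA.comm, map_mul]
  · rw [← map_mul, hA.sq, map_one]
  · intro y
    obtain ⟨x, rfl⟩ := (DD (X := X) (kerM M)).hπ y
    intro h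
    rw [← (DD (X := X) (kerM M)).comm] at h
    have h3 : Orb.mk (kerM M) (c • x) = Orb.mk (kerM M) x := h
    rw [Orb.mk_eq] at h3
    obtain ⟨k, hk, hkx⟩ := h3
    exact hfree x k hk hkx
  · have h1 : 0 < Fintype.card (Orb (kerM M) X) := Fintype.card_pos_iff.2 ⟨Orb.mk _ x₀⟩
    omega

/-- the numbers -/
private lemma num_fin (k w f g D₀ : ℕ) (C₀ S B : ℝ) (hk : k ≤ 4) (hC : 0 ≤ C₀) (hCS : C₀ ≤ S)
    (hf : 1 ≤ f) (hw : w ≤ D₀) (hw1 : 1 ≤ w) (hg : g = w * f) (a d : ℕ) (had : a + k = d)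
    (hB : B ≤ C₀ * √(f : ℝ) ^ a / √(f : ℝ) ^ d * (1 + Real.log f)) :
    B ≤ (S * (D₀ : ℝ) ^ 2 + 1) / √(g : ℝ) ^ k * (1 + Real.log g) := by
  have hf1 : (1 : ℝ) ≤ f := by exact_mod_cast hf
  have hg1 : 1 ≤ g := by
    rw [hg]
    exact Nat.mul_pos hw1 hf
  have hgf : f ≤ g := by
    rw [hg]
    exact Nat.le_mul_of_pos_left f hw1
  have hgR : (1 : ℝ) ≤ g := by exact_mod_cast hg1
  have hfgR : (f : ℝ) ≤ g := by exact_mod_cast hgf
  have hD1 : 1 ≤ D₀ := hw1.trans hw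
  have hDR : (1 : ℝ) ≤ D₀ := by exact_mod_cast hD1
  have hgD : (g : ℝ) ≤ D₀ * f := by
    have : g ≤ D₀ * f := by
      rw [hg]
      exact Nat.mul_le_mul_right f hw
    exact_mod_cast this
  have hsf : (0 : ℝ) < √(f : ℝ) := Real.sqrt_pos.2 (by linarith)
  have hsg : (0 : ℝ) < √(g : ℝ) := Real.sqrt_pos.2 (by linarith)
  have hlf : 0 ≤ Real.log f := Real.log_nonneg hf1
  have hlfg : Real.log f ≤ Real.log g := Real.log_le_log (by linarith) hfgR
  have h1 : C₀ * √(f : ℝ) ^ a / √(f : ℝ) ^ d = C₀ / √(f : ℝ) ^ k := by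
    rw [← had, pow_add]
    field_simp
  rw [h1] at hB
  have h2 : √(g : ℝ) ^ k ≤ (D₀ : ℝ) ^ 2 * √(f : ℝ) ^ k := by
    have h3 : √(g : ℝ) ≤ √(D₀ : ℝ) * √(f : ℝ) := by
      rw [← Real.sqrt_mul (by linarith)]
      exact Real.sqrt_le_sqrt hgD
    have h4 : √(D₀ : ℝ) ^ k ≤ (D₀ : ℝ) ^ 2 := by
      have h5 : (1 : ℝ) ≤ √(D₀ : ℝ) := Real.one_le_sqrt.2 hDR
      calc √(D₀ : ℝ) ^ k ≤ √(D₀ : ℝ) ^ 4 := pow_le_pow_right₀ h5 hk
        _ = (√(D₀ : ℝ) ^ 2) ^ 2 := by ring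
        _ = (D₀ : ℝ) ^ 2 := by rw [Real.sq_sqrt (by linarith)]
    calc √(g : ℝ) ^ k ≤ (√(D₀ : ℝ) * √(f : ℝ)) ^ k := pow_le_pow_left₀ hsg.le h3 k
      _ = √(D₀ : ℝ) ^ k * √(f : ℝ) ^ k := mul_pow _ _ _
      _ ≤ (D₀ : ℝ) ^ 2 * √(f : ℝ) ^ k := mul_le_mul_of_nonneg_right h4 (by positivity)
  have h6 : C₀ / √(f : ℝ) ^ k ≤ (S * (D₀ : ℝ) ^ 2 + 1) / √(g : ℝ) ^ k := by
    rw [div_le_div_iff₀ (by positivity) (by positivity)]
    calc C₀ * √(g : ℝ) ^ k ≤ C₀ * ((D₀ : ℝ) ^ 2 * √(f : ℝ) ^ k) :=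
          mul_le_mul_of_nonneg_left h2 hC
      _ = (C₀ * (D₀ : ℝ) ^ 2) * √(f : ℝ) ^ k := by ring
      _ ≤ (S * (D₀ : ℝ) ^ 2 + 1) * √(f : ℝ) ^ k := by
        refine mul_le_mul_of_nonneg_right ?_ (by positivity)
        have := mul_le_mul_of_nonneg_right hCS (by positivity : (0 : ℝ) ≤ (D₀ : ℝ) ^ 2)
        linarith
  have h7 : 0 ≤ (S * (D₀ : ℝ) ^ 2 + 1) / √(g : ℝ) ^ k := by
    have : 0 ≤ S := hC.trans hCS
    positivity
  exact hB.trans (mul_le_mul h6 (by linarith) (by linarith) h7)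

theorem K_bound (n : ℕ) (hn : 2 ≤ n) : ∃ C : ℝ, 0 < C ∧ ∀ (G X : Type) [Group G] [Fintype G]
    [MulAction G X] [Fintype X] [DecidableEq X] [MulAction.IsPretransitive G X] (c : G) (g : ℕ),
    Act G X c g → ∀ M : Submodule (MonoidAlgebra ℚ G) (VV ℚ G X),
      IsSimpleModule (MonoidAlgebra ℚ G) M → OddM c M → dE M = 1 → dH M = dM M → dM M = n →
      ((badC c M).card : ℝ) / 2 ^ g ≤ C / √(g : ℝ) ^ (min n 4) * (1 + Real.log g) := by
  classical
  obtain ⟨H, hH⟩ : ∃ H, H = n * (n + 1) := ⟨_, rfl⟩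
  choose A hA0 hA1 using fun d : ℕ => count_pull n d H hn
  choose C₀ hC0 hC1 using fun d : ℕ => shell_sum d (d - min n 4) (A d) (hA0 d).le
  obtain ⟨D₀, hD₀⟩ : ∃ D₀, D₀ = 3 ^ (n * n) := ⟨_, rfl⟩
  obtain ⟨S₀, hS₀⟩ : ∃ S₀, S₀ = ∑ d ∈ Finset.range (D₀ + 1), C₀ d := ⟨_, rfl⟩
  have hSnn : 0 ≤ S₀ := by
    rw [hS₀]
    exact Finset.sum_nonneg fun d _ => hC0 d
  refine ⟨S₀ * (D₀ : ℝ) ^ 2 + 1, by positivity, ?_⟩
  intro G X _ _ _ _ _ _ c g hA M hs hodd hE heq hMn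
  have hm : 0 < dM M := by rw [hMn]; omega
  -- the quotient
  have hft : Finite (Orb (kerM M) X) := Finite.of_surjective _ (Orb.mk_surj (kerM M))
  let _ : Fintype (Orb (kerM M) X) := Fintype.ofFinite _
  let _ : Fintype (QP (X := X) (kerM M)) := Fintype.ofFinite _
  obtain ⟨w, hA', hcw⟩ := act_quot hA M hodd hm
  obtain ⟨D, hD⟩ : ∃ D, D = DD (X := X) (kerM M) := ⟨_, rfl⟩
  have hMfac : Pool.Agent.Lib.MP_938ce2_ag_h67.Fac D M := by
    rw [hD]
    exact DD_fac M M ⟨LinearEquiv.refl _ _⟩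
  have htr : MulAction.IsPretransitive (QP (X := X) (kerM M)) (Orb (kerM M) X) := by
    refine ⟨fun a b => ?_⟩
    obtain ⟨x, rfl⟩ := (DD (X := X) (kerM M)).hπ a
    obtain ⟨y, rfl⟩ := (DD (X := X) (kerM M)).hπ b
    obtain ⟨σ, rfl⟩ := MulAction.exists_smul_eq G x y
    exact ⟨(DD (X := X) (kerM M)).φ σ, ((DD (X := X) (kerM M)).comm σ x).symm⟩
  have hodd' : OddM (D.φ c) (down D M) :=
    Pool.Agent.Lib.MP_938ce2_ag_u2.TypeCAux.odd_down D M hodd
  obtain ⟨h, hb, hho, hli, hdet⟩ := exists_h (P := QP (X := X) (kerM M)) (Ω := Orb (kerM M) X)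
    (fun σ y hy => free_QP hA M heq σ y hy) (down D M) (by rw [hD]; exact simple_down M hs)
    (by rw [hD, end_down, hE]) (D.φ c) hodd' n
    (by rw [Pool.Agent.Lib.MP_938ce2_ag_h67.finrank_down D hMfac]; exact hMn)
  rw [← hD] at hA'
  -- the half
  obtain ⟨Y, hY⟩ := Pool.Agent.Lib.MP_938ce2_ag_u2.exists_cm hA'
  have hYw : Fintype.card {y // y ∈ Y} = w := Pool.Agent.Lib.MP_938ce2_ag_u2.card_cm hA' hY
  -- the fibres
  obtain ⟨x₀⟩ := Pool.Agent.Lib.MP_938ce2_ag_u2.ThreeAAux.nonempty_of_pos M hm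
  obtain ⟨f, hf⟩ : ∃ f, f = (Finset.univ.filter fun x : X =>
    Orb.mk (kerM M) x = Orb.mk (kerM M) x₀).card := ⟨_, rfl⟩
  have hfib : ∀ y : Orb (kerM M) X, (Finset.univ.filter fun x : X => D.π x = y).card = f := by
    intro y
    have h1 : (Finset.univ.filter fun x : X => D.π x = y)
        = Finset.univ.filter fun x : X => Orb.mk (kerM M) x = y := by
      rw [hD]
      rfl
    rw [hf, h1]
    exact fibre_card (kerM M) y (Orb.mk (kerM M) x₀)
  have hf1 : 1 ≤ f := by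
    rw [hf]
    exact Finset.card_pos.2 ⟨x₀, Finset.mem_filter.2 ⟨Finset.mem_univ _, rfl⟩⟩
  have hgw : g = w * f := by
    have h1 : Fintype.card X = ∑ y : Orb (kerM M) X,
        (Finset.univ.filter fun x : X => D.π x = y).card := by
      rw [← Finset.card_univ]
      exact Finset.card_eq_sum_card_fiberwise fun x _ => Finset.mem_univ _
    rw [Finset.sum_congr rfl fun y _ => hfib y, Finset.sum_const, Finset.card_univ, hcw,
      hA.card, smul_eq_mul, mul_assoc] at h1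
    exact Nat.eq_of_mul_eq_mul_left two_pos h1
  have hwD : w ≤ D₀ := by
    have h1 := Pool.Agent.Lib.MP_938ce2_ag_u4.index_le_mink M
    rw [Pool.Agent.Lib.MP_938ce2_ag_u2.index_eq hA M hm heq, hMn, ← hD₀,
      Nat.card_eq_fintype_card, hcw] at h1
    omega
  -- linear independence of the restrictions
  have hli' : LinearIndependent ℚ (fun (p : Fin n × Fin n) (y : {y // y ∈ Y}) =>
      (h p.1 p.2 y.1 : ℚ)) := by
    rw [Fintype.linearIndependent_iff] at hli ⊢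
    intro a ha
    refine hli a ?_
    funext y
    have key : ∀ z, z ∈ Y → (∑ p, a p • fun y : Orb (kerM M) X => (h p.1 p.2 y : ℚ)) z = 0 := by
      intro z hz
      have h1 := congrFun ha ⟨z, hz⟩
      rw [Finset.sum_apply] at h1 ⊢
      exact h1
    by_cases hy : y ∈ Y
    · exact key y hy
    · have hy2 : D.φ c • y ∈ Y := by
        by_contra hc
        exact hy ((hY y).2 hc)
      have h1 := key _ hy2
      rw [Finset.sum_apply] at h1
      rw [Finset.sum_apply]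
      have h2 : ∀ p : Fin n × Fin n,
          (a p • fun y : Orb (kerM M) X => (h p.1 p.2 y : ℚ)) (D.φ c • y)
            = -((a p • fun y : Orb (kerM M) X => (h p.1 p.2 y : ℚ)) y) := by
        intro p
        change a p * (h p.1 p.2 (D.φ c • y) : ℚ) = -(a p * (h p.1 p.2 y : ℚ))
        rw [hho, Int.cast_neg, mul_neg]
      rw [Finset.sum_congr rfl fun p _ => h2 p, Finset.sum_neg_distrib, neg_eq_zero] at h1
      exact h1
  have hnw : n * n ≤ w := by
    have h1 := hli'.fintype_card_le_finrank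
    rw [Fintype.card_prod, Fintype.card_fin, Module.finrank_fintype_fun_eq_card, hYw] at h1
    exact h1
  have hk4 : min n 4 ≤ w := by
    have h1 : n ≤ n * n := Nat.le_mul_of_pos_left n (by omega)
    exact (min_le_left n 4).trans (h1.trans hnw)
  -- the bad types
  have hbad : ∀ Φ ∈ badC c M, (Matrix.of fun i j => ∑ y : {y // y ∈ Y},
      fw D Φ y.1 * h i j y.1).det = 0 := by
    intro Φ hΦ
    obtain ⟨hcm, M', hM', hv⟩ := (mem_badC c M Φ).1 hΦ
    have hfac' : Pool.Agent.Lib.MP_938ce2_ag_h67.Fac D M' := by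
      rw [hD]
      exact DD_fac M M' hM'
    have h1 := hdet (fw D Φ) ⟨down D M',
      Pool.Agent.Lib.MP_938ce2_ag_h67.down_iso D hMfac hfac' hM', by
        intro u hu
        rw [Pool.Agent.Lib.MP_938ce2_ag_h67.sum_fw]
        exact hv _ ((Pool.Agent.Lib.MP_938ce2_ag_h67.mem_down D M' u).mp hu)⟩
    have h2 : (Matrix.of fun i j => ∑ y : Orb (kerM M) X, fw D Φ y * h i j y)
        = (2 : ℤ) • (Matrix.of fun i j => ∑ y : {y // y ∈ Y}, fw D Φ y.1 * h i j y.1) := by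
      ext i j
      rw [Matrix.smul_apply, Matrix.of_apply, Matrix.of_apply, smul_eq_mul]
      have h3 := hA'.sum_type hY (fun y => fw D Φ y * h i j y)
      have h4 : ∑ y ∈ Y, fw D Φ (D.φ c • y) * h i j (D.φ c • y)
          = ∑ y ∈ Y, fw D Φ y * h i j y :=
        Finset.sum_congr rfl fun y _ => by rw [fw_odd hA D Φ hcm, hho, neg_mul_neg]
      rw [← h3, h4, ← Finset.sum_coe_sort Y]
      ring
    rw [h2, Matrix.det_smul] at h1
    have h5 : (2 : ℤ) ^ Fintype.card (Fin n) ≠ 0 := by positivity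
    exact (mul_eq_zero.1 h1).resolve_left h5
  -- the count
  let V : Finset ({y // y ∈ Y} → ℤ) := (badC c M).image fun Φ y => fw D Φ y.1
  have hV : ∀ v ∈ V, (Matrix.of fun i j => ∑ y : {y // y ∈ Y}, v y * h i j y.1).det = 0 := by
    intro v hv
    obtain ⟨Φ, hΦ, rfl⟩ := Finset.mem_image.1 hv
    exact hbad Φ hΦ
  have hcount : ((badC c M).card : ℝ) ≤ 2 ^ g * ∑ v ∈ V, ∏ y, pf f (v y) := by
    have h1 : (badC c M).card = ∑ v ∈ V, ((badC c M).filter fun Φ =>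
        (fun y : {y // y ∈ Y} => fw D Φ y.1) = v).card :=
      Finset.card_eq_sum_card_image _ _
    rw [h1, Nat.cast_sum, Finset.mul_sum]
    refine Finset.sum_le_sum fun v _ => ?_
    rw [← fw_dist hA D f (fun y => by rw [← hfib y]) Y hY v]
    rw [Nat.cast_le]
    refine Finset.card_le_card fun Φ hΦ => ?_
    obtain ⟨h2, h3⟩ := Finset.mem_filter.1 hΦ
    refine Finset.mem_filter.2 ⟨Finset.mem_univ _, ((mem_badC c M Φ).1 h2).1, fun y => ?_⟩
    exact congrFun h3 y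
  have hshell := hC1 w {y // y ∈ Y} (fun v => (Matrix.of fun i j => ∑ y : {y // y ∈ Y},
    v y * h i j y.1).det = 0) hYw (fun R hR => hA1 w {y // y ∈ Y} (fun i j y => h i j y.1) hYw
      (fun i j y => by rw [hH]; exact hb i j y.1) hli' R hR) f hf1 V hV
  refine num_fin (min n 4) w f g D₀ (C₀ w) S₀ _ (min_le_right n 4) (hC0 w) ?_ hf1 hwD hA'.pos hgw
    (w - min n 4) w (Nat.sub_add_cancel hk4) ?_
  · rw [hS₀]
    exact Finset.single_le_sum (f := C₀) (fun d _ => hC0 d) (Finset.mem_range.2 (by omega))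
  · refine le_trans ?_ hshell
    rw [div_le_iff₀ (by positivity), mul_comm]
    exact hcount

end Pool.Agent.Lib.MP_938ce2_ag_K
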