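import Mathlib
import Pool.Agent.Lib.MP_938ce2_ag_K.K7

/-!
The bounds for absolutely simple modules of dimension two and three with trivial stabilizers.
-/

set_option autoImplicit false
set_option linter.unusedSectionVars false

namespace Pool.Agent.Lib.MP_938ce2_ag_K

open Finset Module MonoidAlgebra
open Pool.Agent.Lib.MP_938ce2_ag_h67 (sg VV ev mkV)
open Pool.Agent.Lib.MP_938ce2_ag_u2 (Act OddM badC mem_badC dM dE dH)

theorem K_two : ∃ C : ℝ, 0 < C ∧ ∀ (G X : Type) [Group G] [Fintype G]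
    [MulAction G X] [Fintype X] [DecidableEq X] [MulAction.IsPretransitive G X] (c : G) (g : ℕ),
    Act G X c g → 2 ≤ g → ∀ M : Submodule (MonoidAlgebra ℚ G) (VV ℚ G X),
      IsSimpleModule (MonoidAlgebra ℚ G) M → OddM c M → dE M = 1 → dH M = dM M → dM M = 2 →
      ((badC c M).card : ℝ) / 2 ^ g ≤ C * (Real.log g / g) := by
  obtain ⟨C, hC0, hC⟩ := K_bound 2 le_rfl
  refine ⟨3 * C, by positivity, ?_⟩
  intro G X _ _ _ _ _ _ c g hA hg M hs hodd hE hH hM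
  have h1 := hC G X c g hA M hs hodd hE hH hM
  have hg0 : (0 : ℝ) < g := by exact_mod_cast (by omega : 0 < g)
  have h2 : √(g : ℝ) ^ (min 2 4) = g := by
    rw [show min 2 4 = 2 from rfl, Real.sq_sqrt hg0.le]
  rw [h2] at h1
  refine h1.trans ?_
  have h3 : (1 : ℝ) ≤ 2 * Real.log g := by
    have h4 : Real.log 2 ≤ Real.log g := Real.log_le_log (by norm_num) (by exact_mod_cast hg)
    have h5 := Real.log_two_gt_d9
    linarith
  have h6 : 0 ≤ C / g := by positivity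
  calc C / g * (1 + Real.log g) ≤ C / g * (3 * Real.log g) :=
        mul_le_mul_of_nonneg_left (by linarith) h6
    _ = 3 * C * (Real.log g / g) := by ring

theorem K_three : ∃ C : ℝ, 0 < C ∧ ∀ (G X : Type) [Group G] [Fintype G]
    [MulAction G X] [Fintype X] [DecidableEq X] [MulAction.IsPretransitive G X] (c : G) (g : ℕ),
    Act G X c g → ∀ M : Submodule (MonoidAlgebra ℚ G) (VV ℚ G X),
      IsSimpleModule (MonoidAlgebra ℚ G) M → OddM c M → dE M = 1 → dH M = dM M → dM M = 3 →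
      ((badC c M).card : ℝ) / 2 ^ g ≤ C * (g : ℝ) ^ (-(21 / 20) : ℝ) := by
  obtain ⟨C, hC0, hC⟩ := K_bound 3 (by norm_num)
  refine ⟨10 * C, by positivity, ?_⟩
  intro G X _ _ _ _ _ _ c g hA M hs hodd hE hH hM
  have h1 := hC G X c g hA M hs hodd hE hH hM
  have hg1 : (1 : ℝ) ≤ g := by exact_mod_cast hA.pos
  have hg0 : (0 : ℝ) < g := by linarith
  have h2 : √(g : ℝ) ^ (min 3 4) = (g : ℝ) ^ (3 / 2 : ℝ) := by
    rw [show min 3 4 = 3 from rfl, Real.sqrt_eq_rpow, ← Real.rpow_natCast, ← Real.rpow_mul hg0.le]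
    norm_num
  rw [h2] at h1
  refine h1.trans ?_
  have h3 : Real.log g ≤ (g : ℝ) ^ (9 / 20 : ℝ) / (9 / 20) :=
    Real.log_le_rpow_div hg0.le (by norm_num)
  have h4 : (1 : ℝ) ≤ (g : ℝ) ^ (9 / 20 : ℝ) := Real.one_le_rpow hg1 (by norm_num)
  have h5 : 1 + Real.log g ≤ 10 * (g : ℝ) ^ (9 / 20 : ℝ) := by
    have : (g : ℝ) ^ (9 / 20 : ℝ) / (9 / 20) = 20 / 9 * (g : ℝ) ^ (9 / 20 : ℝ) := by ring
    rw [this] at h3
    linarith
  have h6 : 0 ≤ C / (g : ℝ) ^ (3 / 2 : ℝ) := by positivity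
  calc C / (g : ℝ) ^ (3 / 2 : ℝ) * (1 + Real.log g)
      ≤ C / (g : ℝ) ^ (3 / 2 : ℝ) * (10 * (g : ℝ) ^ (9 / 20 : ℝ)) :=
        mul_le_mul_of_nonneg_left h5 h6
    _ = 10 * C * ((g : ℝ) ^ (9 / 20 : ℝ) / (g : ℝ) ^ (3 / 2 : ℝ)) := by ring
    _ = 10 * C * (g : ℝ) ^ (-(21 / 20) : ℝ) := by
        rw [← Real.rpow_sub hg0]
        norm_num

end Pool.Agent.Lib.MP_938ce2_ag_K
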